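import Pool.Agent.Work.MP_ae9a8c_lc.Res

/-!
MODULE Alpha.  The auxiliary point `(α; ω)`.

PROOF.  The maximal ideals are finitely many (`h.fin`) and pairwise coprime; by the Chinese remainder
theorem (`Ideal.quotientInfRingEquivPiQuotient`, `Ideal.exists_forall_sub_mem_ideal`) there is `α` with
`α - c ∈ M₁` and `α ∈ M` for all maximal `M ≠ M₁`.  Then
`α^ℓ - β i ≡ c^ℓ - β i = w i ^ ℓ` modulo `M₁`, so by `exists_root_cong` there is `ω i` with
`ω i ^ ℓ = α^ℓ - β i` and `ω i ≡ w i` modulo `M₁`; `ω i` is a unit: not in `M₁` as `w i` is a unit, not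
in `M ≠ M₁` as `ω i ^ ℓ ≡ - β i` (`unit_of`).
-/

set_option autoImplicit false

namespace Pool.Agent.Work.MP_ae9a8c_lc

theorem exists_alpha {R : Type} [CommRing R] [IsDomain R] {p ℓ : ℕ} {ζ : R} (h : Ctx R p ℓ ζ)
    (M₁ : Ideal R) [M₁.IsMaximal] {m : ℕ} (β : Fin m → R) (hβ : ∀ i, IsUnit (β i))
    (c : R) (w : Fin m → R) (hwu : ∀ i, IsUnit (w i)) (hw : ∀ i, w i ^ ℓ = c ^ ℓ - β i) :
    ∃ (α : R) (ω : Fin m → R), α - c ∈ M₁ ∧ (∀ M : Ideal R, M.IsMaximal → M ≠ M₁ → α ∈ M) ∧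
      (∀ i, ω i ^ ℓ = α ^ ℓ - β i) ∧ (∀ i, IsUnit (ω i)) ∧ ∀ i, ω i - w i ∈ M₁ := by
  classical
  have hfin : Finite {M : Ideal R // M.IsMaximal} := h.fin.to_subtype
  obtain ⟨α, hα⟩ := Ideal.exists_forall_sub_mem_ideal
    (I := fun M : {M : Ideal R // M.IsMaximal} => M.1)
    (by
      intro M M' hne
      exact Ideal.isCoprime_iff_sup_eq.2
        (Ideal.IsMaximal.coprime_of_ne M.2 M'.2 fun h => hne (Subtype.ext h)))
    (fun M => if M.1 = M₁ then c else 0)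
  have h1 : α - c ∈ M₁ := by
    have := hα ⟨M₁, inferInstance⟩
    simpa using this
  have h2 : ∀ M : Ideal R, M.IsMaximal → M ≠ M₁ → α ∈ M := by
    intro M hM hne
    have := hα ⟨M, hM⟩
    simpa [hne] using this
  have h3 : ∀ i, ∃ y : R, y ^ ℓ = α ^ ℓ - β i ∧ y - w i ∈ M₁ := by
    intro i
    refine exists_root_cong h M₁ ?_
    rw [hw i]
    have h4 : α ^ ℓ - β i - (c ^ ℓ - β i) = α ^ ℓ - c ^ ℓ := by ring
    rw [h4]
    exact M₁.mem_of_dvd (sub_dvd_pow_sub_pow α c ℓ) h1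
  choose ω hω1 hω2 using h3
  refine ⟨α, ω, h1, h2, hω1, fun i => unit_of fun M hM hmem => ?_, hω2⟩
  by_cases hne : M = M₁
  · subst hne
    have h5 := M.sub_mem hmem (hω2 i)
    rw [sub_sub_cancel] at h5
    exact hM.ne_top (M.eq_top_of_isUnit_mem h5 (hwu i))
  · have h5 : ω i ^ ℓ ∈ M := Ideal.pow_mem_of_mem M hmem ℓ h.lp.pos
    have h6 : α ^ ℓ ∈ M := Ideal.pow_mem_of_mem M (h2 M hM hne) ℓ h.lp.pos
    rw [hω1 i] at h5
    have h7 := M.sub_mem h6 h5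
    rw [sub_sub_cancel] at h7
    exact hM.ne_top (M.eq_top_of_isUnit_mem h7 (hβ i))

end Pool.Agent.Work.MP_ae9a8c_lc
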