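import Pool.Agent.Work.MP_ae9a8c_lc.Ser

/-!
MODULE Base.  Small lemmas on `ev`, `tw`, `sr`, `cst` and on reduction modulo an ideal.

* `ev_cst`: only the `u` with `u.1.2 = 0` contribute; `mon z W b 0 = z^b`; the sum over `b ≤ 2n` of
  `P.coeff b z^b` is `aeval z P` (`Polynomial.aeval_eq_sum_range'`).
* `ev_map`: `map_sum`, `map_prod`.
* `red`: `ev_map` for `PowerSeries.map (Ideal.Quotient.mk M)` together with `ser_map`.
* `tw_sr`: the twist of the root series at `ω` is the root series at the twist of `ω` (`ser_tw`).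
* `ev_mod`: if `F ≡ F'` modulo an ideal coefficientwise then `ev F z W ≡ ev F' z W`.
-/

set_option autoImplicit false

namespace Pool.Agent.Work.MP_ae9a8c_lc

open PowerSeries

theorem ev_cst {R S : Type} [CommRing R] [CommRing S] [Algebra R S] {m ℓ n : ℕ} (hℓ : 0 < ℓ)
    (P : Polynomial R) (hP : P.natDegree ≤ 2 * n) (z : S) (W : Fin m → S) :
    ev (cst P : Idx m ℓ n → R) z W = Polynomial.aeval z P := by
  classical
  have hdg0 : dg (fun _ => ⟨0, hℓ⟩ : Ex m ℓ) = 0 := by
    unfold dg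
    simp
  have hnz0 : ¬ nz (fun _ => ⟨0, hℓ⟩ : Ex m ℓ) := by
    rintro ⟨i, hi⟩
    exact hi rfl
  rw [Polynomial.aeval_eq_sum_range' (show P.natDegree < 2 * n + 1 by omega)]
  unfold ev
  rw [← Fin.sum_univ_eq_sum_range (fun i => P.coeff i • z ^ i) (2 * n + 1)]
  symm
  refine Finset.sum_of_injOn (fun b : Fin (2 * n + 1) =>
    (⟨(b, fun _ => ⟨0, hℓ⟩), by
      have := b.2
      simp only [hdg0]
      omega⟩ : Idx m ℓ n)) ?_ ?_ ?_ ?_
  · intro a _ b _ hab
    have h1 := congrArg (fun u : Idx m ℓ n => u.1.1) hab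
    exact h1
  · intro b _
    simp
  · intro u _ hu
    have hunz : nz u.1.2 := by
      by_contra hcon
      apply hu
      refine ⟨u.1.1, by simp, ?_⟩
      apply Subtype.ext
      apply Prod.ext
      · rfl
      · funext i
        unfold nz at hcon
        push Not at hcon
        apply Fin.ext
        exact (hcon i).symm
    unfold cst
    rw [if_pos hunz, map_zero, zero_mul]
  · intro b _
    unfold cst mon
    simp only
    rw [if_neg hnz0]
    simp [Algebra.smul_def]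

/-- `S → S'` a ring homomorphism over `f : R → R'`. -/
theorem ev_map {R R' S S' : Type} [CommRing R] [CommRing R'] [CommRing S] [CommRing S']
    [Algebra R S] [Algebra R' S'] (f : R →+* R') (g : S →+* S')
    (hfg : ∀ r, g (algebraMap R S r) = algebraMap R' S' (f r)) {m ℓ n : ℕ}
    (F : Idx m ℓ n → R) (z : S) (W : Fin m → S) :
    g (ev F z W) = ev (fun u => f (F u)) (g z) (fun i => g (W i)) := by
  unfold ev mon
  rw [map_sum]
  refine Finset.sum_congr rfl fun u _ => ?_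
  rw [map_mul, hfg, map_mul, map_pow, map_prod]
  simp only [map_pow]

theorem tw_map {R R' S S' : Type} [CommRing R] [CommRing R'] [CommRing S] [CommRing S']
    [Algebra R S] [Algebra R' S'] (f : R →+* R') (g : S →+* S')
    (hfg : ∀ r, g (algebraMap R S r) = algebraMap R' S' (f r)) {m ℓ : ℕ}
    (ζ : R) (e : Ex m ℓ) (W : Fin m → S) :
    (fun i => g (tw ζ e W i)) = tw (f ζ) e (fun i => g (W i)) := by
  funext i
  unfold tw
  rw [map_mul, hfg, map_pow]

theorem tw_sr {R : Type} [CommRing R] {m ℓ : ℕ} (hℓ : IsUnit (ℓ : R)) {ζ : R}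
    (hζ : IsPrimitiveRoot ζ ℓ) (β : Fin m → R) {s : R} {ω : Fin m → R}
    (hω : ∀ i, IsUnit (ω i)) (h : ∀ i, ω i ^ ℓ = s ^ ℓ - β i) (g : Ex m ℓ) :
    tw ζ g (sr ℓ β s ω) = sr ℓ β s (tw ζ g ω) := by
  funext i
  unfold tw sr
  have h1 := ser_tw hℓ (hω i) (h i) (ξ := ζ ^ (g i : ℕ)) (by
    rw [← pow_mul, mul_comm, pow_mul, hζ.pow_eq_one, one_pow])
  have h2 : (fun i => (algebraMap R R) (ζ ^ (g i : ℕ)) * ω i) i = ζ ^ (g i : ℕ) * ω i := rfl
  rw [h2, h1, PowerSeries.C_eq_algebraMap]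

/-- Reduction modulo an ideal. -/
theorem red {R : Type} [CommRing R] (M : Ideal R) {m ℓ n : ℕ} (hℓ : IsUnit (ℓ : R)) (ζ : R)
    (β : Fin m → R) {s : R} {ω : Fin m → R} (hω : ∀ i, IsUnit (ω i))
    (h : ∀ i, ω i ^ ℓ = s ^ ℓ - β i) (F : Idx m ℓ n → R) (g : Ex m ℓ) :
    PowerSeries.map (Ideal.Quotient.mk M)
        (ev F (C s + X : PowerSeries R) (tw ζ g (sr ℓ β s ω))) =
      ev (fun u => Ideal.Quotient.mk M (F u)) (C (Ideal.Quotient.mk M s) + X : PowerSeries (R ⧸ M))
        (tw (Ideal.Quotient.mk M ζ) g (sr ℓ (fun i => Ideal.Quotient.mk M (β i))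
          (Ideal.Quotient.mk M s) (fun i => Ideal.Quotient.mk M (ω i)))) := by
  have hfg : ∀ r : R, PowerSeries.map (Ideal.Quotient.mk M) (algebraMap R (PowerSeries R) r) =
      algebraMap (R ⧸ M) (PowerSeries (R ⧸ M)) (Ideal.Quotient.mk M r) := by
    intro r
    rw [← PowerSeries.C_eq_algebraMap, ← PowerSeries.C_eq_algebraMap]
    exact PowerSeries.map_C _ _
  rw [ev_map (Ideal.Quotient.mk M) (PowerSeries.map (Ideal.Quotient.mk M)) hfg,
    tw_map (Ideal.Quotient.mk M) (PowerSeries.map (Ideal.Quotient.mk M)) hfg]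
  congr 1
  · rw [map_add, PowerSeries.map_C, PowerSeries.map_X]
  · congr 1
    funext i
    unfold sr
    exact ser_map (Ideal.Quotient.mk M) hℓ (hω i) (h i)

end Pool.Agent.Work.MP_ae9a8c_lc
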