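import Mathlib

/-!
MODULE Crt (Mathlib only).  Interpolation of two `n`-jets by a polynomial of degree `≤ 2n - d`.

PROOF.  `δ = s₁ - s₀ ≠ 0`, so `C δ + X` is a unit of the power series ring.  Let
`f₂ = (trunc n u₀).comp (X - C s₀)` (degree `< n` if `n > 0`),
`k = ((C δ + X)^n)⁻¹ * (u₁ - aeval (C s₁ + X) f₂)`, `r j = - coeff (n-1-j) k`.
Given `h`, `d` as in the statement let `g° = trunc n (h + k)` and `g = g°.comp (X - C s₁)` and
`f = (X - C s₀)^n * g + f₂`.
* At `s₀ + X`: `(C s₀ + X - C s₀)^n = X^n`, and `aeval (C s₀ + X) f₂ = trunc n u₀ ≡ u₀`.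
* At `s₁ + X`: `aeval f = (C δ + X)^n * trunc n (h + k) + aeval (C s₁ + X) f₂`
  `≡ (C δ + X)^n h + (u₁ - aeval f₂) + aeval f₂ (mod X^n)`.
* Degree: `trunc n (h+k)` has degree `≤ n - 1`, and its coefficients `n-1-j`, `j + 2 ≤ d`, vanish by
  the choice of `r`; so its degree is `≤ n - d` (for `d ≥ 1`; trivial for `d = 0`), and
  `natDegree f ≤ max (n + (n - d)) (n - 1) ≤ 2n - d` as `d ≤ n`.
-/

set_option autoImplicit false

namespace Pool.Agent.Work.MP_ae9a8c_lc

open PowerSeries

private theorem crt_coe {R : Type} [CommRing R] (q : Polynomial R) (s : R) :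
    Polynomial.aeval (C s + X : PowerSeries R) (q.comp (Polynomial.X - Polynomial.C s)) =
      (q : PowerSeries R) := by
  induction q using Polynomial.induction_on' with
  | add p q hp hq => rw [Polynomial.add_comp, Polynomial.coe_add, ← hp, ← hq, map_add]
  | monomial n a =>
    have h1 : Polynomial.aeval (C s + X : PowerSeries R) (Polynomial.X - Polynomial.C s) = X := by
      rw [map_sub, Polynomial.aeval_X, Polynomial.aeval_C, PowerSeries.algebraMap_apply,
        Algebra.algebraMap_self, RingHom.id_apply, add_sub_cancel_left]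
    rw [← Polynomial.C_mul_X_pow_eq_monomial, Polynomial.mul_comp, Polynomial.C_comp,
      Polynomial.pow_comp, Polynomial.X_comp, map_mul, map_pow, h1, Polynomial.aeval_C,
      PowerSeries.algebraMap_apply, Algebra.algebraMap_self, RingHom.id_apply,
      Polynomial.coe_mul, Polynomial.coe_C, Polynomial.coe_pow, Polynomial.coe_X]

private theorem crt_trunc {R : Type} [CommRing R] (u : PowerSeries R) (n : ℕ) :
    (X : PowerSeries R) ^ n ∣ ((trunc n u : Polynomial R) : PowerSeries R) - u := by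
  rw [PowerSeries.X_pow_dvd_iff]
  intro i hi
  rw [map_sub, Polynomial.coeff_coe, coeff_trunc, if_pos hi, sub_self]

theorem crt {κ : Type} [Field κ] (s₀ s₁ : κ) (hs : s₀ ≠ s₁) (n : ℕ) (u₀ u₁ : PowerSeries κ) :
    ∃ r : ℕ → κ, ∀ (h : PowerSeries κ) (d : ℕ), d ≤ n →
      (∀ j : ℕ, j + 2 ≤ d → coeff (n - 1 - j) h = r j) →
      ∃ f : Polynomial κ, f.natDegree ≤ 2 * n - d ∧
        (X : PowerSeries κ) ^ n ∣ Polynomial.aeval (C s₀ + X : PowerSeries κ) f - u₀ ∧
        (X : PowerSeries κ) ^ n ∣ Polynomial.aeval (C s₁ + X : PowerSeries κ) f -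
          (u₁ + (C (s₁ - s₀) + X) ^ n * h) := by
  set f₂ : Polynomial κ := (trunc n u₀).comp (Polynomial.X - Polynomial.C s₀) with hf₂
  set V : PowerSeries κ := (C (s₁ - s₀) + X) ^ n with hV
  have hV0 : constantCoeff V ≠ 0 := by
    rw [hV, map_pow, map_add, constantCoeff_C, constantCoeff_X, add_zero]
    exact pow_ne_zero _ (sub_ne_zero.mpr hs.symm)
  set k : PowerSeries κ := V⁻¹ * (u₁ - Polynomial.aeval (C s₁ + X : PowerSeries κ) f₂) with hk
  have hVk : V * k = u₁ - Polynomial.aeval (C s₁ + X : PowerSeries κ) f₂ := by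
    rw [hk, ← mul_assoc, PowerSeries.mul_inv_cancel V hV0, one_mul]
  refine ⟨fun j => -coeff (n - 1 - j) k, fun h d hd hr => ?_⟩
  set g₀ : Polynomial κ := trunc n (h + k) with hg₀
  refine ⟨(Polynomial.X - Polynomial.C s₀) ^ n * g₀.comp (Polynomial.X - Polynomial.C s₁) + f₂,
    ?_, ?_, ?_⟩
  · have hg : g₀.natDegree ≤ n - d := by
      rw [Polynomial.natDegree_le_iff_coeff_eq_zero]
      intro i hi
      rw [hg₀, coeff_trunc]
      split_ifs with hin
      · have h1 := hr (n - 1 - i) (by omega)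
        have h2 : n - 1 - (n - 1 - i) = i := by omega
        simp only [h2] at h1
        rw [map_add, h1, neg_add_cancel]
      · rfl
    have hf₂d : f₂.natDegree ≤ n := by
      rw [hf₂, Polynomial.natDegree_comp, Polynomial.natDegree_X_sub_C, mul_one]
      rw [Polynomial.natDegree_le_iff_coeff_eq_zero]
      intro i hi
      rw [coeff_trunc, if_neg (by omega)]
    refine (Polynomial.natDegree_add_le _ _).trans (max_le ?_ (hf₂d.trans (by omega)))
    refine Polynomial.natDegree_mul_le.trans ?_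
    rw [Polynomial.natDegree_pow, Polynomial.natDegree_X_sub_C, mul_one, Polynomial.natDegree_comp,
      Polynomial.natDegree_X_sub_C, mul_one]
    omega
  · rw [map_add, hf₂, crt_coe, map_mul, map_pow, map_sub, Polynomial.aeval_X, Polynomial.aeval_C,
      PowerSeries.algebraMap_apply, Algebra.algebraMap_self, RingHom.id_apply, add_sub_cancel_left,
      add_sub_assoc]
    exact dvd_add (dvd_mul_right _ _) (crt_trunc u₀ n)
  · rw [map_add, map_mul, crt_coe, map_pow, map_sub, Polynomial.aeval_X, Polynomial.aeval_C,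
      PowerSeries.algebraMap_apply, Algebra.algebraMap_self, RingHom.id_apply]
    have e1 : (C s₁ + X - C s₀ : PowerSeries κ) = C (s₁ - s₀) + X := by
      rw [map_sub]
      ring
    rw [e1, ← hV]
    have e2 : V * (g₀ : PowerSeries κ) + Polynomial.aeval (C s₁ + X : PowerSeries κ) f₂ -
        (u₁ + V * h) = V * ((g₀ : PowerSeries κ) - (h + k)) := by
      have : u₁ = V * k + Polynomial.aeval (C s₁ + X : PowerSeries κ) f₂ := by
        rw [hVk]
        ring
      rw [this]
      ring
    rw [e2]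
    exact (crt_trunc (h + k) n).mul_left V

end Pool.Agent.Work.MP_ae9a8c_lc
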