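import Pool.Agent.Work.MP_ae9a8c_lc.Defs

/-!
MODULE CtxR.  The integral closure `R` of `O` in `L` satisfies `Ctx`.

PROOF.  * `prim`: `ζ ∈ L` is integral over `O` (root of `X^ℓ - 1`), so `ζ ∈ R`.
* `nat`: the residue field of `O` has characteristic 0, so `(n : O)` is not in the maximal ideal for
  `n ≠ 0`, hence a unit of `O`, hence of `R`.
* `root`: `G ∈ R[X]` monic of degree prime to `p`; its image in `L[X]` is monic of the same degree and has
  a root `b ∈ L`; `b` is integral over `R`, hence over `O` (`isIntegral_trans`), so `b ∈ R`.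
* `fin`: the group `L ≃ₐ[K] L` is finite, acts on `R`, and the fixed elements are the image of `O`
  (`Algebra.isInvariant_of_isGalois`, or: an element of `R` fixed by all is in `K` and integral over
  `O`, `O` is integrally closed in `K`); so it acts transitively on the prime ideals over `𝔪`
  (`Algebra.IsInvariant.exists_smul_of_under_eq`), and every maximal ideal of `R` lies over `𝔪`
  (`Ideal.isMaximal_comap_of_isIntegral_of_isMaximal`, `IsLocalRing.eq_maximalIdeal`): the maximal ideals are
  the finitely many `τ M`.
-/

set_option autoImplicit false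

namespace Pool.Agent.Work.MP_ae9a8c_lc

open scoped Pointwise

private theorem CtxR_fin {K L : Type} [Field K] (O : ValuationSubring K) [Field L] [Algebra K L]
    [FiniteDimensional K L] [IsGalois K L] :
    {M : Ideal (integralClosure O L) | M.IsMaximal}.Finite := by
  haveI : IsFractionRing (integralClosure O L) L :=
    integralClosure.isFractionRing_of_finite_extension K L
  haveI : Algebra.IsInvariant O (integralClosure O L)
      ((integralClosure O L) ≃ₐ[O] (integralClosure O L)) :=
    Algebra.isInvariant_of_isGalois' O K L (integralClosure O L)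
  haveI : Finite ((integralClosure O L) ≃ₐ[O] (integralClosure O L)) :=
    Finite.of_equiv _ (galRestrict O K L (integralClosure O L)).toEquiv
  rcases Set.eq_empty_or_nonempty {M : Ideal (integralClosure O L) | M.IsMaximal} with he | ⟨P, hP⟩
  · rw [he]
    exact Set.finite_empty
  have hP' : P.IsMaximal := hP
  haveI := hP'.isPrime
  refine (Set.finite_range (fun g : (integralClosure O L) ≃ₐ[O] (integralClosure O L) =>
    g • P)).subset ?_
  intro Q hQ
  have hQ' : Q.IsMaximal := hQ
  haveI := hQ'.isPrime
  have h1 : Ideal.under O P = Ideal.under O Q := by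
    have e1 : Ideal.under O P = IsLocalRing.maximalIdeal O :=
      IsLocalRing.eq_maximalIdeal (Ideal.isMaximal_comap_of_isIntegral_of_isMaximal P)
    have e2 : Ideal.under O Q = IsLocalRing.maximalIdeal O :=
      IsLocalRing.eq_maximalIdeal (Ideal.isMaximal_comap_of_isIntegral_of_isMaximal Q)
    rw [e1, e2]
  obtain ⟨g, hg⟩ := Algebra.IsInvariant.exists_smul_of_under_eq O (integralClosure O L)
    ((integralClosure O L) ≃ₐ[O] (integralClosure O L)) P Q h1
  exact ⟨g, hg.symm⟩

theorem ctx_R {K L : Type} [Field K] (O : ValuationSubring K) [Field L] [Algebra K L]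
    [FiniteDimensional K L] [IsGalois K L] (hO : CharZero (IsLocalRing.ResidueField O))
    {p ℓ : ℕ} (hp : p.Prime) (hℓ : ℓ.Prime) (hne : ℓ ≠ p) (ζ : L) (hζ : IsPrimitiveRoot ζ ℓ)
    (hr : ∀ G : Polynomial L, G.Monic → ¬ p ∣ G.natDegree → ∃ b, G.IsRoot b) :
    ∃ ζ' : integralClosure O L, (ζ' : L) = ζ ∧ Ctx (integralClosure O L) p ℓ ζ' := by
  have hint : IsIntegral O ζ := by
    refine IsIntegral.of_pow hℓ.pos ?_
    rw [hζ.pow_eq_one]
    exact isIntegral_one
  refine ⟨⟨ζ, hint⟩, rfl, ?_⟩
  refine
    { pp := hp
      lp := hℓ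
      ne := hne
      prim := ?_
      nat := ?_
      root := ?_
      fin := CtxR_fin O }
  · exact IsPrimitiveRoot.of_map_of_injective (f := algebraMap (integralClosure O L) L) hζ
      Subtype.val_injective
  · intro n hn
    have h1 : IsUnit (n : O) := by
      by_contra h
      have h2 : (n : O) ∈ IsLocalRing.maximalIdeal O := (IsLocalRing.mem_maximalIdeal _).2 h
      have h3 : IsLocalRing.residue O (n : O) = 0 := (IsLocalRing.residue_eq_zero_iff _).2 h2
      rw [map_natCast] at h3
      exact hn (Nat.cast_eq_zero.1 h3)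
    have h2 := h1.map (algebraMap O (integralClosure O L))
    rwa [map_natCast] at h2
  · intro G hG hd
    obtain ⟨b, hb⟩ := hr (G.map (algebraMap (integralClosure O L) L)) (hG.map _)
      (by rwa [hG.natDegree_map])
    have h1 : IsIntegral (integralClosure O L) b := by
      refine ⟨G, hG, ?_⟩
      rwa [Polynomial.IsRoot.def, Polynomial.eval_map] at hb
    have h2 : IsIntegral O b := isIntegral_trans b h1
    refine ⟨⟨b, h2⟩, ?_⟩
    rw [Polynomial.IsRoot.def]
    apply Subtype.val_injective
    rw [Polynomial.IsRoot.def, Polynomial.eval_map] at hb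
    have h3 := Polynomial.hom_eval₂ G (RingHom.id _) (algebraMap (integralClosure O L) L) ⟨b, h2⟩
    rw [RingHom.comp_id, Polynomial.eval₂_id] at h3
    exact h3.trans hb

end Pool.Agent.Work.MP_ae9a8c_lc
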