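import Mathlib

/-!
Definitions for: an NIP valued field of residue characteristic 0 whose absolute Galois group is
virtually pro-p is henselian.

Core: `R` is a domain with finitely many maximal ideals (at least two), all positive integers are
units in `R`, `ζ` is a primitive `ℓ`-th root of unity, and every monic polynomial of degree prime to
`p` has a root in `R` (`p ≠ ℓ`).  Curve: `W i ^ ℓ = z ^ ℓ - β i`, `i : Fin m`.
-/

set_option autoImplicit false

namespace Pool.Agent.Work.MP_ae9a8c_lc

open PowerSeries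

noncomputable section

/-- The power series `(s + t)^ℓ - b`. -/
def base {R : Type} [CommRing R] (ℓ : ℕ) (s b : R) : PowerSeries R :=
  (C s + X) ^ ℓ - C b

open Classical in
/-- The power series `w` with `w^ℓ = (s + t)^ℓ - b` and `w(0) = ω` (0 if there is none). -/
def ser {R : Type} [CommRing R] (ℓ : ℕ) (s b ω : R) : PowerSeries R :=
  if h : ∃ w : PowerSeries R, w ^ ℓ = base ℓ s b ∧ constantCoeff w = ω then h.choose else 0

/-- Exponents of `W₁, ..., W_m`, and also names of the sheets (`g` means `W i ↦ ζ ^ (g i) * W i`). -/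
abbrev Ex (m ℓ : ℕ) := Fin m → Fin ℓ

/-- Total degree. -/
def dg {m ℓ : ℕ} (a : Ex m ℓ) : ℕ := ∑ i, (a i : ℕ)

/-- Not the trivial sheet. -/
def nz {m ℓ : ℕ} (g : Ex m ℓ) : Prop := ∃ i, (g i : ℕ) ≠ 0

/-- The monomials `z^b W^a` of total degree at most `2n`. -/
abbrev Idx (m ℓ n : ℕ) := {u : Fin (2 * n + 1) × Ex m ℓ // (u.1 : ℕ) + dg u.2 ≤ 2 * n}

/-- The monomial `z^b W^a`. -/
def mon {S : Type} [CommRing S] {m ℓ : ℕ} (z : S) (W : Fin m → S) (b : ℕ) (a : Ex m ℓ) : S :=
  z ^ b * ∏ i, W i ^ (a i : ℕ)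

/-- Value at `(z, W)` of the polynomial with coefficients `F`. -/
def ev {R S : Type} [CommRing R] [CommRing S] [Algebra R S] {m ℓ n : ℕ} (F : Idx m ℓ n → R)
    (z : S) (W : Fin m → S) : S :=
  ∑ u : Idx m ℓ n, algebraMap R S (F u) * mon z W (u.1.1 : ℕ) u.1.2

/-- The point on the sheet `g`. -/
def tw {R S : Type} [CommRing R] [CommRing S] [Algebra R S] {m ℓ : ℕ} (ζ : R) (g : Ex m ℓ)
    (W : Fin m → S) : Fin m → S :=
  fun i => algebraMap R S (ζ ^ (g i : ℕ)) * W i

open Classical in
/-- The coefficients of a polynomial in `z` alone. -/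
def cst {R : Type} [CommRing R] {m ℓ n : ℕ} (P : Polynomial R) : Idx m ℓ n → R :=
  fun u => if nz u.1.2 then 0 else P.coeff (u.1.1 : ℕ)

/-- The root series at the point `(s; ω)` of the curve. -/
def sr {R : Type} [CommRing R] {m : ℕ} (ℓ : ℕ) (β : Fin m → R) (s : R) (ω : Fin m → R) :
    Fin m → PowerSeries R :=
  fun i => ser ℓ s (β i) (ω i)

/-- The properties of the ring `R`. -/
structure Ctx (R : Type) [CommRing R] (p ℓ : ℕ) (ζ : R) : Prop where
  pp : p.Prime
  lp : ℓ.Prime
  ne : ℓ ≠ p
  prim : IsPrimitiveRoot ζ ℓ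
  nat : ∀ n : ℕ, n ≠ 0 → IsUnit (n : R)
  root : ∀ G : Polynomial R, G.Monic → ¬ p ∣ G.natDegree → ∃ b, G.IsRoot b
  fin : {M : Ideal R | M.IsMaximal}.Finite

/-- The absolute Galois group is virtually pro-p: some finite extension `F` of `K` is such that every
finite extension of `F` (in the algebraic closure of `K`) has degree a power of `p` over `F`. -/
def VirtProP (K : Type) [Field K] (p : ℕ) : Prop :=
  ∃ F : IntermediateField K (AlgebraicClosure K), FiniteDimensional K F ∧
    ∀ E : IntermediateField K (AlgebraicClosure K), F ≤ E → FiniteDimensional K E →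
      ∃ n : ℕ, Module.finrank K E = Module.finrank K F * p ^ n

end

end Pool.Agent.Work.MP_ae9a8c_lc
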