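import Pool.Agent.Work.MP_ae9a8c_lc.MTDefs

/-!
MODULE DfnPoly (model theory).  Closure properties of definable sets, polynomial conditions, `𝔪`.

PROOF.  `dfn_inter ... dfn_pre`: the corresponding lemmas of Mathlib (`Set.Definable.inter`,
`.compl`, `Set.Definable.exists_of_finite`, `Set.Definable.preimage_comp`,
`Set.definable_iInter_of_finite`), with `letI := st O`.
`dfn_graph` (the graph of a polynomial function is definable): by induction on `P`
(`MvPolynomial.induction_on`): the set `{v : α ⊕ Unit → K | v (inr ()) = eval (v ∘ inl) P}` is definable.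
Constants: `v (inr ()) = c` is `v (inr ()) = parameter`; use the constant `L.con ⟨c, trivial⟩` and
`Term.equal`.  Sums: `∃ u₁ u₂, u₁ = P(v) ∧ u₂ = Q(v) ∧ u₁ + u₂ = y`; the relation
`{v : Fin 3 → K | v 0 + v 1 = v 2}` is `Relations.formula` for the symbol
`(0, 1, 2, 0) : Fin 3 × Fin 3 × Fin 3 × Fin 3`; products with a variable: the symbol `(0, 1, 2, 1)`.
`dfn_zero`: `∃ y, y = P(v) ∧ y = 0`.
`dfn_O`: `{v : Fin 1 → K | v 0 ∈ O}` is given by the symbol `(0, 0, 0, 2) : Fin 1 × Fin 1 × Fin 1 × Fin 3`.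
`dfn_m`: `x ∈ 𝔪 ↔ x ∈ O ∧ ¬ ∃ y, y ∈ O ∧ x * y = 1` (an element of the local ring `O` is in the maximal
ideal iff it is not a unit).
-/

set_option autoImplicit false

namespace Pool.Agent.Work.MP_ae9a8c_lc

variable {K : Type} [Field K] (O : ValuationSubring K)

theorem dfn_inter {α : Type} {s t : Set (α → K)} (hs : Dfn O s) (ht : Dfn O t) :
    Dfn O (s ∩ t) := by
  letI := st O
  exact Set.Definable.inter hs ht

theorem dfn_compl {α : Type} {s : Set (α → K)} (hs : Dfn O s) : Dfn O sᶜ := by
  letI := st O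
  exact Set.Definable.compl hs

theorem dfn_all {α ι : Type} [Finite ι] {s : ι → Set (α → K)} (hs : ∀ i, Dfn O (s i)) :
    Dfn O {v | ∀ i, v ∈ s i} := by
  letI := st O
  have h := Set.definable_iInter_of_finite (L := Lg) (A := (Set.univ : Set K)) hs
  have e : (⋂ i, s i) = {v | ∀ i, v ∈ s i} := by
    ext v
    simp
  rw [e] at h
  exact h

theorem dfn_ex {α β : Type} [Finite β] {s : Set (α ⊕ β → K)} (hs : Dfn O s) :
    Dfn O {v : α → K | ∃ u : β → K, Sum.elim v u ∈ s} := by
  letI := st O
  exact Set.Definable.exists_of_finite hs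

theorem dfn_pre {α β : Type} (f : α → β) {s : Set (α → K)} (hs : Dfn O s) :
    Dfn O {v : β → K | v ∘ f ∈ s} := by
  letI := st O
  exact Set.Definable.preimage_comp f hs

private theorem dfnPoly_rel {n : ℕ} (r : Fin n × Fin n × Fin n × Fin 3) :
    Dfn O {v : Fin n → K | (if r.2.2.2 = 0 then v r.1 + v r.2.1 = v r.2.2.1
      else if r.2.2.2 = 1 then v r.1 * v r.2.1 = v r.2.2.1
      else v r.1 ∈ O)} := by
  letI := st O
  refine Set.Definable.mono (A := (∅ : Set K)) ?_ (Set.empty_subset _)
  rw [Set.empty_definable_iff]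
  refine ⟨FirstOrder.Language.Relations.formula (L := Lg) (n := n) r
    (fun i => FirstOrder.Language.Term.var i), ?_⟩
  ext v
  rw [Set.mem_setOf_eq, Set.mem_setOf_eq, FirstOrder.Language.Formula.realize_rel]
  rfl

private theorem dfnPoly_add : @Set.DefinableFun K Lg (st O) (Fin 2) Set.univ
    (fun v => v 0 + v 1) := by
  letI := st O
  have h := dfnPoly_rel O (n := 3) (0, 1, 2, 0)
  have h2 := dfn_pre O (fun i : Fin 3 => if i = 0 then some 0 else if i = 1 then some 1 else none :
    Fin 3 → Option (Fin 2)) h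
  exact h2

private theorem dfnPoly_mul : @Set.DefinableFun K Lg (st O) (Fin 2) Set.univ
    (fun v => v 0 * v 1) := by
  letI := st O
  have h := dfnPoly_rel O (n := 3) (0, 1, 2, 1)
  have h2 := dfn_pre O (fun i : Fin 3 => if i = 0 then some 0 else if i = 1 then some 1 else none :
    Fin 3 → Option (Fin 2)) h
  exact h2

private theorem dfnPoly_graph {α : Type} (P : MvPolynomial α K) :
    @Set.DefinableFun K Lg (st O) α Set.univ (fun v => MvPolynomial.eval v P) := by
  letI := st O
  induction P using MvPolynomial.induction_on with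
  | C a =>
    have h := Lg.definableFun_const (A := (Set.univ : Set K)) (a := a) α (Set.mem_univ a)
    simpa only [MvPolynomial.eval_C] using h
  | add P Q hP hQ =>
    have hG : (Set.univ : Set K).DefinableMap Lg
        (fun v : α → K => ![MvPolynomial.eval v P, MvPolynomial.eval v Q]) := by
      intro i
      fin_cases i
      · exact hP
      · exact hQ
    have h := Set.DefinableFun.comp hG (dfnPoly_add O)
    simpa only [MvPolynomial.eval_add, Matrix.cons_val_zero, Matrix.cons_val_one] using h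
  | mul_X P i hP =>
    have hG : (Set.univ : Set K).DefinableMap Lg
        (fun v : α → K => ![MvPolynomial.eval v P, v i]) := by
      intro j
      fin_cases j
      · exact hP
      · exact Set.DefinableFun.proj Lg
    have h := Set.DefinableFun.comp hG (dfnPoly_mul O)
    simpa only [MvPolynomial.eval_mul, MvPolynomial.eval_X, Matrix.cons_val_zero,
      Matrix.cons_val_one] using h

theorem dfn_zero {α : Type} [Finite α] (P : MvPolynomial α K) :
    Dfn O {v : α → K | MvPolynomial.eval v P = 0} := by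
  letI := st O
  exact (dfnPoly_graph O P).ofPred_eq_const (Set.mem_univ 0)

private theorem dfnPoly_O {α : Type} (i : α) : Dfn O {v : α → K | v i ∈ O} := by
  have h := dfnPoly_rel O (n := 1) (0, 0, 0, 2)
  exact dfn_pre O (fun _ : Fin 1 => i) h

theorem dfn_m {α : Type} (i : α) :
    Dfn O {v : α → K | ∃ h : v i ∈ O, (⟨v i, h⟩ : O) ∈ IsLocalRing.maximalIdeal O} := by
  have h1 : Dfn O {v : Fin 1 → K | ∃ u : Fin 1 → K, Sum.elim v u ∈
      ({w : Fin 1 ⊕ Fin 1 → K | w (Sum.inr 0) ∈ O} ∩
        {w | MvPolynomial.eval w (MvPolynomial.X (Sum.inl 0) * MvPolynomial.X (Sum.inr 0) - 1) = 0})} :=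
    dfn_ex O (dfn_inter O (dfnPoly_O O _) (dfn_zero O _))
  have h2 := dfn_inter O (dfnPoly_O O (0 : Fin 1)) (dfn_compl O h1)
  have h3 := dfn_pre O (fun _ : Fin 1 => i) h2
  have e : {v : α → K | ∃ h : v i ∈ O, (⟨v i, h⟩ : O) ∈ IsLocalRing.maximalIdeal O} =
      {v : α → K | v ∘ (fun _ : Fin 1 => i) ∈ ({v : Fin 1 → K | v 0 ∈ O} ∩
        {v : Fin 1 → K | ∃ u : Fin 1 → K, Sum.elim v u ∈
          ({w : Fin 1 ⊕ Fin 1 → K | w (Sum.inr 0) ∈ O} ∩
        {w | MvPolynomial.eval w (MvPolynomial.X (Sum.inl 0) * MvPolynomial.X (Sum.inr 0) - 1) = 0})}ᶜ)}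
        := by
    ext v
    simp only [Set.mem_setOf_eq, Set.mem_inter_iff, Function.comp_apply, Set.mem_compl_iff,
      Sum.elim_inr, Sum.elim_inl, map_sub, map_mul, MvPolynomial.eval_X, map_one, not_exists]
    constructor
    · rintro ⟨h, hm⟩
      refine ⟨h, fun u hu => ?_⟩
      rw [IsLocalRing.mem_maximalIdeal, mem_nonunits_iff] at hm
      apply hm
      refine IsUnit.of_mul_eq_one (⟨u 0, hu.1⟩ : O) ?_
      apply Subtype.ext
      exact sub_eq_zero.1 hu.2
    · rintro ⟨h, hm⟩
      refine ⟨h, ?_⟩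
      rw [IsLocalRing.mem_maximalIdeal, mem_nonunits_iff]
      intro hu
      obtain ⟨y, hy⟩ := isUnit_iff_exists_inv.1 hu
      refine hm (fun _ => y) ⟨y.2, ?_⟩
      have h4 := congrArg Subtype.val hy
      exact sub_eq_zero.2 h4
  rw [e]
  exact h3

end Pool.Agent.Work.MP_ae9a8c_lc
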