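import Pool.Agent.Work.MP_ae9a8c_lc.DfnPoly

/-!
MODULE DfnPsi (model theory, linear algebra).  The formula of the proof.

`e` is a basis of `L` over `K`, `vec e x = Σ x_j e_j`.

PROOF.  * `dfn_L`: polynomial equations with values in `L`.  For `Q ∈ MvPolynomial (β × Fin d) L` let
`Q_k ∈ MvPolynomial (β × Fin d) K` be obtained by applying the `k`-th coordinate function `e.coord k` to
the coefficients; then `eval v Q_k = e.coord k (aeval v Q)` for `v` with values in `K`
(`Q.sum`/`MvPolynomial.induction_on`, linearity), and `aeval v Q = 0` iff all its coordinates are `0`.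
Use `dfn_zero`, `dfn_all`.
* `dfn_psi`: the set is
`{v | ∃ u : (Fin d ⊕ Fin d) → K, [z^ℓ - x - c^ℓ = 0] ∧ [(z-c)^d + Σ t_j (z-c)^j = 0] ∧ ∀ j, t_j ∈ 𝔪}`
where `z = vec e (u ∘ inl)`, `t = u ∘ inr`, `c = vec e (v ∘ inl)`, `x = vec e (v ∘ inr)`.  The two
bracketed conditions are polynomial equations with coefficients in `L` in the variables
`(Fin d ⊕ Fin d) ⊕ (Fin d ⊕ Fin d)`: apply `dfn_L` to `P = (Σ_j C (e j) X_..)^ℓ - ...`.
Use `dfn_ex`, `dfn_inter`, `dfn_all`, `dfn_m`.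
-/

set_option autoImplicit false

namespace Pool.Agent.Work.MP_ae9a8c_lc

variable {K : Type} [Field K] (O : ValuationSubring K)

theorem dfn_L {L : Type} [Field L] [Algebra K L] {d : ℕ} (e : Module.Basis (Fin d) K L)
    {α : Type} [Finite α] (Q : MvPolynomial α L) :
    Dfn O {v : α → K | MvPolynomial.aeval (fun i => algebraMap K L (v i)) Q = 0} := by
  have h1 : ∀ (k : Fin d) (v : α → K),
      MvPolynomial.eval v (∑ m ∈ Q.support, MvPolynomial.monomial m (e.coord k (Q.coeff m))) =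
        e.coord k (MvPolynomial.aeval (fun i => algebraMap K L (v i)) Q) := by
    intro k v
    rw [map_sum, MvPolynomial.aeval_def, MvPolynomial.eval₂_eq, map_sum]
    refine Finset.sum_congr rfl fun m _ => ?_
    have h2 : algebraMap L L (Q.coeff m) * ∏ i ∈ m.support, algebraMap K L (v i) ^ m i =
        (∏ i ∈ m.support, v i ^ m i) • Q.coeff m := by
      rw [Algebra.smul_def, map_prod]
      simp only [map_pow, Algebra.algebraMap_self, RingHom.id_apply]
      ring
    rw [h2, map_smul, MvPolynomial.eval_monomial, smul_eq_mul, mul_comm]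
    rfl
  have h3 := dfn_all O (ι := Fin d) (s := fun k => {v : α → K | MvPolynomial.eval v
    (∑ m ∈ Q.support, MvPolynomial.monomial m (e.coord k (Q.coeff m))) = 0})
    (fun k => dfn_zero O _)
  have e1 : {v : α → K | MvPolynomial.aeval (fun i => algebraMap K L (v i)) Q = 0} =
      {v | ∀ k : Fin d, v ∈ {v : α → K | MvPolynomial.eval v
        (∑ m ∈ Q.support, MvPolynomial.monomial m (e.coord k (Q.coeff m))) = 0}} := by
    ext v
    simp only [Set.mem_setOf_eq, h1]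
    exact (Module.Basis.forall_coord_eq_zero_iff e).symm
  rw [e1]
  exact h3

theorem dfn_psi {L : Type} [Field L] [Algebra K L] {d : ℕ} (e : Module.Basis (Fin d) K L)
    (ℓ : ℕ) :
    Dfn O {v : Fin d ⊕ Fin d → K | ∃ z : L,
      z ^ ℓ = (∑ j, v (Sum.inr j) • e j) + (∑ j, v (Sum.inl j) • e j) ^ ℓ ∧
      ∃ t : Fin d → K, (∀ j, ∃ h : t j ∈ O, (⟨t j, h⟩ : O) ∈ IsLocalRing.maximalIdeal O) ∧
        (z - ∑ j, v (Sum.inl j) • e j) ^ d +
          ∑ j, algebraMap K L (t j) * (z - ∑ j, v (Sum.inl j) • e j) ^ (j : ℕ) = 0} := by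
  let α := (Fin d ⊕ Fin d) ⊕ (Fin d ⊕ Fin d)
  let lc : (Fin d → α) → MvPolynomial α L := fun r => ∑ j, MvPolynomial.C (e j) * MvPolynomial.X (r j)
  have hlc : ∀ (r : Fin d → α) (w : α → K),
      MvPolynomial.aeval (fun i => algebraMap K L (w i)) (lc r) = ∑ j, w (r j) • e j := by
    intro r w
    simp only [lc, map_sum, map_mul, MvPolynomial.aeval_X, MvPolynomial.aeval_C,
      Algebra.algebraMap_self, RingHom.id_apply]
    exact Finset.sum_congr rfl fun j _ => by rw [Algebra.smul_def, mul_comm]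
  let Z := lc (fun j => Sum.inr (Sum.inl j))
  let C' := lc (fun j => Sum.inl (Sum.inl j))
  let X' := lc (fun j => Sum.inl (Sum.inr j))
  have h := dfn_ex O (dfn_inter O (dfn_inter O (dfn_L O e (Z ^ ℓ - (X' + C' ^ ℓ)))
    (dfn_L O e ((Z - C') ^ d + ∑ j : Fin d, MvPolynomial.X (Sum.inr (Sum.inr j)) *
      (Z - C') ^ (j : ℕ))))
    (dfn_all O (ι := Fin d) (fun j => dfn_m O (Sum.inr (Sum.inr j) : α))))
  have e1 : {v : Fin d ⊕ Fin d → K | ∃ z : L,
      z ^ ℓ = (∑ j, v (Sum.inr j) • e j) + (∑ j, v (Sum.inl j) • e j) ^ ℓ ∧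
      ∃ t : Fin d → K, (∀ j, ∃ h : t j ∈ O, (⟨t j, h⟩ : O) ∈ IsLocalRing.maximalIdeal O) ∧
        (z - ∑ j, v (Sum.inl j) • e j) ^ d +
          ∑ j, algebraMap K L (t j) * (z - ∑ j, v (Sum.inl j) • e j) ^ (j : ℕ) = 0} =
      {v | ∃ u : Fin d ⊕ Fin d → K, Sum.elim v u ∈
        ({w : α → K | MvPolynomial.aeval (fun i => algebraMap K L (w i))
            (Z ^ ℓ - (X' + C' ^ ℓ)) = 0} ∩
          {w : α → K | MvPolynomial.aeval (fun i => algebraMap K L (w i))
            ((Z - C') ^ d + ∑ j : Fin d, MvPolynomial.X (Sum.inr (Sum.inr j)) *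
              (Z - C') ^ (j : ℕ)) = 0}) ∩
          {w : α → K | ∀ j : Fin d, w ∈ {w : α → K | ∃ h : w (Sum.inr (Sum.inr j)) ∈ O,
            (⟨w (Sum.inr (Sum.inr j)), h⟩ : O) ∈ IsLocalRing.maximalIdeal O}}} := by
    ext v
    simp only [Set.mem_setOf_eq, Set.mem_inter_iff, map_sub, map_add, map_pow, map_mul, map_sum,
      Z, C', X', hlc, MvPolynomial.aeval_X, Sum.elim_inr, Sum.elim_inl]
    constructor
    · rintro ⟨z, hz, t, ht, hzt⟩
      refine ⟨Sum.elim (e.repr z) t, ⟨?_, ?_⟩, ?_⟩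
      · change (∑ j, e.repr z j • e j) ^ ℓ - ((∑ j, v (Sum.inr j) • e j) +
          (∑ j, v (Sum.inl j) • e j) ^ ℓ) = 0
        rw [e.sum_repr]
        exact sub_eq_zero.2 hz
      · change ((∑ j, e.repr z j • e j) - ∑ j, v (Sum.inl j) • e j) ^ d +
          ∑ j, algebraMap K L (t j) * ((∑ j, e.repr z j • e j) -
            ∑ j, v (Sum.inl j) • e j) ^ (j : ℕ) = 0
        rw [e.sum_repr]
        exact hzt
      · exact ht
    · rintro ⟨u, ⟨h1, h2⟩, h3⟩
      exact ⟨∑ j, u (Sum.inl j) • e j, sub_eq_zero.1 h1, fun j => u (Sum.inr j), h3, h2⟩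
  rw [e1]
  exact h

end Pool.Agent.Work.MP_ae9a8c_lc
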