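import Mathlib

/-!
MODULE DivG (Mathlib only).  The quotient `G = N / ((X-s₁)^(n(r-1)) (X-s₂)^(n(r-1)) (X-s₃)^n)`.

PROOF.  `X - C s` is prime in `R[X]` (`Polynomial.prime_X_sub_C`), and `X - C s` does not divide
`X - C s'` for `s ≠ s'`; so the three powers divide successively
(`Prime.pow_dvd_of_dvd_mul_left`), `N = A * G` with
`A = (X-s₁)^(n(r-1)) (X-s₂)^(n(r-1)) (X-s₃)^n` monic of degree `2n(r-1) + n`.  For `N ≠ 0` the degree of
`G` is `natDegree N - (2n(r-1)+n) ≤ n`; (`N ≠ 0` because its image modulo `M₁` is not zero).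
Modulo `M₁`: `s₃ ≡ s₁`, so in the domain `(R ⧸ M₁)[X]`:
`(X-s₁)^(n(r-1)+n) (X-s₂)^(n(r-1)) G ≡ ((X-s₁)(X-s₂))^(n r)`; cancel: `G ≡ (X - s₂)^n`.
Modulo `M ≠ M₁`: `s₃ ≡ s₂`, so `G ≡ (X - s₁)^n`.
So `G.coeff n ≡ 1` modulo every maximal ideal: it is a unit, and `natDegree G = n`.
-/

set_option autoImplicit false

namespace Pool.Agent.Work.MP_ae9a8c_lc

open Polynomial

private theorem divG_not_dvd {R : Type} [CommRing R] [IsDomain R] {s s' : R} (h : s ≠ s') (k : ℕ) :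
    ¬ (X - C s) ∣ (X - C s') ^ k := by
  intro hd
  rw [dvd_iff_isRoot, IsRoot.def, eval_pow, eval_sub, eval_X, eval_C] at hd
  exact pow_ne_zero k (sub_ne_zero.mpr h) hd

theorem divG {R : Type} [CommRing R] [IsDomain R] (M₁ : Ideal R) [M₁.IsMaximal] (s₁ s₂ s₃ : R)
    (h12 : s₁ ≠ s₂) (h13 : s₁ ≠ s₃) (h23 : s₂ ≠ s₃) (e1 : s₃ - s₁ ∈ M₁)
    (e2 : ∀ M : Ideal R, M.IsMaximal → M ≠ M₁ → s₃ - s₂ ∈ M)
    (n r : ℕ) (hr : 1 ≤ r) (N : R[X]) (hN : N.natDegree ≤ 2 * n * r)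
    (d1 : (X - C s₁) ^ (n * (r - 1)) ∣ N) (d2 : (X - C s₂) ^ (n * (r - 1)) ∣ N)
    (d3 : (X - C s₃) ^ n ∣ N)
    (hT : ∀ M : Ideal R, M.IsMaximal → N.map (Ideal.Quotient.mk M) =
      (((X - C s₁) * (X - C s₂)) ^ (n * r)).map (Ideal.Quotient.mk M)) :
    ∃ G : R[X], G.natDegree = n ∧ IsUnit (G.coeff n) ∧ G ∣ N ∧
      G.map (Ideal.Quotient.mk M₁) = ((X - C s₂) ^ n).map (Ideal.Quotient.mk M₁) ∧
      ∀ M : Ideal R, M.IsMaximal → M ≠ M₁ →
        G.map (Ideal.Quotient.mk M) = ((X - C s₁) ^ n).map (Ideal.Quotient.mk M) := by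
  obtain ⟨r, rfl⟩ : ∃ r', r = r' + 1 := ⟨r - 1, by omega⟩
  rw [Nat.add_sub_cancel] at d1 d2
  obtain ⟨A, rfl⟩ := d1
  have d2' := (prime_X_sub_C s₂).pow_dvd_of_dvd_mul_left (n * r) (divG_not_dvd h12.symm _) d2
  obtain ⟨B, rfl⟩ := d2'
  have d3' := (prime_X_sub_C s₃).pow_dvd_of_dvd_mul_left n (divG_not_dvd h13.symm _) d3
  have d3'' := (prime_X_sub_C s₃).pow_dvd_of_dvd_mul_left n (divG_not_dvd h23.symm _) d3'
  obtain ⟨G, rfl⟩ := d3''
  have hmon : ((X - C s₁) ^ (n * r) * ((X - C s₂) ^ (n * r) * (X - C s₃) ^ n) : R[X]).Monic :=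
    ((monic_X_sub_C s₁).pow _).mul (((monic_X_sub_C s₂).pow _).mul ((monic_X_sub_C s₃).pow _))
  have hmap : ∀ (M : Ideal R) (s : R) (k : ℕ), ((X - C s : R[X]) ^ k).map (Ideal.Quotient.mk M) =
      (X - C (Ideal.Quotient.mk M s)) ^ k := by
    intro M s k
    simp
  have hG1 : G.map (Ideal.Quotient.mk M₁) = ((X - C s₂) ^ n).map (Ideal.Quotient.mk M₁) := by
    have h1 := hT M₁ inferInstance
    have hs : Ideal.Quotient.mk M₁ s₃ = Ideal.Quotient.mk M₁ s₁ := Ideal.Quotient.eq.mpr e1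
    rw [mul_pow, Polynomial.map_mul, Polynomial.map_mul, Polynomial.map_mul, Polynomial.map_mul,
      hmap, hmap, hmap, hmap, hmap, hs] at h1
    rw [hmap]
    haveI : IsDomain (R ⧸ M₁) := Ideal.Quotient.isDomain M₁
    have hne : ∀ (t : R ⧸ M₁) (k : ℕ), (X - C t : (R ⧸ M₁)[X]) ^ k ≠ 0 := fun t k =>
      pow_ne_zero _ (X_sub_C_ne_zero t)
    refine mul_left_cancel₀ (mul_ne_zero (hne (Ideal.Quotient.mk M₁ s₁) (n * (r + 1)))
      (hne (Ideal.Quotient.mk M₁ s₂) (n * r))) ?_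
    have e3 : n * (r + 1) = n * r + n := by ring
    rw [e3] at h1 ⊢
    rw [pow_add, pow_add] at h1
    rw [pow_add]
    linear_combination h1
  have hG2 : ∀ M : Ideal R, M.IsMaximal → M ≠ M₁ →
        G.map (Ideal.Quotient.mk M) = ((X - C s₁) ^ n).map (Ideal.Quotient.mk M) := by
    intro M hM hMM
    have h1 := hT M hM
    have hs : Ideal.Quotient.mk M s₃ = Ideal.Quotient.mk M s₂ :=
      Ideal.Quotient.eq.mpr (e2 M hM hMM)
    rw [mul_pow, Polynomial.map_mul, Polynomial.map_mul, Polynomial.map_mul, Polynomial.map_mul,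
      hmap, hmap, hmap, hmap, hmap, hs] at h1
    rw [hmap]
    haveI : IsDomain (R ⧸ M) := Ideal.Quotient.isDomain M
    have hne : ∀ (t : R ⧸ M) (k : ℕ), (X - C t : (R ⧸ M)[X]) ^ k ≠ 0 := fun t k =>
      pow_ne_zero _ (X_sub_C_ne_zero t)
    refine mul_left_cancel₀ (mul_ne_zero (hne (Ideal.Quotient.mk M s₂) (n * (r + 1)))
      (hne (Ideal.Quotient.mk M s₁) (n * r))) ?_
    have e3 : n * (r + 1) = n * r + n := by ring
    rw [e3] at h1 ⊢
    rw [pow_add, pow_add] at h1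
    rw [pow_add]
    linear_combination h1
  have hcoeff : ∀ M : Ideal R, M.IsMaximal → Ideal.Quotient.mk M (G.coeff n) = 1 := by
    intro M hM
    have h1 : ∃ s : R, G.map (Ideal.Quotient.mk M) =
        ((X - C s) ^ n).map (Ideal.Quotient.mk M) := by
      by_cases h : M = M₁
      · subst h
        exact ⟨s₂, hG1⟩
      · exact ⟨s₁, hG2 M hM h⟩
    obtain ⟨s, hs⟩ := h1
    rw [← coeff_map, hs, coeff_map]
    have h2 : ((X - C s : R[X]) ^ n).coeff n = 1 := by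
      have h3 := (monic_X_sub_C s).pow n
      have h4 : ((X - C s : R[X]) ^ n).natDegree = n := by
        rw [natDegree_pow, natDegree_X_sub_C, mul_one]
      have h5 := h3.coeff_natDegree
      rwa [h4] at h5
    rw [h2, map_one]
  have hunit : IsUnit (G.coeff n) := by
    by_contra hu
    obtain ⟨M, hM, hmem⟩ := exists_max_ideal_of_mem_nonunits hu
    have h1 := hcoeff M hM
    rw [Ideal.Quotient.eq_zero_iff_mem.mpr hmem] at h1
    haveI : Nontrivial (R ⧸ M) := Ideal.Quotient.nontrivial_iff.mpr hM.ne_top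
    exact zero_ne_one h1
  have hG0 : G ≠ 0 := by
    rintro rfl
    rw [coeff_zero] at hunit
    exact not_isUnit_zero hunit
  refine ⟨G, ?_, hunit, ?_, hG1, hG2⟩
  · refine le_antisymm ?_ (le_natDegree_of_ne_zero hunit.ne_zero)
    have h1 : ((X - C s₁) ^ (n * r) * ((X - C s₂) ^ (n * r) * ((X - C s₃) ^ n * G)) : R[X]) =
        ((X - C s₁) ^ (n * r) * ((X - C s₂) ^ (n * r) * (X - C s₃) ^ n)) * G := by ring
    rw [h1, hmon.natDegree_mul' hG0] at hN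
    rw [((monic_X_sub_C s₁).pow _).natDegree_mul
      (((monic_X_sub_C s₂).pow _).mul ((monic_X_sub_C s₃).pow _)),
      ((monic_X_sub_C s₂).pow _).natDegree_mul ((monic_X_sub_C s₃).pow _), natDegree_pow,
      natDegree_pow, natDegree_pow, natDegree_X_sub_C, natDegree_X_sub_C, natDegree_X_sub_C] at hN
    have e3 : 2 * n * (r + 1) = 2 * (n * r) + 2 * n := by ring
    omega
  · refine ⟨(X - C s₁) ^ (n * r) * ((X - C s₂) ^ (n * r) * (X - C s₃) ^ n), ?_⟩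
    ring

end Pool.Agent.Work.MP_ae9a8c_lc
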