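import Pool.Agent.Work.MP_ae9a8c_lc.Kum

/-!
MODULE Dual.  For all large `n` the coefficients `n-1-j` (`j + 2 ≤ |a|`) of `W^(-a) θ` can be
prescribed simultaneously.

PROOF.  Let `T` be the finite set of pairs `(a, j)`, `j + 2 ≤ dg a`, and `v_(a,j) = X^j * W^(-a)`
(`W^(-a) = ∏ ((w i)⁻¹)^(a i)`).
1. The `v_(a,j)` are linearly independent over `κ`: if `Σ c_(a,j) X^j W^(-a) = 0`, multiply by
   `∏ w i^(ℓ-1)` and use `w i * (w i)⁻¹ = 1`: `Σ_a (Σ_j c_(a,j) X^j) W^(ℓ-1-a) = 0`, so by `kummer`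
   (reindex by `a ↦ ℓ-1-a`, `Fin.rev`) all polynomials `Σ_j c_(a,j) X^j` are `0`.
2. There is `n₀` such that for `n ≥ n₀`: `X^n ∣ Σ c_(a,j) v_(a,j)` implies `c = 0`.  (The
   subspaces `U_n = {c | X^n ∣ Σ c v}` of the finite-dimensional space `T → κ` decrease, so they are
   constant from some `n₀` on (e.g. by `finrank`, or `Antitone` + well-foundedness:
   `WellFoundedGT/LT.monotone_chain_condition`), and the intersection is `0` by 1.)
3. Take `n ≥ n₀` and `n ≥ m * ℓ` (so `j ≤ n - 1` for all `(a,j) ∈ T`).  The linear map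
   `Φ : (Fin n → κ) → (T → κ)`, `θ ↦ (coeff (n-1-j) (W^(-a) * Σ θ_k X^k))` is onto: otherwise
   there is a nonzero linear functional `c : T → κ` with `Σ c_(a,j) Φ(θ)_(a,j) = 0` for all `θ`
   (`Submodule.exists_dual_map_eq_bot_of_...`, or: the transpose is injective iff the map is
   surjective, `Matrix.rank_transpose`, `LinearMap.dualMap_injective_iff`).  As
   `coeff (n-1-j) (f) = coeff (n-1) (X^j f)`, this says `coeff (n-1) ((Σ c v) θ) = 0` for all
   polynomials `θ` of degree `< n`; with `θ = X^(n-1-k)` all coefficients `k < n` of `Σ c v` vanish,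
   so `X^n ∣ Σ c v` and `c = 0` by 2.
-/

set_option autoImplicit false

namespace Pool.Agent.Work.MP_ae9a8c_lc

open PowerSeries

private theorem dual_dg_le {m ℓ : ℕ} (a : Ex m ℓ) : dg a ≤ m * ℓ := by
  unfold dg
  calc ∑ i, (a i : ℕ) ≤ ∑ i : Fin m, ℓ := Finset.sum_le_sum fun i _ => (a i).isLt.le
    _ = m * ℓ := by simp

private def dual_U {κ V : Type} [Field κ] [AddCommGroup V] [Module κ V] (f : ℕ → V →ₗ[κ] κ)
    (n : ℕ) : Submodule κ V where
  carrier := {v | ∀ k < n, f k v = 0}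
  add_mem' := by
    intro a b ha hb k hk
    rw [map_add, ha k hk, hb k hk, add_zero]
  zero_mem' := by
    intro k _
    rw [map_zero]
  smul_mem' := by
    intro c x hx k hk
    rw [map_smul, hx k hk, smul_zero]

private theorem dual_stab {κ V : Type} [Field κ] [AddCommGroup V] [Module κ V] [Module.Finite κ V]
    (f : ℕ → V →ₗ[κ] κ) (h : ∀ v, (∀ k, f k v = 0) → v = 0) :
    ∃ n₀ : ℕ, ∀ v, (∀ k < n₀, f k v = 0) → v = 0 := by
  classical
  have hex : ∃ d : ℕ, ∃ n : ℕ, Module.finrank κ (dual_U f n) = d := ⟨_, 0, rfl⟩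
  obtain ⟨n, hn⟩ := Nat.find_spec hex
  refine ⟨n, fun v hv => h v fun k => ?_⟩
  have hle : dual_U f (max n (k + 1)) ≤ dual_U f n := fun x hx i hi =>
    hx i (lt_of_lt_of_le hi (le_max_left _ _))
  have hfr : Module.finrank κ (dual_U f n) ≤ Module.finrank κ (dual_U f (max n (k + 1))) := by
    rw [hn]
    exact Nat.find_min' hex ⟨_, rfl⟩
  have heq := Submodule.eq_of_le_of_finrank_le hle hfr
  have h1 : v ∈ dual_U f n := hv
  rw [← heq] at h1
  exact h1 k (lt_of_lt_of_le (Nat.lt_succ_self k) (le_max_right _ _))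

private theorem dual_shift {κ : Type} [Field κ] (F : PowerSeries κ) (a b N : ℕ) (h : N = a + b) :
    coeff N (X ^ b * F) = coeff a F := by
  subst h
  exact coeff_X_pow_mul F b a

private theorem dual_shift' {κ : Type} [Field κ] (F : PowerSeries κ) (a b N : ℕ) (h : N = a + b) :
    coeff N (F * X ^ b) = coeff a F := by
  rw [mul_comm]
  exact dual_shift F a b N h

/-- the basis elements -/
private noncomputable def dv {κ : Type} [Field κ] {ℓ m : ℕ} (w : Fin m → PowerSeries κ)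
    (t : Ex m ℓ × Fin (m * ℓ)) : PowerSeries κ :=
  X ^ (t.2 : ℕ) * ∏ i, ((w i)⁻¹) ^ (t.1 i : ℕ)

private theorem dual_indep {κ : Type} [Field κ] [CharZero κ] {ℓ m : ℕ} (hℓ : ℓ.Prime) (s : κ)
    (β : Fin m → κ) (hβ : ∀ i, β i ≠ 0) (hd : Function.Injective β)
    (w : Fin m → PowerSeries κ) (hw : ∀ i, w i ^ ℓ = base ℓ s (β i))
    (hu : ∀ i, constantCoeff (w i) ≠ 0) (c : Ex m ℓ × Fin (m * ℓ) → κ)
    (hc : ∑ t, c t • dv w t = 0) : c = 0 := by
  classical
  let rv : Ex m ℓ ≃ Ex m ℓ := Equiv.piCongrRight fun _ => Fin.revPerm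
  let p : Ex m ℓ → Polynomial κ := fun b => ∑ j : Fin (m * ℓ), Polynomial.monomial (j : ℕ) (c (rv b, j))
  have hrv : ∀ a, rv (rv a) = a := fun a => funext fun i => Fin.rev_rev (a i)
  have hpa : ∀ b, ((p b : Polynomial κ) : PowerSeries κ) =
      ∑ j : Fin (m * ℓ), C (c (rv b, j)) * X ^ (j : ℕ) := by
    intro b
    simp only [p]
    rw [← Polynomial.coeToPowerSeries.ringHom_apply, map_sum]
    refine Finset.sum_congr rfl fun j _ => ?_
    rw [Polynomial.coeToPowerSeries.ringHom_apply, Polynomial.coe_monomial,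
      PowerSeries.monomial_eq_mk]
    ext k
    rw [coeff_mk, coeff_C_mul, coeff_X_pow]
    split_ifs <;> simp
  have hprod : ∀ a : Ex m ℓ, (∏ i, ((w i)⁻¹) ^ (a i : ℕ)) * ∏ i, w i ^ (ℓ - 1) =
      ∏ i, w i ^ ((rv a i : Fin ℓ) : ℕ) := by
    intro a
    rw [← Finset.prod_mul_distrib]
    refine Finset.prod_congr rfl fun i _ => ?_
    have h1 : ((rv a i : Fin ℓ) : ℕ) = ℓ - (a i + 1) := Fin.val_rev (a i)
    have h2 : ℓ - 1 = (a i : ℕ) + (ℓ - (a i + 1)) := by have := (a i).isLt; omega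
    rw [h1, h2, pow_add, ← mul_assoc, ← mul_pow, PowerSeries.inv_mul_cancel _ (hu i), one_pow,
      one_mul]
  have hsum : ∑ b : Ex m ℓ, ((p b : Polynomial κ) : PowerSeries κ) * ∏ i, w i ^ (b i : ℕ) = 0 := by
    have h1 : ∑ b : Ex m ℓ, ((p b : Polynomial κ) : PowerSeries κ) * ∏ i, w i ^ (b i : ℕ) =
        (∑ t, c t • dv w t) * ∏ i, w i ^ (ℓ - 1) := by
      rw [Fintype.sum_prod_type, Finset.sum_mul]
      rw [← Equiv.sum_comp rv]
      refine Finset.sum_congr rfl fun a _ => ?_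
      rw [hpa, hrv, ← hprod, Finset.sum_mul, Finset.sum_mul]
      refine Finset.sum_congr rfl fun j _ => ?_
      unfold dv
      rw [PowerSeries.smul_eq_C_mul]
      ring
    rw [h1, hc, zero_mul]
  have hp0 := kummer hℓ s β hβ hd w hw hu p hsum
  funext t
  obtain ⟨a, j⟩ := t
  have h1 : p (rv a) = 0 := congrFun hp0 (rv a)
  have h2 := congrArg (fun q => Polynomial.coeff q (j : ℕ)) h1
  simp only [p, hrv, Polynomial.finsetSum_coeff, Polynomial.coeff_monomial, Polynomial.coeff_zero] at h2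
  rw [Finset.sum_eq_single j] at h2
  · simpa using h2
  · intro b _ hb
    rw [if_neg (fun h => hb (Fin.ext h))]
  · intro h
    exact absurd (Finset.mem_univ j) h

theorem dual {κ : Type} [Field κ] [CharZero κ] {ℓ m : ℕ} (hℓ : ℓ.Prime) (s : κ)
    (β : Fin m → κ) (hβ : ∀ i, β i ≠ 0) (hd : Function.Injective β)
    (w : Fin m → PowerSeries κ) (hw : ∀ i, w i ^ ℓ = base ℓ s (β i))
    (hu : ∀ i, constantCoeff (w i) ≠ 0) :
    ∃ n₀ : ℕ, ∀ n : ℕ, n₀ ≤ n → ∀ r : Ex m ℓ → ℕ → κ, ∃ θ : PowerSeries κ,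
      ∀ (a : Ex m ℓ) (j : ℕ), j + 2 ≤ dg a →
        coeff (n - 1 - j) ((∏ i, ((w i)⁻¹) ^ (a i : ℕ)) * θ) = r a j := by
  classical
  let L : (Ex m ℓ × Fin (m * ℓ) → κ) →ₗ[κ] PowerSeries κ :=
    ∑ t, (LinearMap.proj t).smulRight (dv w t)
  have hL : ∀ c, L c = ∑ t, c t • dv w t := by
    intro c
    simp [L, LinearMap.sum_apply]
  obtain ⟨n₀, hn₀⟩ := dual_stab (fun k => (coeff k : PowerSeries κ →ₗ[κ] κ) ∘ₗ L) (by
    intro c hc
    apply dual_indep hℓ s β hβ hd w hw hu c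
    rw [← hL]
    ext k
    rw [map_zero]
    exact hc k)
  refine ⟨max n₀ (m * ℓ), fun n hn r => ?_⟩
  have hn1 : n₀ ≤ n := (le_max_left _ _).trans hn
  have hn2 : m * ℓ ≤ n := (le_max_right _ _).trans hn
  let Φ : PowerSeries κ →ₗ[κ] (Ex m ℓ × Fin (m * ℓ) → κ) :=
    LinearMap.pi fun t => (coeff (n - 1 - (t.2 : ℕ)) : PowerSeries κ →ₗ[κ] κ) ∘ₗ
      LinearMap.mulLeft κ (∏ i, ((w i)⁻¹) ^ (t.1 i : ℕ))
  have hΦ : ∀ θ t, Φ θ t = coeff (n - 1 - (t.2 : ℕ)) ((∏ i, ((w i)⁻¹) ^ (t.1 i : ℕ)) * θ) :=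
    fun θ t => rfl
  have hsurj : LinearMap.range Φ = ⊤ := by
    by_contra hne
    obtain ⟨f, hf0, hf⟩ := Submodule.exists_le_ker_of_lt_top (LinearMap.range Φ) (lt_top_iff_ne_top.2 hne)
    apply hf0
    have hfc : ∀ x : Ex m ℓ × Fin (m * ℓ) → κ, f x = ∑ t, x t * f (Pi.single t 1) := by
      intro x
      rw [LinearMap.pi_apply_eq_sum_univ f x]
      refine Finset.sum_congr rfl fun t _ => ?_
      rw [smul_eq_mul]
      congr 2
      funext i
      simp [Pi.single_apply, eq_comm]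
    have hc0 : (fun t => f (Pi.single t 1)) = 0 := by
      apply hn₀
      intro k hk
      have hkn : k < n := lt_of_lt_of_le hk hn1
      show coeff k (L fun t => f (Pi.single t 1)) = 0
      rw [hL, map_sum]
      have h1 : f (Φ (X ^ (n - 1 - k))) = 0 := hf ⟨_, rfl⟩
      rw [hfc] at h1
      rw [← h1]
      refine Finset.sum_congr rfl fun t _ => ?_
      rw [map_smul, smul_eq_mul, mul_comm, hΦ]
      congr 1
      unfold dv
      have ht : (t.2 : ℕ) < n := lt_of_lt_of_le t.2.isLt hn2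
      have e1 := dual_shift ((∏ i, ((w i)⁻¹) ^ (t.1 i : ℕ)) * X ^ (n - 1 - k)) (n - 1 - (t.2 : ℕ))
        (t.2 : ℕ) (n - 1) (by omega)
      have e3 := dual_shift' (X ^ (t.2 : ℕ) * ∏ i, ((w i)⁻¹) ^ (t.1 i : ℕ)) k (n - 1 - k) (n - 1)
        (by omega)
      rw [← e1, ← e3, mul_assoc]
    apply LinearMap.ext
    intro x
    rw [hfc]
    have h2 : ∀ t, f (Pi.single t 1) = 0 := fun t => congrFun hc0 t
    simp [h2]
  obtain ⟨θ, hθ⟩ : ∃ θ, Φ θ = fun t => r t.1 t.2 := by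
    have : (fun t : Ex m ℓ × Fin (m * ℓ) => r t.1 t.2) ∈ LinearMap.range Φ := by
      rw [hsurj]; exact Submodule.mem_top
    exact this
  refine ⟨θ, fun a j hj => ?_⟩
  have hj' : j < m * ℓ := by have := dual_dg_le a; omega
  have h1 := congrFun hθ (a, ⟨j, hj'⟩)
  rw [hΦ] at h1
  exact h1

end Pool.Agent.Work.MP_ae9a8c_lc
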