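import Mathlib

/-!
MODULE DvdSer (Mathlib only).  A polynomial whose expansion at `s` is divisible by `X^k` is divisible by
`(X - s)^k`.

PROOF.  `p = q.comp (X + C s)`; its coercion to power series is `aeval (C s + X) q`
(`Polynomial.coe_...`: both sides are algebra homomorphisms in `q`, `Polynomial.induction_on` or
`Polynomial.algHom_ext`), so the coefficients `< k` of `p` vanish (`PowerSeries.X_pow_dvd_iff`,
`Polynomial.coeff_coe`), `X^k ∣ p` (`Polynomial.X_pow_dvd_iff`), and
`q = p.comp (X - C s)` is divisible by `(X - C s)^k`.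
-/

set_option autoImplicit false

namespace Pool.Agent.Work.MP_ae9a8c_lc

open PowerSeries

private theorem dvdSer_coe {R : Type} [CommRing R] (q : Polynomial R) (s : R) :
    ((q.comp (Polynomial.X + Polynomial.C s) : Polynomial R) : PowerSeries R) =
      Polynomial.aeval (C s + X : PowerSeries R) q := by
  induction q using Polynomial.induction_on' with
  | add p q hp hq => rw [Polynomial.add_comp, Polynomial.coe_add, hp, hq, map_add]
  | monomial n a =>
    rw [← Polynomial.C_mul_X_pow_eq_monomial]
    simp [Polynomial.aeval_def, add_comm, PowerSeries.algebraMap_apply]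

theorem dvd_of_series {R : Type} [CommRing R] (q : Polynomial R) (s : R) (k : ℕ)
    (h : (X : PowerSeries R) ^ k ∣ Polynomial.aeval (C s + X : PowerSeries R) q) :
    (Polynomial.X - Polynomial.C s) ^ k ∣ q := by
  rw [← dvdSer_coe, PowerSeries.X_pow_dvd_iff] at h
  have h1 : (Polynomial.X : Polynomial R) ^ k ∣ q.comp (Polynomial.X + Polynomial.C s) := by
    rw [Polynomial.X_pow_dvd_iff]
    intro d hd
    have := h d hd
    rwa [Polynomial.coeff_coe] at this
  obtain ⟨c, hc⟩ := h1
  have h2 : q = (q.comp (Polynomial.X + Polynomial.C s)).comp (Polynomial.X - Polynomial.C s) := by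
    rw [Polynomial.comp_assoc]
    simp
  rw [h2, hc]
  refine ⟨c.comp (Polynomial.X - Polynomial.C s), ?_⟩
  simp

end Pool.Agent.Work.MP_ae9a8c_lc
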