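import Mathlib

/-!
MODULE JacPoly (Mathlib only).  The Jacobson radical of the integral closure `R` of `O` in `L`, described
by monic polynomials of degree `[L : K]` with coefficients in `𝔪`.

PROOF.  Every maximal ideal `M` of `R` lies over `𝔪` (`Ideal.isMaximal_comap_of_isIntegral_of_isMaximal`).
(⇐) Let `z` be in every maximal ideal.  `G = L ≃ₐ[K] L` has `[L : K]` elements
(`IsGalois.card_aut_eq_finrank`) and every `τ z` is again in every maximal ideal of `R` (`τ` induces an
automorphism of `R`).  `∏_τ (X - τ z)` has coefficients fixed by `G`, so in `K`; they are in `R`, so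
integral over `O`, so in `O`; the coefficients of degree `< d` are polynomials without constant
term in the `τ z`, so they are in every `M`, so in `M ∩ O = 𝔪`.  (To see this: modulo `M` the product is
`X^d`.)  Evaluate at `z`.  (`MulSemiringAction.charpoly` may help.)
(⇒) `z` is a root of a monic polynomial over `O`, so `z ∈ R`; `z^d = - Σ c_j z^j ∈ M`, `M` is prime and
`d > 0` (`Module.finrank_pos`).
-/

set_option autoImplicit false

namespace Pool.Agent.Work.MP_ae9a8c_lc

open Polynomial

private lemma JacPoly_coeff {R ι : Type} [CommRing R] [Fintype ι] (M : Ideal R) (s : ι → R)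
    (hs : ∀ i, s i ∈ M) {j : ℕ} (hj : j < Fintype.card ι) : (∏ i, (X - C (s i))).coeff j ∈ M := by
  rw [← Ideal.Quotient.eq_zero_iff_mem, ← coeff_map]
  have h1 : (∏ i, (X - C (s i))).map (Ideal.Quotient.mk M) = X ^ (Fintype.card ι) := by
    rw [Polynomial.map_prod]
    have h2 : ∀ i ∈ (Finset.univ : Finset ι),
        (X - C (s i) : Polynomial R).map (Ideal.Quotient.mk M) = X := by
      intro i _
      rw [Polynomial.map_sub, map_X, map_C, Ideal.Quotient.eq_zero_iff_mem.2 (hs i), C_0, sub_zero]
    rw [Finset.prod_congr rfl h2, Finset.prod_const, Finset.card_univ]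
  rw [h1, coeff_X_pow, if_neg hj.ne]

theorem jac_poly {K L : Type} [Field K] (O : ValuationSubring K) [Field L] [Algebra K L]
    [FiniteDimensional K L] [IsGalois K L] (z : L) :
    (∃ c : Fin (Module.finrank K L) → K,
      (∀ j, ∃ h : c j ∈ O, (⟨c j, h⟩ : O) ∈ IsLocalRing.maximalIdeal O) ∧
      z ^ (Module.finrank K L) + ∑ j, algebraMap K L (c j) * z ^ (j : ℕ) = 0) ↔
    ∃ hz : z ∈ integralClosure O L, ∀ M : Ideal (integralClosure O L), M.IsMaximal →
      (⟨z, hz⟩ : integralClosure O L) ∈ M := by
  have hmem : ∀ M : Ideal (integralClosure O L), M.IsMaximal → ∀ x : O,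
      algebraMap O (integralClosure O L) x ∈ M ↔ x ∈ IsLocalRing.maximalIdeal O := by
    intro M hM x
    have hcomap : M.comap (algebraMap O (integralClosure O L)) = IsLocalRing.maximalIdeal O :=
      IsLocalRing.eq_maximalIdeal (Ideal.isMaximal_comap_of_isIntegral_of_isMaximal M)
    rw [← hcomap, Ideal.mem_comap]
  have hinj : Function.Injective (algebraMap (integralClosure O L) L) := Subtype.val_injective
  constructor
  · rintro ⟨c, hc, hz⟩
    choose ho hom using hc
    have hzi : IsIntegral O z := by
      refine ⟨X ^ (Module.finrank K L) + ∑ j, C (⟨c j, ho j⟩ : O) * X ^ (j : ℕ),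
        monic_X_pow_add (degree_sum_fin_lt _), ?_⟩
      rw [eval₂_add, eval₂_pow, eval₂_X, eval₂_finsetSum]
      rw [← hz]
      congr 1
      refine Finset.sum_congr rfl fun j _ => ?_
      rw [eval₂_mul, eval₂_C, eval₂_pow, eval₂_X]
      rfl
    refine ⟨hzi, fun M hM => ?_⟩
    have hp := hM.isPrime
    apply hp.mem_of_pow_mem (Module.finrank K L)
    have h1 : (⟨z, hzi⟩ : integralClosure O L) ^ (Module.finrank K L) =
        - ∑ j, algebraMap O (integralClosure O L) (⟨c j, ho j⟩ : O) *
          (⟨z, hzi⟩ : integralClosure O L) ^ (j : ℕ) := by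
      apply hinj
      rw [map_pow, map_neg, map_sum, eq_neg_iff_add_eq_zero, ← hz]
      congr 1
    rw [h1]
    apply M.neg_mem
    apply M.sum_mem
    intro j _
    exact M.mul_mem_right _ ((hmem M hM _).2 (hom j))
  · rintro ⟨hz, hM⟩
    set e : (L ≃ₐ[K] L) → (integralClosure O L ≃ₐ[O] integralClosure O L) :=
      fun τ => (τ.restrictScalars O).mapIntegralClosure with he
    set zR : integralClosure O L := ⟨z, hz⟩ with hzR
    set P : Polynomial (integralClosure O L) := ∏ τ : L ≃ₐ[K] L, (X - C (e τ zR)) with hP
    have hPm : P.Monic := monic_prod_of_monic _ _ fun τ _ => monic_X_sub_C _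
    have hdeg : P.natDegree = Module.finrank K L := by
      rw [hP, natDegree_prod_of_monic _ _ fun τ _ => monic_X_sub_C _]
      simp only [natDegree_X_sub_C, Finset.sum_const, Finset.card_univ, smul_eq_mul, mul_one]
      rw [← Nat.card_eq_fintype_card, IsGalois.card_aut_eq_finrank]
    have hPmap : P.map (algebraMap (integralClosure O L) L) = ∏ τ : L ≃ₐ[K] L, (X - C (τ z)) := by
      rw [hP, Polynomial.map_prod]
      refine Finset.prod_congr rfl fun τ _ => ?_
      rw [Polynomial.map_sub, map_X, map_C]
      rfl
    have hfix : ∀ j, ∀ σ : L ≃ₐ[K] L, σ (algebraMap (integralClosure O L) L (P.coeff j)) =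
        algebraMap (integralClosure O L) L (P.coeff j) := by
      intro j σ
      rw [← coeff_map, hPmap]
      have h1 : (∏ τ : L ≃ₐ[K] L, (X - C (τ z))).map (σ : L →+* L) =
          ∏ τ : L ≃ₐ[K] L, (X - C (τ z)) := by
        rw [Polynomial.map_prod]
        refine Fintype.prod_equiv (Equiv.mulLeft σ) _ _ fun τ => ?_
        rw [Polynomial.map_sub, map_X, map_C]
        rfl
      conv_rhs => rw [← h1]
      rw [coeff_map]
      rfl
    have hO : ∀ j, ∃ o : O, algebraMap O (integralClosure O L) o = P.coeff j := by
      intro j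
      have hbot : algebraMap (integralClosure O L) L (P.coeff j) ∈ (⊥ : IntermediateField K L) := by
        rw [IsGalois.mem_bot_iff_fixed]
        exact hfix j
      rw [IntermediateField.mem_bot] at hbot
      obtain ⟨y, hy⟩ := hbot
      have hyi : IsIntegral O y := by
        rw [← isIntegral_algebraMap_iff (algebraMap K L).injective, hy]
        exact (integralClosure.isIntegral (P.coeff j)).algebraMap
      obtain ⟨o, ho⟩ := IsIntegrallyClosed.isIntegral_iff.1 hyi
      refine ⟨o, ?_⟩
      apply hinj
      rw [← hy, ← ho, ← IsScalarTower.algebraMap_apply, ← IsScalarTower.algebraMap_apply]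
    choose o ho using hO
    obtain ⟨M, hMM⟩ := Ideal.exists_maximal (integralClosure O L)
    have hcoef : ∀ j, j < Module.finrank K L → o j ∈ IsLocalRing.maximalIdeal O := by
      intro j hj
      rw [← hmem M hMM, ho, hP]
      apply JacPoly_coeff M (fun τ => e τ zR)
      · intro τ
        have : (M.comap (e τ)).IsMaximal := Ideal.comap_isMaximal_of_equiv (e τ)
        exact hM _ this
      · rwa [← Nat.card_eq_fintype_card, IsGalois.card_aut_eq_finrank]
    refine ⟨fun j => (o j : K), fun j => ⟨(o j).2, hcoef j j.2⟩, ?_⟩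
    have hev : (P.map (algebraMap (integralClosure O L) L)).eval z = 0 := by
      rw [hPmap, eval_prod]
      apply Finset.prod_eq_zero (Finset.mem_univ (1 : L ≃ₐ[K] L))
      simp
    rw [eval_eq_sum_range, hPm.natDegree_map, hdeg, Finset.sum_range_succ, add_comm] at hev
    rw [← hev]
    congr 1
    · have h1 : P.coeff (Module.finrank K L) = 1 := by
        rw [← hdeg]
        exact hPm.coeff_natDegree
      rw [coeff_map, h1, map_one, one_mul]
    · rw [← Fin.sum_univ_eq_sum_range (fun i => (P.map (algebraMap (integralClosure O L) L)).coeff i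
        * z ^ i)]
      refine Finset.sum_congr rfl fun j _ => ?_
      rw [coeff_map, ← ho, ← IsScalarTower.algebraMap_apply]
      rfl

end Pool.Agent.Work.MP_ae9a8c_lc
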