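import Mathlib

/-!
MODULE TwoMax (Mathlib only).  If `O` is not henselian then the integral closure of `O` in `L` has two
maximal ideals.

Here `f ∈ O[X]` is monic, `a₀ ∈ O`, `f(a₀) ∈ 𝔪`, `f'(a₀)` a unit, no root of `f` in `O` is congruent to
`a₀`; `L / K` is finite Galois and `f` splits over `L`; `R = integralClosure O L`.

PROOF.  `R` is integral over the local ring `O`, so a maximal ideal `M` of `R` lies over `𝔪`
(`Ideal.isMaximal_comap_of_isIntegral_of_isMaximal`).  Fix one such `M` (R is a nontrivial ring).
In `L[X]`: `f = ∏ (X - r)` over the multiset of roots, all `r` are integral over `O`, i.e. in `R`.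
`f(a₀) = ∏ (a₀ - r) ∈ M`, so `a₀ - r ∈ M` for some root `r`.
(a) `r ∉ K` (not in the range of `algebraMap K L`): otherwise `r` is in `O` (integrally closed:
a valuation ring), a root of `f`, and `r - a₀ ∈ M ∩ O = 𝔪`, a contradiction.
(b) If `r' ≠ r` is another root with `a₀ - r' ∈ M`: `f = (X - r)(X - r') q` with `q` a product of
`X - r''`, so `q(a₀) ∈ R`, `q'(a₀) ∈ R` and `f'(a₀) = (a₀-r') q(a₀) + (a₀-r) q(a₀) +
(a₀-r)(a₀-r') q'(a₀) ∈ M`, but `f'(a₀)` is a unit of `O`: a contradiction.
(c) As `L / K` is Galois and `r ∉ K`, there is `τ ∈ Gal(L/K)` with `τ r ≠ r`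
(`IsGalois.mem_bot_iff_fixed` or `InfiniteGalois`), and `τ r` is a root of `f`.  `τ` restricts to an
automorphism of `R` (`AlgEquiv.mapIntegralClosure` over `O`, or directly a map of ideals: let
`M' = {x ∈ R | τ⁻¹ x ∈ M}`), `M' = τ M` is maximal and `a₀ - τ r ∈ M'`.  If `M' = M` this contradicts (b).
So `M' ≠ M`.
-/

set_option autoImplicit false

namespace Pool.Agent.Work.MP_ae9a8c_lc

open IsLocalRing Polynomial

/-- Two different roots congruent to `a₀` contradict that `f'(a₀)` is a unit. -/
private lemma TwoMax_unique {R : Type} [CommRing R] [IsDomain R] (M : Ideal R) (hM : M ≠ ⊤)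
    (F : Polynomial R) (a r r' : R) (hu : IsUnit (F.derivative.eval a)) (hr : F.IsRoot r)
    (hr' : F.IsRoot r') (ha : a - r ∈ M) (ha' : a - r' ∈ M) : r' = r := by
  by_contra hne
  obtain ⟨q, hq⟩ := dvd_iff_isRoot.2 hr
  have hq1 : q.IsRoot r' := by
    rw [IsRoot, hq, eval_mul, eval_sub, eval_X, eval_C] at hr'
    rcases mul_eq_zero.1 hr' with h | h
    · exact absurd (sub_eq_zero.1 h) hne
    · exact h
  obtain ⟨q2, hq2⟩ := dvd_iff_isRoot.2 hq1
  apply hM
  apply Ideal.eq_top_of_isUnit_mem M _ hu
  have h1 : F.derivative.eval a = q.eval a + (a - r) * q.derivative.eval a := by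
    rw [hq, derivative_mul, derivative_sub, derivative_X, derivative_C, eval_add, eval_mul,
      eval_mul, eval_sub, eval_sub, eval_X, eval_C, eval_one, eval_zero]
    ring
  rw [h1]
  apply M.add_mem
  · rw [hq2, eval_mul, eval_sub, eval_X, eval_C]
    exact M.mul_mem_right _ ha'
  · exact M.mul_mem_right _ ha

theorem two_max {K L : Type} [Field K] (O : ValuationSubring K) [Field L] [Algebra K L]
    [FiniteDimensional K L] [IsGalois K L] (f : Polynomial O) (hf : f.Monic) (a₀ : O)
    (h0 : f.eval a₀ ∈ maximalIdeal O) (h1 : IsUnit (f.derivative.eval a₀))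
    (h2 : ∀ a : O, f.IsRoot a → a - a₀ ∉ maximalIdeal O)
    (h3 : ((f.map (algebraMap O K)).map (algebraMap K L)).Splits) :
    ∃ M₁ M₂ : Ideal (integralClosure O L), M₁.IsMaximal ∧ M₂.IsMaximal ∧ M₂ ≠ M₁ := by
  obtain ⟨M, hM⟩ := Ideal.exists_maximal (integralClosure O L)
  have hcomap : M.comap (algebraMap O (integralClosure O L)) = maximalIdeal O :=
    eq_maximalIdeal (Ideal.isMaximal_comap_of_isIntegral_of_isMaximal M)
  have hmem : ∀ x : O, algebraMap O (integralClosure O L) x ∈ M ↔ x ∈ maximalIdeal O := by
    intro x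
    rw [← hcomap, Ideal.mem_comap]
  set F : Polynomial (integralClosure O L) := f.map (algebraMap O (integralClosure O L)) with hF
  set a := algebraMap O (integralClosure O L) a₀ with ha
  have hinj : Function.Injective (algebraMap (integralClosure O L) L) := Subtype.val_injective
  have hmapF : F.map (algebraMap (integralClosure O L) L) =
      (f.map (algebraMap O K)).map (algebraMap K L) := by
    rw [hF, Polynomial.map_map, Polynomial.map_map, ← IsScalarTower.algebraMap_eq,
      ← IsScalarTower.algebraMap_eq]
  have hFm : F.Monic := hf.map _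
  have hint : ∀ x ∈ ((f.map (algebraMap O K)).map (algebraMap K L)).roots,
      x ∈ integralClosure O L := by
    intro x hx
    have hx' := isRoot_of_mem_roots hx
    refine ⟨f, hf, ?_⟩
    rw [Polynomial.map_map, ← IsScalarTower.algebraMap_eq, IsRoot, eval_map] at hx'
    exact hx'
  have hprod : F.eval a = ((((f.map (algebraMap O K)).map (algebraMap K L)).roots.pmap
      (fun x hx => (⟨x, hx⟩ : integralClosure O L)) hint).map fun r => a - r).prod := by
    apply hinj
    have hLm : ((f.map (algebraMap O K)).map (algebraMap K L)).Monic := (hf.map _).map _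
    rw [← eval₂_at_apply, ← eval_map, hmapF, h3.eval_eq_prod_roots_of_monic hLm, map_multiset_prod,
      Multiset.map_map, Multiset.map_pmap]
    congr 1
    symm
    apply Multiset.pmap_eq_map
  have hev : F.eval a = algebraMap O (integralClosure O L) (f.eval a₀) := by
    rw [hF, eval_map, ha, eval₂_at_apply]
  have hderiv : F.derivative.eval a = algebraMap O (integralClosure O L) (f.derivative.eval a₀) := by
    rw [hF, derivative_map, eval_map, ha, eval₂_at_apply]
  have hu : IsUnit (F.derivative.eval a) := by
    rw [hderiv]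
    exact h1.map _
  have hmem0 : F.eval a ∈ M := by
    rw [hev, hmem]
    exact h0
  rw [hprod, hM.isPrime.multiset_prod_mem_iff_exists_mem] at hmem0
  obtain ⟨p, hp, hpM⟩ := hmem0
  rw [Multiset.mem_map] at hp
  obtain ⟨r, hr, rfl⟩ := hp
  rw [Multiset.mem_pmap] at hr
  obtain ⟨x, hx, hxr⟩ := hr
  have hroot : F.IsRoot r := by
    have hx' := isRoot_of_mem_roots hx
    rw [← hmapF] at hx'
    have hrx : algebraMap (integralClosure O L) L r = x := by
      rw [← hxr]
      rfl
    rw [← hrx] at hx'
    rw [IsRoot, eval_map, eval₂_at_apply] at hx'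
    exact hinj (by rw [hx', map_zero])
  have hnot : algebraMap (integralClosure O L) L r ∉ (⊥ : IntermediateField K L) := by
    intro hbot
    rw [IntermediateField.mem_bot] at hbot
    obtain ⟨y, hy⟩ := hbot
    have hyi : IsIntegral O y := by
      rw [← isIntegral_algebraMap_iff (algebraMap K L).injective, hy]
      exact (integralClosure.isIntegral r).algebraMap
    obtain ⟨z, hz⟩ := IsIntegrallyClosed.isIntegral_iff.1 hyi
    have hzr : algebraMap O (integralClosure O L) z = r := by
      apply hinj
      rw [← hy, ← hz, ← IsScalarTower.algebraMap_apply, ← IsScalarTower.algebraMap_apply]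
    have hzroot : f.IsRoot z := by
      rw [← hzr, hF, IsRoot, eval_map, eval₂_at_apply] at hroot
      have hinjO : Function.Injective (algebraMap O (integralClosure O L)) := by
        intro u v huv
        have := congrArg (algebraMap (integralClosure O L) L) huv
        rw [← IsScalarTower.algebraMap_apply, ← IsScalarTower.algebraMap_apply,
          IsScalarTower.algebraMap_apply O K L, IsScalarTower.algebraMap_apply O K L] at this
        exact Subtype.val_injective ((algebraMap K L).injective this)
      exact hinjO (by rw [hroot, map_zero])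
    apply h2 z hzroot
    rw [← hmem, map_sub, hzr, ← neg_sub]
    exact M.neg_mem hpM
  rw [IsGalois.mem_bot_iff_fixed] at hnot
  push Not at hnot
  obtain ⟨τ, hτ⟩ := hnot
  set e : integralClosure O L ≃ₐ[O] integralClosure O L := (τ.restrictScalars O).mapIntegralClosure
    with he
  have her : e r ≠ r := by
    intro h
    apply hτ
    exact congrArg (algebraMap (integralClosure O L) L) h
  refine ⟨M, M.comap e.symm, hM, Ideal.comap_isMaximal_of_equiv e.symm, ?_⟩
  intro hMM
  apply her
  have hroot' : F.IsRoot (e r) := by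
    have h := congrArg e hroot
    rw [map_zero, hF, eval_map] at h
    have h5 : e (eval₂ (algebraMap O (integralClosure O L)) r f) =
        eval₂ (algebraMap O (integralClosure O L)) (e r) f := by
      rw [← aeval_def, ← aeval_def, ← aeval_algHom_apply]
    rw [h5] at h
    rw [hF, IsRoot, eval_map]
    exact h
  refine TwoMax_unique M hM.ne_top F a r (e r) hu hroot hroot' hpM ?_
  rw [← hMM, Ideal.mem_comap, map_sub, AlgEquiv.symm_apply_apply, ha, AlgEquiv.commutes]
  exact hpM

end Pool.Agent.Work.MP_ae9a8c_lc
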