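import Pool.Agent.Work.MP_ae9a8c_lc.MTDefs

/-!
MODULE NipDfn (model theory).  NIP for sets definable with parameters.

PROOF.  By `Set.definable_iff_finitely_definable` the set `s` is definable over a finite set `A0` of
parameters, and by `Set.definable_iff_exists_formula_sum` by a formula
`φ : Lg.Formula (A0 ⊕ (Fin m ⊕ Fin q))`, evaluated at `Sum.elim (↑) v`.  Let `k = A0.card` and enumerate
`A0 ≃ Fin k` (`Finset.equivFin`); relabel `φ` along
`A0 ⊕ (Fin m ⊕ Fin q) → Fin m ⊕ Fin (q + k)` (`Formula.realize_relabel`), and apply `NIP` to `m`, `q + k`.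
If all `S` were realised for `s` with `a` and `x_S`, then they are realised for the new formula with
`b_S = Fin.append x_S (parameters)`.
(`letI := st O` makes the structure an instance; the structure inside `NIP` is `st O` by `rfl`.)
-/

set_option autoImplicit false

namespace Pool.Agent.Work.MP_ae9a8c_lc

theorem nip_dfn {K : Type} [Field K] (O : ValuationSubring K) (h : NIP K O) {m q : ℕ}
    (s : Set (Fin m ⊕ Fin q → K)) (hs : Dfn O s) :
    ∃ N : ℕ, ¬ ∃ a : Fin N → Fin m → K, ∀ S : Set (Fin N), ∃ x : Fin q → K,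
      ∀ i : Fin N, Sum.elim (a i) x ∈ s ↔ i ∈ S := by
  classical
  letI := st O
  have hs' : (Set.univ : Set K).Definable Lg s := hs
  rw [Set.definable_iff_finitely_definable] at hs'
  obtain ⟨A0, _, hA0⟩ := hs'
  rw [Set.definable_iff_exists_formula_sum] at hA0
  obtain ⟨φ, hφ⟩ := hA0
  let ρ : ((A0 : Set K) : Type) ⊕ (Fin m ⊕ Fin q) → Fin m ⊕ Fin (q + A0.card) :=
    Sum.elim (fun a => Sum.inr (Fin.natAdd q (A0.equivFin a)))
      (Sum.elim Sum.inl (fun j => Sum.inr (Fin.castAdd A0.card j)))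
  obtain ⟨N, hN⟩ := h m (q + A0.card) (φ.relabel ρ)
  refine ⟨N, fun ⟨a, ha⟩ => hN ⟨a, fun S => ?_⟩⟩
  obtain ⟨x, hx⟩ := ha S
  refine ⟨Fin.append x (fun j => ((A0.equivFin.symm j : A0) : K)), fun i => ?_⟩
  refine Iff.trans ?_ (hx i)
  have h1 : (Sum.elim (a i) (Fin.append x (fun j => ((A0.equivFin.symm j : A0) : K)))) ∘ ρ =
      Sum.elim (fun y : ((A0 : Set K) : Type) => (y : K)) (Sum.elim (a i) x) := by
    funext y
    rcases y with y | y | y
    · simp only [ρ, Function.comp_apply, Sum.elim_inl, Sum.elim_inr, Fin.append_right,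
        Equiv.symm_apply_apply]
    · rfl
    · simp only [ρ, Function.comp_apply, Sum.elim_inl, Sum.elim_inr, Fin.append_left]
  have h2 : Sum.elim (a i) x ∈ s ↔ φ.Realize (Sum.elim (↑) (Sum.elim (a i) x)) := by
    rw [hφ]
    rfl
  rw [h2, ← h1]
  exact FirstOrder.Language.Formula.realize_relabel

end Pool.Agent.Work.MP_ae9a8c_lc
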