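import Pool.Agent.Work.MP_ae9a8c_lc.Defs

/-!
MODULE FieldL (field theory).  The finite Galois extension `L`.

PROOF.  `Ω = AlgebraicClosure K`, `F` and the property from `VirtProP K p`.  Let `L` be an intermediate
field of `Ω / K`, finite and normal over `K`, containing `F`, the roots of `f` and a primitive `ℓ`-th root
of unity (exists in `Ω`: characteristic 0): e.g. `L = normalClosure K (F ⊔ adjoin K (roots of
f * (X^ℓ - 1))) Ω` or the splitting field inside `Ω` of `f * (X^ℓ - 1) * ∏ minpoly of generators of F`.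
`L / K` is Galois (characteristic 0).
Let `G` be monic over `L`, `p ∤ deg G`.  `G` is the product of its monic irreducible factors, so some
irreducible factor `g` has degree prime to `p`.  Let `b ∈ Ω` be a root of `g` (`Ω` is algebraically closed
and an `L`-algebra), `E = L(b)` (`IntermediateField.adjoin L {b}` restricted to `K`,
`IntermediateField.restrictScalars K`), `F ≤ L ≤ E`, `[E:K] = [L:K] * deg g`
(`IntermediateField.adjoin.finrank`, `Module.finrank_mul_finrank`).  By the property
`[L:K] = [F:K] p^x`, `[E:K] = [F:K] p^y`, so `p^x * deg g = p^y` and `deg g` is a power of `p`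
(`Nat.dvd_prime_pow`), prime to `p`, so `deg g = 1` and `g` has a root in `L`.
-/

set_option autoImplicit false

namespace Pool.Agent.Work.MP_ae9a8c_lc

open Polynomial IntermediateField

private lemma FieldL_factor {L : Type} [Field L] {p : ℕ} : ∀ (n : ℕ) (G : Polynomial L), G.natDegree = n →
    G.Monic → ¬ p ∣ G.natDegree → ∃ g : Polynomial L, g.Monic ∧ Irreducible g ∧ g ∣ G ∧
      ¬ p ∣ g.natDegree := by
  intro n
  induction n using Nat.strong_induction_on with
  | _ n ih =>
    intro G hn hG hp
    have hu : ¬ IsUnit G := by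
      intro hu
      rw [hG.isUnit_iff] at hu
      rw [hu, natDegree_one] at hp
      exact hp (dvd_zero _)
    obtain ⟨g, hg, hgi, q, hq⟩ := Polynomial.exists_monic_irreducible_factor G hu
    by_cases h : p ∣ g.natDegree
    · have hqm : q.Monic := hg.of_mul_monic_left (hq ▸ hG)
      have hdeg : G.natDegree = g.natDegree + q.natDegree := by
        rw [hq, hg.natDegree_mul hqm]
      have hpos := hgi.natDegree_pos
      obtain ⟨g', h1, h2, h3, h4⟩ := ih q.natDegree (by omega) q rfl hqm (by
        intro h'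
        exact hp (hdeg ▸ dvd_add h h'))
      exact ⟨g', h1, h2, h3.trans ⟨g, by rw [hq, mul_comm]⟩, h4⟩
    · exact ⟨g, hg, hgi, ⟨q, hq⟩, h⟩

theorem exists_L (K : Type) [Field K] [CharZero K] {p : ℕ} (hp : p.Prime) (hK : VirtProP K p)
    {ℓ : ℕ} (hℓ : ℓ.Prime) (f : Polynomial K) (hf : f.Monic) :
    ∃ (L : Type) (_ : Field L) (_ : Algebra K L), FiniteDimensional K L ∧ IsGalois K L ∧
      (∃ ζ : L, IsPrimitiveRoot ζ ℓ) ∧ (f.map (algebraMap K L)).Splits ∧
      ∀ G : Polynomial L, G.Monic → ¬ p ∣ G.natDegree → ∃ b, G.IsRoot b := by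
  obtain ⟨F, hFf, hF⟩ := hK
  set Ω := AlgebraicClosure K with hΩ
  set h : Polynomial K := f * (X ^ ℓ - 1) with hh
  have hX : (X ^ ℓ - 1 : Polynomial K) ≠ 0 := (monic_X_pow_sub_C (1 : K) hℓ.ne_zero).ne_zero
  have hh0 : h ≠ 0 := mul_ne_zero hf.ne_zero hX
  set A : IntermediateField K Ω := adjoin K (h.rootSet Ω) with hA
  have hAfin : FiniteDimensional K A := by
    apply finiteDimensional_adjoin
    intro x _
    exact Algebra.IsIntegral.isIntegral x
  set L : IntermediateField K Ω := normalClosure K (F ⊔ A : IntermediateField K Ω) Ω with hL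
  have hFAf : FiniteDimensional K (F ⊔ A : IntermediateField K Ω) := finiteDimensional_sup F A
  have hle : F ⊔ A ≤ L := IntermediateField.le_normalClosure _
  have hroot : ∀ x ∈ h.rootSet Ω, x ∈ L := fun x hx =>
    hle ((le_sup_right : A ≤ F ⊔ A) (subset_adjoin K _ hx))
  have hLf : FiniteDimensional K L := inferInstance
  have hLn : Normal K L := inferInstance
  have hLs : Algebra.IsSeparable K L := inferInstance
  have hLg : IsGalois K L := ⟨⟩
  refine ⟨L, inferInstance, inferInstance, hLf, hLg, ?_, ?_, ?_⟩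
  · have : NeZero (ℓ : Ω) := ⟨by exact_mod_cast hℓ.ne_zero⟩
    obtain ⟨z, hz⟩ := IsAlgClosed.exists_root (cyclotomic ℓ Ω) (by
      rw [degree_cyclotomic]
      have := Nat.totient_pos.2 hℓ.pos
      exact_mod_cast this.ne')
    rw [isRoot_cyclotomic_iff] at hz
    have hzL : z ∈ L := by
      apply hroot
      rw [mem_rootSet]
      refine ⟨hh0, ?_⟩
      rw [hh, map_mul, map_sub, map_pow, aeval_X, map_one, hz.pow_eq_one, sub_self, mul_zero]
    exact ⟨⟨z, hzL⟩, IsPrimitiveRoot.of_map_of_injective (f := L.val) hz L.val.injective⟩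
  · apply IntermediateField.splits_of_splits
    · exact IsAlgClosed.splits _
    · intro x hx
      apply hroot
      rw [mem_rootSet] at hx ⊢
      refine ⟨hh0, ?_⟩
      rw [hh, map_mul, hx.2, zero_mul]
  · intro G hG hpG
    obtain ⟨g, hg, hgi, hgG, hpg⟩ := FieldL_factor _ G rfl hG hpG
    obtain ⟨b, hb⟩ := IsAlgClosed.exists_aeval_eq_zero Ω g (by
      rw [degree_eq_natDegree hg.ne_zero]
      exact_mod_cast hgi.natDegree_pos.ne')
    have hbi : IsIntegral L b := ⟨g, hg, by simpa [aeval_def] using hb⟩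
    have hmin : minpoly L b = g := (minpoly.eq_of_irreducible_of_monic hgi hb hg).symm
    have hfinE : FiniteDimensional L (L⟮b⟯) := adjoin.finiteDimensional hbi
    have hdeg : Module.finrank L (L⟮b⟯) = g.natDegree := by
      rw [adjoin.finrank hbi, hmin]
    set E : IntermediateField K Ω := (L⟮b⟯).restrictScalars K with hE
    have hKE : FiniteDimensional K (L⟮b⟯) := FiniteDimensional.trans K L (L⟮b⟯)
    have hE1 : FiniteDimensional K E := hKE
    have hLE : L ≤ E := by
      intro x hx
      exact (L⟮b⟯).algebraMap_mem ⟨x, hx⟩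
    have hFL : F ≤ L := le_sup_left.trans hle
    obtain ⟨x, hx⟩ := hF L hFL hLf
    obtain ⟨y, hy⟩ := hF E (hFL.trans hLE) hE1
    have hfr : Module.finrank K L * Module.finrank L (L⟮b⟯) = Module.finrank K (L⟮b⟯) :=
      Module.finrank_mul_finrank K L (L⟮b⟯)
    have hfr2 : Module.finrank K (L⟮b⟯) = Module.finrank K E := rfl
    rw [hfr2, hy, hx, hdeg] at hfr
    have hF0 : 0 < Module.finrank K F := Module.finrank_pos
    have h5 : p ^ x * g.natDegree = p ^ y := by
      apply Nat.eq_of_mul_eq_mul_left hF0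
      rw [← mul_assoc]
      exact hfr
    obtain ⟨k, _, hk⟩ := (Nat.dvd_prime_pow hp).1 (Dvd.intro_left _ h5)
    have hk0 : k = 0 := by
      by_contra hk0
      apply hpg
      rw [hk]
      exact dvd_pow_self p hk0
    rw [hk0, pow_zero] at hk
    obtain ⟨r, hr⟩ := Polynomial.exists_root_of_degree_eq_one (by
      rw [degree_eq_natDegree hg.ne_zero, hk]
      rfl : g.degree = 1)
    exact ⟨r, hr.dvd hgG⟩

end Pool.Agent.Work.MP_ae9a8c_lc
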