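import Pool.Agent.Work.MP_ae9a8c_lc.Defs

/-!
MODULE Four.  Fourier inversion on `(Z/ℓ)^m` with exponents in `Fin ℓ`.
-/

set_option autoImplicit false

namespace Pool.Agent.Work.MP_ae9a8c_lc

open PowerSeries

/-- The character. -/
def chi {R : Type} [CommRing R] {m ℓ : ℕ} (ζ : R) (g a : Ex m ℓ) : R :=
  ∏ i, (ζ ^ (g i : ℕ)) ^ (a i : ℕ)

private theorem Four_prod {κ : Type} [Field κ] {ℓ m : ℕ} (x : Fin m → κ) :
    ∑ a : Ex m ℓ, ∏ i, x i ^ (a i : ℕ) = ∏ i, ∑ k : Fin ℓ, x i ^ (k : ℕ) := by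
  rw [Finset.prod_univ_sum, Fintype.piFinset_univ]

private theorem Four_geom {κ : Type} [Field κ] {ℓ : ℕ} (x : κ) (hx : x ^ ℓ = 1) (h1 : x ≠ 1) :
    ∑ k : Fin ℓ, x ^ (k : ℕ) = 0 := by
  rw [Fin.sum_univ_eq_sum_range (fun k => x ^ k) ℓ]
  have h2 := geom_sum_mul x ℓ
  rw [hx, sub_self] at h2
  exact (mul_eq_zero.1 h2).resolve_right (sub_ne_zero.2 h1)

theorem sum_chi {κ : Type} [Field κ] {ℓ m : ℕ} {ζ : κ} (hζ : IsPrimitiveRoot ζ ℓ)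
    (g : Ex m ℓ) (hg : nz g) : ∑ a : Ex m ℓ, chi ζ g a = 0 := by
  unfold chi
  rw [Four_prod (fun i => ζ ^ (g i : ℕ))]
  obtain ⟨i, hi⟩ := hg
  refine Finset.prod_eq_zero (Finset.mem_univ i) (Four_geom _ ?_ ?_)
  · rw [← pow_mul, mul_comm, pow_mul, hζ.pow_eq_one, one_pow]
  · exact hζ.pow_ne_one_of_pos_of_lt hi (g i).2

theorem four {κ : Type} [Field κ] [CharZero κ] {ℓ m : ℕ} (hℓ : 0 < ℓ) {ζ : κ}
    (hζ : IsPrimitiveRoot ζ ℓ) (v : Ex m ℓ → PowerSeries κ) :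
    ∃ u : Ex m ℓ → PowerSeries κ, ∀ g, ∑ a : Ex m ℓ, C (chi ζ g a) * u a = v g := by
  classical
  have hζ0 : ζ ≠ 0 := hζ.ne_zero hℓ.ne'
  have hℓ0 : (ℓ : κ) ≠ 0 := Nat.cast_ne_zero.2 hℓ.ne'
  have key : ∀ g h : Ex m ℓ, ∑ a : Ex m ℓ, chi ζ g a * (chi ζ h a)⁻¹ =
      if g = h then (ℓ : κ) ^ m else 0 := by
    intro g h
    have e1 : ∀ a : Ex m ℓ, chi ζ g a * (chi ζ h a)⁻¹ =
        ∏ i, (ζ ^ (g i : ℕ) * (ζ ^ (h i : ℕ))⁻¹) ^ (a i : ℕ) := by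
      intro a
      unfold chi
      rw [← Finset.prod_inv_distrib, ← Finset.prod_mul_distrib]
      refine Finset.prod_congr rfl fun i _ => ?_
      rw [mul_pow, inv_pow]
    rw [Finset.sum_congr rfl fun a _ => e1 a, Four_prod]
    by_cases hgh : g = h
    · subst hgh
      rw [if_pos rfl]
      have e2 : ∀ i, ∑ k : Fin ℓ, (ζ ^ (g i : ℕ) * (ζ ^ (g i : ℕ))⁻¹) ^ (k : ℕ) = (ℓ : κ) := by
        intro i
        rw [mul_inv_cancel₀ (pow_ne_zero _ hζ0)]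
        simp
      rw [Finset.prod_congr rfl fun i _ => e2 i]
      simp
    · rw [if_neg hgh]
      obtain ⟨i, hi⟩ := Function.ne_iff.1 hgh
      refine Finset.prod_eq_zero (Finset.mem_univ i) (Four_geom _ ?_ ?_)
      · rw [mul_pow, inv_pow, ← pow_mul, ← pow_mul, mul_comm _ ℓ, mul_comm _ ℓ, pow_mul, pow_mul,
          hζ.pow_eq_one, one_pow, one_pow, inv_one, mul_one]
      · intro h1
        have h2 : ζ ^ (g i : ℕ) = ζ ^ (h i : ℕ) := by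
          rwa [mul_inv_eq_one₀ (pow_ne_zero _ hζ0)] at h1
        exact hi (Fin.ext (hζ.pow_inj (g i).2 (h i).2 h2))
  refine ⟨fun a => C ((ℓ : κ) ^ m)⁻¹ * ∑ h : Ex m ℓ, C (chi ζ h a)⁻¹ * v h, fun g => ?_⟩
  calc ∑ a : Ex m ℓ, C (chi ζ g a) * (C ((ℓ : κ) ^ m)⁻¹ * ∑ h : Ex m ℓ, C (chi ζ h a)⁻¹ * v h)
      = ∑ a : Ex m ℓ, ∑ h : Ex m ℓ,
          C ((ℓ : κ) ^ m)⁻¹ * (C (chi ζ g a * (chi ζ h a)⁻¹) * v h) := by
        refine Finset.sum_congr rfl fun a _ => ?_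
        rw [Finset.mul_sum, Finset.mul_sum]
        refine Finset.sum_congr rfl fun h _ => ?_
        rw [map_mul]
        ring
    _ = ∑ h : Ex m ℓ, C ((ℓ : κ) ^ m)⁻¹ * (C (∑ a : Ex m ℓ, chi ζ g a * (chi ζ h a)⁻¹) * v h) := by
        rw [Finset.sum_comm]
        refine Finset.sum_congr rfl fun h _ => ?_
        rw [map_sum, Finset.sum_mul, Finset.mul_sum]
    _ = v g := by
        rw [Finset.sum_eq_single g]
        · rw [key, if_pos rfl, ← mul_assoc, ← map_mul, inv_mul_cancel₀ (pow_ne_zero _ hℓ0),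
            map_one, one_mul]
        · intro h _ hne
          rw [key, if_neg hne.symm, map_zero, zero_mul, mul_zero]
        · intro h
          exact absurd (Finset.mem_univ g) h

end Pool.Agent.Work.MP_ae9a8c_lc
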