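import Pool.Agent.Work.MP_ae9a8c_lc.Defs

/-!
MODULE Kum.  Kummer independence over polynomials (characteristic 0, logarithmic derivatives).

Claim: `κ` a field of characteristic 0, `ℓ` prime, `β i` distinct and nonzero, `w i` power series
with `w i ^ ℓ = P i := (s + t)^ℓ - β i` and nonzero constant coefficient.  Then the products
`W^a = ∏ w i ^ (a i)`, `a i < ℓ`, are linearly independent over `κ[t]`.

PROOF.  Write `'` for d/dt (`PowerSeries.derivativeFun` or `PowerSeries.derivative`).  From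
`ℓ w_i^(ℓ-1) w_i' = P_i'` one gets `ℓ P_i w_i' = P_i' w_i` (multiply by `w_i`), hence with
`P = ∏ P_k` and `Q_a = Σ_i a_i P_i' ∏_(k ≠ i) P_k ∈ κ[t]`:   `ℓ P (W^a)' = Q_a W^a`.
Suppose there is a nontrivial relation `Σ_a p_a W^a = 0`; take one with the least number of nonzero
`p_a`.  It has at least two nonzero terms (`W^a` is a unit of the power series ring).  Let
`p_e ≠ 0`, `p_a ≠ 0`, `e ≠ a`.  Differentiating and multiplying by `ℓ P`:
`Σ_a (ℓ P p_a' + p_a Q_a) W^a = 0`.  Multiply this by `p_e`, subtract the original relation times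
`(ℓ P p_e' + p_e Q_e)`: the coefficient of `W^e` vanishes and zero coefficients stay zero, so by
minimality all coefficients vanish:
  (*)   `ℓ P (p_e p_a' - p_a p_e') = p_a p_e (Q_e - Q_a)`   in `κ[t]`.
Choose `i` with `a_i ≠ e_i` and (after mapping to the algebraic closure of `κ`, or after choosing an
irreducible factor of `P_i`) a root `γ` of `P_i`.  It is a simple root (`P_i' (γ) = ℓ (s+γ)^(ℓ-1)`,
and `(s+γ)^ℓ = β_i ≠ 0`), and not a root of `P_k`, `k ≠ i`.  Write `p_e = (t-γ)^x u`,
`p_a = (t-γ)^y v` with `u(γ) v(γ) ≠ 0`.  Then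
`p_e p_a' - p_a p_e' = (t-γ)^(x+y-1) ((y - x) u v + (t-γ)(u v' - v u'))` (multiply both sides by
`t-γ` to avoid the exponent -1) and `P_i = (t-γ) P_i°` with `P_i°(γ) = P_i'(γ)`.  Cancel
`(t-γ)^(x+y)` in (*) and evaluate at `γ`: 
`ℓ (y - x) u(γ) v(γ) P_i'(γ) ∏_(k≠i) P_k(γ) = u(γ) v(γ) (e_i - a_i) P_i'(γ) ∏_(k≠i) P_k(γ)`,
so `ℓ (y - x) = e_i - a_i` in a field of characteristic 0, hence in the integers; but
`0 < |e_i - a_i| < ℓ`, a contradiction.
-/

set_option autoImplicit false

namespace Pool.Agent.Work.MP_ae9a8c_lc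

open PowerSeries

private noncomputable def Kum_P {κ : Type} [Field κ] (ℓ : ℕ) (s b : κ) : Polynomial κ :=
  (Polynomial.C s + Polynomial.X) ^ ℓ - Polynomial.C b

private lemma Kum_P_coe {κ : Type} [Field κ] (ℓ : ℕ) (s b : κ) :
    ((Kum_P ℓ s b : Polynomial κ) : PowerSeries κ) = base ℓ s b := by
  unfold Kum_P base
  push_cast
  rfl

private noncomputable def Kum_T {κ : Type} [Field κ] {m : ℕ} (ℓ : ℕ) (s : κ) (β : Fin m → κ)
    (i : Fin m) : Polynomial κ :=
  Polynomial.derivative (Kum_P ℓ s (β i)) * ∏ k ∈ Finset.univ.erase i, Kum_P ℓ s (β k)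

private noncomputable def Kum_Q {κ : Type} [Field κ] {m : ℕ} (ℓ : ℕ) (s : κ) (β : Fin m → κ)
    (a : Ex m ℓ) : Polynomial κ :=
  ∑ i, ((a i : ℕ) : Polynomial κ) * Kum_T ℓ s β i

/-- `ℓ P D(W^a) = Q_a W^a`. -/
private lemma Kum_log {κ : Type} [Field κ] [CharZero κ] {ℓ m : ℕ} (hℓ : ℓ.Prime) (s : κ)
    (β : Fin m → κ) (w : Fin m → PowerSeries κ) (hw : ∀ i, w i ^ ℓ = base ℓ s (β i))
    (a : Ex m ℓ) :
    (ℓ : PowerSeries κ) * ((∏ k, Kum_P ℓ s (β k) : Polynomial κ) : PowerSeries κ) *
      d⁄dX κ (∏ i, w i ^ (a i : ℕ)) = (Kum_Q ℓ s β a : PowerSeries κ) * ∏ i, w i ^ (a i : ℕ) := by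
  set P : PowerSeries κ := ((∏ k, Kum_P ℓ s (β k) : Polynomial κ) : PowerSeries κ) with hP
  have hbase : ∀ i, (ℓ : PowerSeries κ) * P * d⁄dX κ (w i) = (Kum_T ℓ s β i : PowerSeries κ) * w i := by
    intro i
    have h1 : d⁄dX κ (w i ^ ℓ) * w i = d⁄dX κ (base ℓ s (β i)) * w i := by rw [hw i]
    rw [← Kum_P_coe, derivative_coe, derivative_pow] at h1
    have h2 : (ℓ : PowerSeries κ) * (Kum_P ℓ s (β i) : PowerSeries κ) * d⁄dX κ (w i) =
        (Polynomial.derivative (Kum_P ℓ s (β i)) : PowerSeries κ) * w i := by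
      rw [← h1, Kum_P_coe, ← hw i]
      have hpow : w i ^ ℓ = w i ^ (ℓ - 1) * w i := by
        rw [← pow_succ, Nat.sub_add_cancel hℓ.one_le]
      rw [hpow]
      ring
    have h3 : P = (Kum_P ℓ s (β i) : PowerSeries κ) *
        ((∏ k ∈ Finset.univ.erase i, Kum_P ℓ s (β k) : Polynomial κ) : PowerSeries κ) := by
      rw [hP, ← Finset.mul_prod_erase _ _ (Finset.mem_univ i), Polynomial.coe_mul]
    rw [h3, Kum_T, Polynomial.coe_mul]
    linear_combination ((∏ k ∈ Finset.univ.erase i, Kum_P ℓ s (β k) : Polynomial κ) : PowerSeries κ) * h2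
  have hpow : ∀ (i : Fin m) (n : ℕ), (ℓ : PowerSeries κ) * P * d⁄dX κ (w i ^ n) =
      (n : PowerSeries κ) * (Kum_T ℓ s β i : PowerSeries κ) * w i ^ n := by
    intro i n
    induction n with
    | zero => simp
    | succ n ih =>
      rw [pow_succ, Derivation.leibniz, smul_eq_mul, smul_eq_mul]
      push_cast
      linear_combination (w i) * ih + (w i ^ n) * hbase i
  have hprod : ∀ t : Finset (Fin m), (ℓ : PowerSeries κ) * P * d⁄dX κ (∏ i ∈ t, w i ^ (a i : ℕ)) =
      (∑ i ∈ t, ((a i : ℕ) : PowerSeries κ) * (Kum_T ℓ s β i : PowerSeries κ)) *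
        ∏ i ∈ t, w i ^ (a i : ℕ) := by
    intro t
    induction t using Finset.induction_on with
    | empty => simp
    | insert i t hi ih =>
      rw [Finset.prod_insert hi, Finset.sum_insert hi, Derivation.leibniz, smul_eq_mul, smul_eq_mul]
      linear_combination (w i ^ (a i : ℕ)) * ih + (∏ i ∈ t, w i ^ (a i : ℕ)) * hpow i (a i)
  have h := hprod Finset.univ
  rw [h]
  congr 1
  unfold Kum_Q
  rw [← Polynomial.coeToPowerSeries.ringHom_apply, map_sum]
  refine Finset.sum_congr rfl fun i _ => ?_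
  rw [map_mul, map_natCast]
  rfl

private lemma Kum_der {F : Type} [Field F] (γ : F) (x : ℕ) (u : Polynomial F) :
    (Polynomial.X - Polynomial.C γ) *
      Polynomial.derivative ((Polynomial.X - Polynomial.C γ) ^ x * u) =
    (Polynomial.X - Polynomial.C γ) ^ x * ((x : Polynomial F) * u +
      (Polynomial.X - Polynomial.C γ) * Polynomial.derivative u) := by
  rw [Polynomial.derivative_mul, Polynomial.derivative_pow, Polynomial.derivative_sub,
    Polynomial.derivative_X, Polynomial.derivative_C]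
  rcases x with _ | x
  · simp
  · rw [Nat.add_sub_cancel, Polynomial.C_eq_natCast]
    ring

/-- The local computation at a root of `P i`. -/
private lemma Kum_local {F : Type} [Field F] [CharZero F] [IsAlgClosed F] {ℓ m : ℕ} (hℓ : ℓ.Prime)
    (s : F) (β : Fin m → F) (hβ : ∀ i, β i ≠ 0) (hd : Function.Injective β) (a e : Ex m ℓ)
    (i : Fin m) (hi : a i ≠ e i) (f g : Polynomial F) (hf : f ≠ 0) (hg : g ≠ 0)
    (h : (ℓ : Polynomial F) * (∏ k, Kum_P ℓ s (β k)) *
      (f * Polynomial.derivative g - g * Polynomial.derivative f) =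
      g * f * (Kum_Q ℓ s β e - Kum_Q ℓ s β a)) : False := by
  have hevP : ∀ (k : Fin m) (x : F), (Kum_P ℓ s (β k)).eval x = (s + x) ^ ℓ - β k := by
    intro k x
    simp [Kum_P]
  obtain ⟨r, hr⟩ := IsAlgClosed.exists_pow_nat_eq (β i) hℓ.pos
  set γ : F := r - s with hγ
  have hroot : ∀ k, (Kum_P ℓ s (β k)).eval γ = β i - β k := by
    intro k
    rw [hevP, hγ, add_sub_cancel, hr]
  have hr0 : r ≠ 0 := by
    rintro rfl
    rw [zero_pow hℓ.ne_zero] at hr
    exact hβ i hr.symm
  obtain ⟨P', hP'⟩ := Polynomial.dvd_iff_isRoot.2 (show (Kum_P ℓ s (β i)).IsRoot γ by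
    rw [Polynomial.IsRoot, hroot, sub_self])
  have hP'γ : P'.eval γ = (Polynomial.derivative (Kum_P ℓ s (β i))).eval γ := by
    rw [hP', Polynomial.derivative_mul]
    simp
  have hder : (Polynomial.derivative (Kum_P ℓ s (β i))).eval γ = ℓ * r ^ (ℓ - 1) := by
    unfold Kum_P
    rw [Polynomial.derivative_sub, Polynomial.derivative_pow, Polynomial.derivative_C]
    simp [hγ]
  set R : Polynomial F := ∏ k ∈ Finset.univ.erase i, Kum_P ℓ s (β k) with hR
  have hRγ : R.eval γ ≠ 0 := by
    rw [hR, Polynomial.eval_prod, Finset.prod_ne_zero_iff]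
    intro k hk
    rw [hroot]
    intro h0
    exact Finset.ne_of_mem_erase hk (hd (sub_eq_zero.1 h0)).symm
  have hP'0 : P'.eval γ ≠ 0 := by
    rw [hP'γ, hder]
    exact mul_ne_zero (by exact_mod_cast hℓ.ne_zero) (pow_ne_zero _ hr0)
  have hT : ∀ k, (Kum_T ℓ s β k).eval γ = if k = i then P'.eval γ * R.eval γ else 0 := by
    intro k
    split_ifs with hk
    · subst hk
      rw [Kum_T, Polynomial.eval_mul, ← hP'γ]
    · rw [Kum_T, Polynomial.eval_mul, Polynomial.eval_prod]
      rw [Finset.prod_eq_zero (Finset.mem_erase.2 ⟨Ne.symm hk, Finset.mem_univ i⟩)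
        (by rw [hroot, sub_self]), mul_zero]
  have hQ : ∀ b : Ex m ℓ, (Kum_Q ℓ s β b).eval γ = ((b i : ℕ) : F) * (P'.eval γ * R.eval γ) := by
    intro b
    unfold Kum_Q
    rw [Polynomial.eval_finsetSum]
    simp only [Polynomial.eval_mul, Polynomial.eval_natCast, hT, mul_ite, mul_zero]
    rw [Finset.sum_ite_eq']
    simp
  obtain ⟨u, hu, hud⟩ := Polynomial.exists_eq_pow_rootMultiplicity_mul_and_not_dvd f hf γ
  obtain ⟨v, hv, hvd⟩ := Polynomial.exists_eq_pow_rootMultiplicity_mul_and_not_dvd g hg γ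
  obtain ⟨x, hx⟩ : ∃ x, x = f.rootMultiplicity γ := ⟨_, rfl⟩
  obtain ⟨y, hy⟩ : ∃ y, y = g.rootMultiplicity γ := ⟨_, rfl⟩
  rw [← hx] at hu
  rw [← hy] at hv
  have hu0 : u.eval γ ≠ 0 := fun h0 => hud (Polynomial.dvd_iff_isRoot.2 h0)
  have hv0 : v.eval γ ≠ 0 := fun h0 => hvd (Polynomial.dvd_iff_isRoot.2 h0)
  have hprod : (∏ k, Kum_P ℓ s (β k)) = (Polynomial.X - Polynomial.C γ) * P' * R := by
    rw [← Finset.mul_prod_erase _ _ (Finset.mem_univ i), ← hP']
  have hf' := Kum_der γ x u
  have hg' := Kum_der γ y v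
  rw [← hu] at hf'
  rw [← hv] at hg'
  have hX : (Polynomial.X - Polynomial.C γ) ^ (x + y) ≠ 0 :=
    pow_ne_zero _ (Polynomial.X_sub_C_ne_zero γ)
  have hkey : (ℓ : Polynomial F) * P' * R * (((y : Polynomial F) - (x : Polynomial F)) * u * v +
      (Polynomial.X - Polynomial.C γ) * (u * Polynomial.derivative v - v * Polynomial.derivative u)) =
      u * v * (Kum_Q ℓ s β e - Kum_Q ℓ s β a) := by
    apply mul_left_cancel₀ hX
    rw [hprod] at h
    have h' : (ℓ : Polynomial F) * P' * R * (f * ((Polynomial.X - Polynomial.C γ) ^ y *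
        ((y : Polynomial F) * v + (Polynomial.X - Polynomial.C γ) * Polynomial.derivative v)) -
        g * ((Polynomial.X - Polynomial.C γ) ^ x * ((x : Polynomial F) * u +
      (Polynomial.X - Polynomial.C γ) * Polynomial.derivative u))) =
        g * f * (Kum_Q ℓ s β e - Kum_Q ℓ s β a) := by
      rw [← hg', ← hf']
      linear_combination h
    rw [hu, hv] at h'
    rw [pow_add]
    linear_combination h'
  have hev := congrArg (Polynomial.eval γ) hkey
  simp only [Polynomial.eval_mul, Polynomial.eval_add, Polynomial.eval_sub, Polynomial.eval_X,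
    Polynomial.eval_C, sub_self, zero_mul, add_zero, Polynomial.eval_natCast, hQ] at hev
  have h3 : (ℓ : F) * ((y : F) - x) = ((e i : ℕ) : F) - ((a i : ℕ) : F) := by
    have h4 : P'.eval γ * R.eval γ * (u.eval γ * v.eval γ) ≠ 0 :=
      mul_ne_zero (mul_ne_zero hP'0 hRγ) (mul_ne_zero hu0 hv0)
    apply mul_left_cancel₀ h4
    linear_combination hev
  have h5 : (ℓ : ℤ) * ((y : ℤ) - x) = ((e i : ℕ) : ℤ) - ((a i : ℕ) : ℤ) := by
    have : (((ℓ : ℤ) * ((y : ℤ) - x) : ℤ) : F) = ((((e i : ℕ) : ℤ) - ((a i : ℕ) : ℤ) : ℤ) : F) := by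
      push_cast
      exact h3
    exact_mod_cast this
  have h6 : (ℓ : ℤ) ∣ ((e i : ℕ) : ℤ) - ((a i : ℕ) : ℤ) := ⟨_, h5.symm⟩
  have h7 : ((e i : ℕ) : ℤ) - ((a i : ℕ) : ℤ) = 0 := by
    apply Int.eq_zero_of_abs_lt_dvd h6
    have := (e i).2
    have := (a i).2
    rw [abs_lt]
    constructor <;> omega
  apply hi
  apply Fin.ext
  omega

open Classical in
private lemma Kum_closed {κ : Type} [Field κ] [CharZero κ] [IsAlgClosed κ] {ℓ m : ℕ}
    (hℓ : ℓ.Prime) (s : κ) (β : Fin m → κ) (hβ : ∀ i, β i ≠ 0) (hd : Function.Injective β)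
    (w : Fin m → PowerSeries κ) (hw : ∀ i, w i ^ ℓ = base ℓ s (β i))
    (hu : ∀ i, constantCoeff (w i) ≠ 0) :
    ∀ (n : ℕ) (p : Ex m ℓ → Polynomial κ), (Finset.univ.filter fun a => p a ≠ 0).card = n →
    ∑ a : Ex m ℓ, (p a : PowerSeries κ) * ∏ i, w i ^ (a i : ℕ) = 0 → p = 0 := by
  classical
  intro n
  induction n using Nat.strong_induction_on with
  | _ n ih =>
    intro p hn hp
    by_contra hp0
    obtain ⟨e, he⟩ : ∃ e, p e ≠ 0 := by
      by_contra hall
      push Not at hall
      exact hp0 (funext hall)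
    set P : Polynomial κ := ∏ k, Kum_P ℓ s (β k) with hP
    set p' : Ex m ℓ → Polynomial κ := fun a =>
      p e * ((ℓ : Polynomial κ) * P * Polynomial.derivative (p a) + p a * Kum_Q ℓ s β a) -
        ((ℓ : Polynomial κ) * P * Polynomial.derivative (p e) + p e * Kum_Q ℓ s β e) * p a with hp'
    have hsum : ∑ a : Ex m ℓ, (p' a : PowerSeries κ) * ∏ i, w i ^ (a i : ℕ) = 0 := by
      have h1 := congrArg (d⁄dX κ) hp
      rw [map_sum, map_zero] at h1
      have h2 : ∑ a : Ex m ℓ, (((ℓ : Polynomial κ) * P * Polynomial.derivative (p a) +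
          p a * Kum_Q ℓ s β a : Polynomial κ) : PowerSeries κ) * ∏ i, w i ^ (a i : ℕ) = 0 := by
        have h3 := congrArg (fun f => (ℓ : PowerSeries κ) * (P : PowerSeries κ) * f) h1
        simp only [mul_zero] at h3
        rw [← h3, Finset.mul_sum]
        refine Finset.sum_congr rfl fun a _ => ?_
        rw [Derivation.leibniz, smul_eq_mul, smul_eq_mul, derivative_coe]
        push_cast
        have hℓc : ((ℓ : Polynomial κ) : PowerSeries κ) = (ℓ : PowerSeries κ) :=
          map_natCast (Polynomial.coeToPowerSeries.ringHom (R := κ)) ℓ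
        rw [hℓc]
        have h4 := Kum_log hℓ s β w hw a
        rw [← hP] at h4
        linear_combination (-(p a : PowerSeries κ)) * h4
      have h5 := congrArg (fun f => (p e : PowerSeries κ) * f) h2
      have h6 := congrArg (fun f => (((ℓ : Polynomial κ) * P * Polynomial.derivative (p e) +
        p e * Kum_Q ℓ s β e : Polynomial κ) : PowerSeries κ) * f) hp
      simp only [mul_zero] at h5 h6
      rw [Finset.mul_sum] at h5 h6
      rw [← sub_eq_zero.2 (h5.trans h6.symm), ← Finset.sum_sub_distrib]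
      refine Finset.sum_congr rfl fun a _ => ?_
      rw [hp']
      push_cast
      ring
    have hcard : (Finset.univ.filter fun a => p' a ≠ 0).card < n := by
      rw [← hn]
      apply Finset.card_lt_card
      rw [Finset.ssubset_iff_of_subset]
      · refine ⟨e, by simpa using he, ?_⟩
        simp only [Finset.mem_filter, Finset.mem_univ, true_and, not_not, hp']
        ring
      · intro a ha
        simp only [Finset.mem_filter, Finset.mem_univ, true_and] at ha ⊢
        intro h0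
        apply ha
        rw [hp']
        simp only [h0]
        simp
    have hzero := ih _ hcard p' rfl hsum
    by_cases hall : ∀ a, a ≠ e → p a = 0
    · rw [Finset.sum_eq_single e (fun a _ ha => by rw [hall a ha]; simp) (by simp)] at hp
      rcases mul_eq_zero.1 hp with h | h
      · exact he (by exact_mod_cast h)
      · rw [Finset.prod_eq_zero_iff] at h
        obtain ⟨i, _, hi⟩ := h
        apply hu i
        rw [eq_zero_of_pow_eq_zero hi, map_zero]
    · push Not at hall
      obtain ⟨a, hae, ha⟩ := hall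
      obtain ⟨i, hi⟩ := Function.ne_iff.1 hae
      have h7 := congrFun hzero a
      rw [hp', Pi.zero_apply] at h7
      simp only at h7
      exact Kum_local hℓ s β hβ hd a e i hi (p e) (p a) he ha (by
        rw [← hP]
        linear_combination h7)

theorem kummer {κ : Type} [Field κ] [CharZero κ] {ℓ m : ℕ} (hℓ : ℓ.Prime) (s : κ)
    (β : Fin m → κ) (hβ : ∀ i, β i ≠ 0) (hd : Function.Injective β)
    (w : Fin m → PowerSeries κ) (hw : ∀ i, w i ^ ℓ = base ℓ s (β i))
    (hu : ∀ i, constantCoeff (w i) ≠ 0)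
    (p : Ex m ℓ → Polynomial κ)
    (hp : ∑ a : Ex m ℓ, (p a : PowerSeries κ) * ∏ i, w i ^ (a i : ℕ) = 0) : p = 0 := by
  classical
  set φ := algebraMap κ (AlgebraicClosure κ) with hφ
  have hφi : Function.Injective φ := φ.injective
  have hcoe : ∀ q : Polynomial κ, (q : PowerSeries κ).map φ = ((q.map φ : Polynomial _) :
      PowerSeries (AlgebraicClosure κ)) := by
    intro q
    ext n
    simp
  have h := Kum_closed hℓ (φ s) (fun i => φ (β i)) (fun i => by
      rw [Ne, _root_.map_eq_zero]; exact hβ i) (fun i j hij => hd (hφi hij))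
    (fun i => (w i).map φ) (fun i => by
      rw [← map_pow, hw i]
      unfold base
      simp) (fun i => by
      rw [← coeff_zero_eq_constantCoeff_apply, coeff_map, coeff_zero_eq_constantCoeff_apply, Ne,
        _root_.map_eq_zero]
      exact hu i) _ (fun a => (p a).map φ) rfl (by
      have h1 := congrArg (PowerSeries.map φ) hp
      rw [map_sum, map_zero] at h1
      rw [← h1]
      refine Finset.sum_congr rfl fun a _ => ?_
      rw [map_mul, map_prod, hcoe]
      simp only [map_pow])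
  funext a
  have h2 := congrFun h a
  simp only [Pi.zero_apply] at h2
  exact Polynomial.map_injective φ hφi (by rw [h2, Pi.zero_apply, Polynomial.map_zero])

end Pool.Agent.Work.MP_ae9a8c_lc
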