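import Mathlib

/-!
MODULE LiftMat (Mathlib only).  Lifting an approximate solution of a linear system which is surjective
modulo every maximal ideal.

PROOF.  1. The linear map `A : R^I → R^J` is onto.  Let `Q = R^J ⧸ range A` (finitely generated).  For
every maximal ideal `M`, `Q = M Q` (every `y` is `A x` plus a vector with coordinates in `M`), so by
Nakayama (`Submodule.exists_sub_one_mem_and_smul_eq_zero_of_fg_of_le_smul`) some `r_M ∈ 1 + M` kills
`Q`.  The annihilator of `Q` is therefore not contained in any maximal ideal, so it contains `1`, `Q = 0`.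
2. `A T` has all coordinates in the Jacobson radical `𝔧 = ⋂ M`.  By 1, for each basis vector `e_j` choose
`x_j` with `A x_j = e_j`; `E = Σ_j (A T)_j x_j` has `A E = A T` and all coordinates of `E` are in every `M`.
`F = T - E`.
-/

set_option autoImplicit false

namespace Pool.Agent.Work.MP_ae9a8c_lc

private theorem liftMat_onto {R : Type} [CommRing R] {I J : Type} [Fintype I] [Fintype J]
    (A : Matrix J I R)
    (hA : ∀ M : Ideal R, M.IsMaximal → ∀ y : J → R, ∃ x : I → R, ∀ j, (A.mulVec x) j - y j ∈ M) :
    ∀ y : J → R, ∃ x : I → R, A.mulVec x = y := by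
  classical
  set N : Submodule R (J → R) := LinearMap.range A.mulVecLin with hN
  have hmem : ∀ y : J → R, y ∈ N ↔ ∃ x, A.mulVec x = y := by
    intro y
    rw [hN, LinearMap.mem_range]
    rfl
  -- for every maximal ideal some element outside kills the cokernel
  have hkill : ∀ M : Ideal R, M.IsMaximal → ∃ r : R, r - 1 ∈ M ∧ ∀ y : J → R, r • y ∈ N := by
    intro M hM
    have h1 : (⊤ : Submodule R ((J → R) ⧸ N)) ≤ M • (⊤ : Submodule R ((J → R) ⧸ N)) := by
      rintro q -
      obtain ⟨y, rfl⟩ := N.mkQ_surjective q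
      obtain ⟨x, hx⟩ := hA M hM y
      have h2 : y = A.mulVec x - ∑ j, (A.mulVec x j - y j) • (Pi.single j (1 : R) : J → R) := by
        funext i
        rw [Pi.sub_apply, Finset.sum_apply]
        simp [Pi.single_apply]
      have h3 : N.mkQ (A.mulVec x) = 0 := by
        rw [Submodule.mkQ_apply, Submodule.Quotient.mk_eq_zero, hmem]
        exact ⟨x, rfl⟩
      rw [h2, map_sub, h3, zero_sub, map_sum]
      apply Submodule.neg_mem
      apply Submodule.sum_mem
      intro j _
      rw [map_smul]
      exact Submodule.smul_mem_smul (hx j) Submodule.mem_top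
    obtain ⟨r, hr1, hr2⟩ := Submodule.exists_sub_one_mem_and_smul_eq_zero_of_fg_of_le_smul M
      (⊤ : Submodule R ((J → R) ⧸ N)) (Module.Finite.fg_top) h1
    refine ⟨r, hr1, fun y => ?_⟩
    have h4 := hr2 (N.mkQ y) Submodule.mem_top
    rw [← map_smul, Submodule.mkQ_apply, Submodule.Quotient.mk_eq_zero] at h4
    exact h4
  set K : Ideal R :=
    { carrier := {r | ∀ y : J → R, r • y ∈ N}
      add_mem' := by
        intro a b ha hb y
        rw [add_smul]
        exact N.add_mem (ha y) (hb y)
      zero_mem' := by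
        intro y
        rw [zero_smul]
        exact N.zero_mem
      smul_mem' := by
        intro c x hx y
        rw [smul_eq_mul, mul_smul]
        exact N.smul_mem c (hx y) } with hK
  have hKtop : K = ⊤ := by
    by_contra hne
    obtain ⟨M, hM, hKM⟩ := Ideal.exists_le_maximal K hne
    obtain ⟨r, hr1, hr2⟩ := hkill M hM
    have hr3 : r ∈ K := hr2
    have h5 : (1 : R) ∈ M := by
      have := M.sub_mem (hKM hr3) hr1
      rwa [sub_sub_cancel] at this
    exact hM.ne_top ((Ideal.eq_top_iff_one M).mpr h5)
  intro y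
  have h6 : (1 : R) ∈ K := by rw [hKtop]; exact Submodule.mem_top
  have h7 : (1 : R) • y ∈ N := h6 y
  rw [one_smul, hmem] at h7
  exact h7

theorem lift_mat {R : Type} [CommRing R] {I J : Type} [Fintype I] [Fintype J]
    (A : Matrix J I R)
    (hA : ∀ M : Ideal R, M.IsMaximal → ∀ y : J → R, ∃ x : I → R, ∀ j, (A.mulVec x) j - y j ∈ M)
    (T : I → R) (hT : ∀ M : Ideal R, M.IsMaximal → ∀ j, (A.mulVec T) j ∈ M) :
    ∃ F : I → R, A.mulVec F = 0 ∧ ∀ M : Ideal R, M.IsMaximal → ∀ i, F i - T i ∈ M := by
  classical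
  have h1 := liftMat_onto A hA
  choose x hx using fun j : J => h1 (Pi.single j (1 : R))
  set E : I → R := ∑ j, (A.mulVec T) j • x j with hE
  have hAE : A.mulVec E = A.mulVec T := by
    rw [hE, Matrix.mulVec_sum]
    funext i
    rw [Finset.sum_apply]
    simp only [Matrix.mulVec_smul, hx, Pi.smul_apply, Pi.single_apply, smul_eq_mul]
    simp
  refine ⟨T - E, ?_, ?_⟩
  · rw [Matrix.mulVec_sub, hAE, sub_self]
  · intro M hM i
    rw [Pi.sub_apply, sub_sub_cancel_left]
    apply M.neg_mem
    rw [hE, Finset.sum_apply]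
    apply M.sum_mem
    intro j _
    rw [Pi.smul_apply, smul_eq_mul]
    exact M.mul_mem_right _ (hT M hM j)

end Pool.Agent.Work.MP_ae9a8c_lc
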