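import Pool.Agent.Work.MP_ae9a8c_lc.SurjM
import Pool.Agent.Work.MP_ae9a8c_lc.LiftMat

/-!
MODULE Lift (assembly of SurjM and LiftMat).

PROOF.  Let `n` be larger than `n₀(M)` of `surjM` for each of the finitely many maximal ideals (`h.fin`)
and prime to `p` (`n` or `n + 1`).  The matrix `A` has columns `u : Idx m ℓ n` and rows indexed by
`({g // nz g} × Fin n) ⊕ ({g // nz g} × Fin n) ⊕ Fin n`; the entry of the row `(g, k)` of the first
family is `coeff k (mon (C (ζ c) + X) (tw ζ g (sr ..)) u.1.1 u.1.2)`, so that `(A.mulVec F)` is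
`coeff k (ev F ..)` (`algebraMap R R⟦X⟧ r = C r`, `coeff_C_mul`).  Surjectivity modulo `M` is `surjM`
(`y = Σ_(k<n) y_k X^k`).  `T = cst P` with `P = (X - C (ζ c))^n (X - C α)^n` of degree `≤ 2n`:
`ev T z W = aeval z P` (`ev_cst`), which at `C (ζ c) + X` and `C α + X` is divisible by `X^n` (coefficients
`k < n` are `0`); at `C (ζ α) + X` it is `(C (ζ α - ζ c) + X)^n (C (ζ α - α) + X)^n`, and modulo `M₁`
`ζ α - ζ c ≡ 0`, modulo `M ≠ M₁`: `ζ α - α ≡ 0`, so the coefficients `k < n` are in every maximal ideal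
(reduce modulo `M`).  Apply `lift_mat`.
-/

set_option autoImplicit false

namespace Pool.Agent.Work.MP_ae9a8c_lc

open PowerSeries

private theorem lf_coeff {R : Type} [CommRing R] {m ℓ n : ℕ} (F : Idx m ℓ n → R)
    (z : PowerSeries R) (W : Fin m → PowerSeries R) (k : ℕ) :
    ∑ u : Idx m ℓ n, coeff k (mon z W (u.1.1 : ℕ) u.1.2) * F u = coeff k (ev F z W) := by
  unfold ev
  rw [map_sum]
  refine Finset.sum_congr rfl fun u _ => ?_
  rw [← PowerSeries.C_eq_algebraMap, coeff_C_mul, mul_comm]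

private theorem lf_aeval {R : Type} [CommRing R] (z : PowerSeries R) (a b : R) (n : ℕ) :
    Polynomial.aeval z ((Polynomial.X - Polynomial.C a) ^ n * (Polynomial.X - Polynomial.C b) ^ n) =
      (z - C a) ^ n * (z - C b) ^ n := by
  rw [map_mul, map_pow, map_pow, map_sub, map_sub, Polynomial.aeval_X, Polynomial.aeval_C,
    Polynomial.aeval_C, ← PowerSeries.C_eq_algebraMap, ← PowerSeries.C_eq_algebraMap]

private theorem lf_deg {R : Type} [CommRing R] (a b : R) (n : ℕ) :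
    ((Polynomial.X - Polynomial.C a) ^ n * (Polynomial.X - Polynomial.C b) ^ n).natDegree ≤
      2 * n := by
  have h1 : ∀ c : R, ((Polynomial.X - Polynomial.C c) ^ n).natDegree ≤ n := by
    intro c
    refine Polynomial.natDegree_pow_le.trans ?_
    have := Polynomial.natDegree_X_sub_C_le c
    nlinarith
  refine Polynomial.natDegree_mul_le.trans ?_
  have := h1 a
  have := h1 b
  omega

/-- a factor which is `X` modulo `M` -/
private theorem lf_mem {R : Type} [CommRing R] (M : Ideal R) (a : R) (ha : a ∈ M)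
    (G : PowerSeries R) (n k : ℕ) (hk : k < n) : coeff k ((C a + X) ^ n * G) ∈ M := by
  rw [← Ideal.Quotient.eq_zero_iff_mem, ← coeff_map, map_mul, map_pow, map_add,
    PowerSeries.map_C, PowerSeries.map_X, Ideal.Quotient.eq_zero_iff_mem.2 ha, map_zero, zero_add]
  exact (PowerSeries.X_pow_dvd_iff.1 (dvd_mul_right _ _)) k hk

theorem lift {R : Type} [CommRing R] [IsDomain R] {p ℓ : ℕ} {ζ : R} (h : Ctx R p ℓ ζ)
    (M₁ : Ideal R) [M₁.IsMaximal] {m : ℕ} (β : Fin m → R) (hβ : ∀ i, IsUnit (β i))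
    (hd : ∀ i j, i ≠ j → IsUnit (β i - β j)) (c α : R) (hc : IsUnit c) (w ω : Fin m → R)
    (hwu : ∀ i, IsUnit (w i)) (hωu : ∀ i, IsUnit (ω i))
    (hw : ∀ i, w i ^ ℓ = c ^ ℓ - β i) (hω : ∀ i, ω i ^ ℓ = α ^ ℓ - β i)
    (hα₁ : α - c ∈ M₁) (hα : ∀ M : Ideal R, M.IsMaximal → M ≠ M₁ → α ∈ M)
    (hωw : ∀ i, ω i - w i ∈ M₁) :
    ∃ (n : ℕ) (F : Idx m ℓ n → R), ¬ p ∣ n ∧
      (∀ g : Ex m ℓ, nz g → (X : PowerSeries R) ^ n ∣
        ev F (C (ζ * c) + X : PowerSeries R) (tw ζ g (sr ℓ β (ζ * c) w))) ∧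
      (∀ g : Ex m ℓ, nz g → (X : PowerSeries R) ^ n ∣
        ev F (C α + X : PowerSeries R) (tw ζ g (sr ℓ β α ω))) ∧
      (X : PowerSeries R) ^ n ∣ ev F (C (ζ * α) + X : PowerSeries R) (sr ℓ β (ζ * α) ω) ∧
      ∀ M : Ideal R, M.IsMaximal → ∀ u, F u - cst ((Polynomial.X - Polynomial.C (ζ * c)) ^ n *
        (Polynomial.X - Polynomial.C α) ^ n) u ∈ M := by
  classical
  have hℓ0 : 0 < ℓ := h.lp.pos
  have hex : ∀ M : Ideal R, ∃ n₀ : ℕ, M.IsMaximal → ∀ n : ℕ, n₀ ≤ n →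
      ∀ (y₁ y₂ : Ex m ℓ → PowerSeries R) (y₃ : PowerSeries R),
      ∃ F : Idx m ℓ n → R,
        (∀ g, nz g → ∀ k : ℕ, k < n →
          coeff k (ev F (C (ζ * c) + X : PowerSeries R) (tw ζ g (sr ℓ β (ζ * c) w))) -
            coeff k (y₁ g) ∈ M) ∧
        (∀ g, nz g → ∀ k : ℕ, k < n →
          coeff k (ev F (C α + X : PowerSeries R) (tw ζ g (sr ℓ β α ω))) - coeff k (y₂ g) ∈ M) ∧
        (∀ k : ℕ, k < n →
          coeff k (ev F (C (ζ * α) + X : PowerSeries R) (sr ℓ β (ζ * α) ω)) - coeff k y₃ ∈ M) := by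
    intro M
    by_cases hM : M.IsMaximal
    · obtain ⟨n₀, hn₀⟩ := surjM h M₁ β hβ hd c α hc w ω hwu hωu hw hω hα₁ hα hωw M hM
      exact ⟨n₀, fun _ => hn₀⟩
    · exact ⟨0, fun hM' => absurd hM' hM⟩
  choose n₀ hn₀ using hex
  set N : ℕ := h.fin.toFinset.sup n₀ with hN
  have hNM : ∀ M : Ideal R, M.IsMaximal → n₀ M ≤ N := fun M hM =>
    Finset.le_sup (h.fin.mem_toFinset.2 hM)
  obtain ⟨n, hNn, hpn⟩ : ∃ n, N ≤ n ∧ ¬ p ∣ n := by
    by_cases hp : p ∣ N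
    · refine ⟨N + 1, Nat.le_succ N, fun hp' => ?_⟩
      have := (Nat.dvd_add_right hp).1 hp'
      exact h.pp.one_lt.ne' (Nat.dvd_one.1 this)
    · exact ⟨N, le_rfl, hp⟩
  let G := {g : Ex m ℓ // nz g}
  let z₁ : PowerSeries R := C (ζ * c) + X
  let z₂ : PowerSeries R := C α + X
  let z₃ : PowerSeries R := C (ζ * α) + X
  let A : Matrix ((G × Fin n) ⊕ ((G × Fin n) ⊕ Fin n)) (Idx m ℓ n) R := fun j u =>
    match j with
    | Sum.inl q => coeff (q.2 : ℕ) (mon z₁ (tw ζ q.1.1 (sr ℓ β (ζ * c) w)) (u.1.1 : ℕ) u.1.2)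
    | Sum.inr (Sum.inl q) => coeff (q.2 : ℕ) (mon z₂ (tw ζ q.1.1 (sr ℓ β α ω)) (u.1.1 : ℕ) u.1.2)
    | Sum.inr (Sum.inr k) => coeff (k : ℕ) (mon z₃ (sr ℓ β (ζ * α) ω) (u.1.1 : ℕ) u.1.2)
  have hA1 : ∀ (F : Idx m ℓ n → R) (q : G × Fin n), (A.mulVec F) (Sum.inl q) =
      coeff (q.2 : ℕ) (ev F z₁ (tw ζ q.1.1 (sr ℓ β (ζ * c) w))) := fun F q => lf_coeff F _ _ _
  have hA2 : ∀ (F : Idx m ℓ n → R) (q : G × Fin n), (A.mulVec F) (Sum.inr (Sum.inl q)) =
      coeff (q.2 : ℕ) (ev F z₂ (tw ζ q.1.1 (sr ℓ β α ω))) := fun F q => lf_coeff F _ _ _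
  have hA3 : ∀ (F : Idx m ℓ n → R) (k : Fin n), (A.mulVec F) (Sum.inr (Sum.inr k)) =
      coeff (k : ℕ) (ev F z₃ (sr ℓ β (ζ * α) ω)) := fun F k => lf_coeff F _ _ _
  set P : Polynomial R := (Polynomial.X - Polynomial.C (ζ * c)) ^ n *
    (Polynomial.X - Polynomial.C α) ^ n with hP
  have hPd : P.natDegree ≤ 2 * n := lf_deg _ _ _
  have hTz : ∀ (z : PowerSeries R) (W : Fin m → PowerSeries R),
      ev (cst P : Idx m ℓ n → R) z W = (z - C (ζ * c)) ^ n * (z - C α) ^ n := by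
    intro z W
    rw [ev_cst hℓ0 P hPd, hP, lf_aeval]
  obtain ⟨F, hF0, hFM⟩ := lift_mat A (fun M hM y => by
    obtain ⟨F, h1, h2, h3⟩ := hn₀ M hM n ((hNM M hM).trans hNn)
      (fun g => PowerSeries.mk fun k => if hh : nz g ∧ k < n then
        y (Sum.inl (⟨g, hh.1⟩, ⟨k, hh.2⟩)) else 0)
      (fun g => PowerSeries.mk fun k => if hh : nz g ∧ k < n then
        y (Sum.inr (Sum.inl (⟨g, hh.1⟩, ⟨k, hh.2⟩))) else 0)
      (PowerSeries.mk fun k => if hh : k < n then y (Sum.inr (Sum.inr ⟨k, hh⟩)) else 0)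
    refine ⟨F, fun j => ?_⟩
    rcases j with q | q | k
    · rw [hA1]
      have h4 := h1 q.1.1 q.1.2 q.2 q.2.isLt
      rw [coeff_mk, dif_pos ⟨q.1.2, q.2.isLt⟩] at h4
      exact h4
    · rw [hA2]
      have h4 := h2 q.1.1 q.1.2 q.2 q.2.isLt
      rw [coeff_mk, dif_pos ⟨q.1.2, q.2.isLt⟩] at h4
      exact h4
    · rw [hA3]
      have h4 := h3 k k.isLt
      rw [coeff_mk, dif_pos k.isLt] at h4
      exact h4) (cst P) (fun M hM j => by
    rcases j with q | q | k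
    · rw [hA1, hTz]
      have h4 : z₁ - C (ζ * c) = X := by simp [z₁]
      rw [h4]
      have h5 := (PowerSeries.X_pow_dvd_iff.1 (dvd_mul_right (X ^ n) ((z₁ - C α) ^ n))) q.2 q.2.isLt
      rw [h5]
      exact M.zero_mem
    · rw [hA2, hTz]
      have h4 : z₂ - C α = X := by simp [z₂]
      rw [h4]
      have h5 := (PowerSeries.X_pow_dvd_iff.1 (dvd_mul_left (X ^ n) ((z₂ - C (ζ * c)) ^ n))) q.2
        q.2.isLt
      rw [h5]
      exact M.zero_mem
    · rw [hA3, hTz]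
      have h4 : z₃ - C (ζ * c) = C (ζ * α - ζ * c) + X := by
        simp only [z₃, map_sub]
        ring
      have h5 : z₃ - C α = C (ζ * α - α) + X := by
        simp only [z₃, map_sub]
        ring
      rw [h4, h5]
      by_cases hMM : M = M₁
      · subst hMM
        apply lf_mem M _ _ _ n k k.isLt
        have : ζ * α - ζ * c = ζ * (α - c) := by ring
        rw [this]
        exact M.mul_mem_left _ hα₁
      · rw [mul_comm]
        apply lf_mem M _ _ _ n k k.isLt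
        have hαM := hα M hM hMM
        exact M.sub_mem (M.mul_mem_left _ hαM) hαM)
  refine ⟨n, F, hpn, fun g hg => ?_, fun g hg => ?_, ?_, fun M hM u => hFM M hM u⟩
  · rw [PowerSeries.X_pow_dvd_iff]
    intro k hk
    have h1 := hA1 F (⟨g, hg⟩, ⟨k, hk⟩)
    rw [hF0] at h1
    exact h1.symm
  · rw [PowerSeries.X_pow_dvd_iff]
    intro k hk
    have h1 := hA2 F (⟨g, hg⟩, ⟨k, hk⟩)
    rw [hF0] at h1
    exact h1.symm
  · rw [PowerSeries.X_pow_dvd_iff]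
    intro k hk
    have h1 := hA3 F ⟨k, hk⟩
    rw [hF0] at h1
    exact h1.symm

end Pool.Agent.Work.MP_ae9a8c_lc
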