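import Pool.Agent.Work.MP_ae9a8c_lc.Ser
import Pool.Agent.Work.MP_ae9a8c_lc.Base

/-!
MODULE Local.  `F` does not vanish at a point `(b; v)` of the curve which is congruent to `(s; ω)`
modulo `M`, `b ≠ s`, if `F` vanishes at `(s; ω)` to order exactly `n` also modulo `M`.

PROOF.  Let `τ = b - s ∈ M`, `τ ≠ 0`.  Let `q i ∈ R[X]` be the truncation of `sr ℓ β s ω i` at order
`n + 1` (`PowerSeries.trunc`), `v' i = (q i).eval τ`.
1. `q i ^ ℓ ≡ (C s + X)^ℓ - C (β i)` modulo `X^(n+1)` in `R[X]`, so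
   `v' i ^ ℓ - v i ^ ℓ = v' i ^ ℓ - ((s + τ)^ℓ - β i) ∈ (τ^(n+1))`.
   `v' i ≡ ω i ≡ v i` modulo `M`.  `v' i ^ ℓ - v i ^ ℓ = (v' i - v i) * D i`,
   `D i = Σ_j v' i ^ j v i ^ (ℓ-1-j) ≡ ℓ ω i ^ (ℓ-1)` modulo `M`, so `D i ∉ M`.  Hence
   `D i * (v' i - v i) ∈ (τ^(n+1))`.
2. With `D = ∏ D i ∉ M`: `D * (ev F b v - ev F b v') ∈ (τ^(n+1))`.  (For a product of factors `v i ^ a i`
   telescoping; or: work in the localization of `R` at `M`, where the `D i` are units; or: in
   `Localization`/in the quotient by the ideal `{x | ∃ D ∉ M, D x ∈ (τ^(n+1))}`, which is an ideal `J`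
   because `M` is prime: all `v i ≡ v' i` modulo `J`, so `ev F b v ≡ ev F b v'` modulo `J`.  Best.)
3. `H = ev F (C s + X) (q i : polynomials) ∈ R[X]` has, modulo `X^(n+1)`, the same coefficients as
   `ev F (C s + X) (sr ℓ β s ω)`; so `coeff k H = 0` for `k < n` and `coeff n H = u ∉ M`.  Evaluate at
   `τ`: `ev F b v' = u τ^n + (multiple of τ^(n+1))`.
4. If `ev F b v = 0` then for some `D ∉ M`: `D (u τ^n + e τ^(n+1)) ∈ (τ^(n+1))`, cancel `τ^n` in the
   domain: `D u ∈ (τ) ⊆ M`, a contradiction as `M` is prime.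
-/

set_option autoImplicit false

namespace Pool.Agent.Work.MP_ae9a8c_lc

open PowerSeries

/-- congruent arguments give congruent values -/
private theorem local_congr {R S : Type} [CommRing R] [CommRing S] [Algebra R S] {m ℓ n : ℕ}
    (I : Ideal S) (F : Idx m ℓ n → R) (z : S) (W W' : Fin m → S) (h : ∀ i, W i - W' i ∈ I) :
    ev F z W - ev F z W' ∈ I := by
  rw [← Ideal.Quotient.eq]
  have h1 := ev_map (RingHom.id R) (Ideal.Quotient.mk I) (fun r => rfl) F z W
  have h2 := ev_map (RingHom.id R) (Ideal.Quotient.mk I) (fun r => rfl) F z W'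
  rw [h1, h2]
  congr 1
  funext i
  exact Ideal.Quotient.eq.mpr (h i)

/-- a polynomial divisible by `X ^ k` as a power series -/
private theorem local_dvd {R : Type} [CommRing R] (P : Polynomial R) (k : ℕ)
    (h : (X : PowerSeries R) ^ k ∣ (P : PowerSeries R)) : (Polynomial.X : Polynomial R) ^ k ∣ P := by
  rw [Polynomial.X_pow_dvd_iff]
  rw [PowerSeries.X_pow_dvd_iff] at h
  intro d hd
  have := h d hd
  rwa [Polynomial.coeff_coe] at this

private theorem local_eval {R : Type} [CommRing R] (P : Polynomial R) (k : ℕ) (τ : R)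
    (h : (Polynomial.X : Polynomial R) ^ k ∣ P) : τ ^ k ∣ P.eval τ := by
  obtain ⟨G, hG⟩ := h
  rw [hG, Polynomial.eval_mul, Polynomial.eval_pow, Polynomial.eval_X]
  exact dvd_mul_right _ _

private theorem local_trunc {R : Type} [CommRing R] (f : PowerSeries R) (k : ℕ) :
    (X : PowerSeries R) ^ k ∣ ((trunc k f : Polynomial R) : PowerSeries R) - f := by
  rw [PowerSeries.X_pow_dvd_iff]
  intro d hd
  rw [map_sub, Polynomial.coeff_coe, coeff_trunc, if_pos hd, sub_self]

theorem local_ne {R : Type} [CommRing R] [IsDomain R] {ℓ m n : ℕ} (M : Ideal R) [M.IsMaximal]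
    (hℓ : IsUnit (ℓ : R)) (β : Fin m → R) (F : Idx m ℓ n → R) (s b : R) (ω v : Fin m → R)
    (hω : ∀ i, IsUnit (ω i)) (h1 : ∀ i, ω i ^ ℓ = s ^ ℓ - β i)
    (h2 : ∀ i, v i ^ ℓ = b ^ ℓ - β i) (hc : ∀ i, v i - ω i ∈ M) (hs : b - s ∈ M) (hne : b ≠ s)
    (hF : (X : PowerSeries R) ^ n ∣ ev F (C s + X : PowerSeries R) (sr ℓ β s ω))
    (hu : coeff n (ev F (C s + X : PowerSeries R) (sr ℓ β s ω)) ∉ M) : ev F b v ≠ 0 := by
  have hM : M.IsPrime := Ideal.IsMaximal.isPrime inferInstance
  have h1M : (1 : R) ∉ M := (Ideal.ne_top_iff_one M).mp hM.ne_top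
  set τ := b - s with hτ
  have hτ0 : τ ≠ 0 := sub_ne_zero.mpr hne
  have hsτ : s + τ = b := by rw [hτ]; ring
  -- the ideal of elements which are small after multiplication by something outside `M`
  set J : Ideal R :=
    { carrier := {x | ∃ D, D ∉ M ∧ τ ^ (n + 1) ∣ D * x}
      add_mem' := by
        rintro x y ⟨D, hD, hx⟩ ⟨D', hD', hy⟩
        refine ⟨D * D', fun hcon => ?_, ?_⟩
        · rcases hM.mem_or_mem hcon with g | g
          · exact hD g
          · exact hD' g
        · have e1 : D * D' * (x + y) = D' * (D * x) + D * (D' * y) := by ring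
          rw [e1]
          exact dvd_add (hx.mul_left _) (hy.mul_left _)
      zero_mem' := ⟨1, h1M, by simp⟩
      smul_mem' := by
        rintro c x ⟨D, hD, hx⟩
        refine ⟨D, hD, ?_⟩
        have e1 : D * (c • x) = c * (D * x) := by
          rw [smul_eq_mul]
          ring
        rw [e1]
        exact hx.mul_left _ } with hJ
  set q : Fin m → Polynomial R := fun i => trunc (n + 1) (sr ℓ β s ω i) with hq
  set v' : Fin m → R := fun i => (q i).eval τ with hv'
  have hspec : ∀ i, (sr ℓ β s ω i) ^ ℓ = base ℓ s (β i) ∧ constantCoeff (sr ℓ β s ω i) = ω i :=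
    fun i => ser_spec hℓ (hω i) (h1 i)
  -- 1.
  have hpow : ∀ i, τ ^ (n + 1) ∣ v' i ^ ℓ - v i ^ ℓ := by
    intro i
    have e1 : (X : PowerSeries R) ^ (n + 1) ∣
        (((q i) ^ ℓ - ((Polynomial.C s + Polynomial.X) ^ ℓ - Polynomial.C (β i)) :
          Polynomial R) : PowerSeries R) := by
      have e2 : (((q i) ^ ℓ - ((Polynomial.C s + Polynomial.X) ^ ℓ - Polynomial.C (β i)) :
          Polynomial R) : PowerSeries R) = ((q i : Polynomial R) : PowerSeries R) ^ ℓ -
            (sr ℓ β s ω i) ^ ℓ := by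
        rw [(hspec i).1]
        unfold base
        push_cast
        rfl
      rw [e2]
      exact (local_trunc _ _).trans (sub_dvd_pow_sub_pow _ _ ℓ)
    have e3 := local_eval _ _ τ (local_dvd _ _ e1)
    have e4 : ((q i) ^ ℓ - ((Polynomial.C s + Polynomial.X) ^ ℓ - Polynomial.C (β i))).eval τ =
        v' i ^ ℓ - v i ^ ℓ := by
      rw [h2 i, ← hsτ]
      simp [hv']
    rwa [e4] at e3
  have hcong : ∀ i, v' i - ω i ∈ M := by
    intro i
    have e1 : (Polynomial.X : Polynomial R) ^ 1 ∣ q i - Polynomial.C (ω i) := by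
      rw [Polynomial.X_pow_dvd_iff]
      intro d hd
      have hd0 : d = 0 := by omega
      subst hd0
      rw [Polynomial.coeff_sub, Polynomial.coeff_C_zero, hq]
      simp only
      rw [coeff_trunc, if_pos (by omega), coeff_zero_eq_constantCoeff_apply, (hspec i).2, sub_self]
    have e2 := local_eval _ _ τ e1
    rw [Polynomial.eval_sub, Polynomial.eval_C, pow_one] at e2
    obtain ⟨e, he⟩ := e2
    have e3 : v' i - ω i = τ * e := he
    rw [e3]
    exact M.mul_mem_right _ hs
  have hJv : ∀ i, v i - v' i ∈ J := by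
    intro i
    set D := ∑ j ∈ Finset.range ℓ, v' i ^ j * v i ^ (ℓ - 1 - j) with hD
    have e1 : D * (v' i - v i) = v' i ^ ℓ - v i ^ ℓ := Commute.geom_sum₂_mul (Commute.all _ _) ℓ
    have e2 : D ∉ M := by
      intro hcon
      have g1 : Ideal.Quotient.mk M (v' i) = Ideal.Quotient.mk M (ω i) :=
        Ideal.Quotient.eq.mpr (hcong i)
      have g2 : Ideal.Quotient.mk M (v i) = Ideal.Quotient.mk M (ω i) :=
        Ideal.Quotient.eq.mpr (hc i)
      have g3 : Ideal.Quotient.mk M D = Ideal.Quotient.mk M ((ℓ : R) * ω i ^ (ℓ - 1)) := by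
        rw [hD, map_sum, map_mul, map_natCast, map_pow,
          ← geom_sum₂_self (Ideal.Quotient.mk M (ω i)) ℓ]
        refine Finset.sum_congr rfl fun j _ => ?_
        rw [map_mul, map_pow, map_pow, g1, g2]
      have g4 : (ℓ : R) * ω i ^ (ℓ - 1) ∈ M := by
        rw [← Ideal.Quotient.eq_zero_iff_mem, ← g3, Ideal.Quotient.eq_zero_iff_mem]
        exact hcon
      exact hM.ne_top (Ideal.eq_top_of_isUnit_mem _ g4 (hℓ.mul ((hω i).pow _)))
    refine ⟨D, e2, ?_⟩
    have e3 : D * (v i - v' i) = -(v' i ^ ℓ - v i ^ ℓ) := by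
      rw [← e1]
      ring
    rw [e3, dvd_neg]
    exact hpow i
  -- 2.
  have hJev : ev F b v - ev F b v' ∈ J := local_congr J F b v v' hJv
  -- 3.
  set H : Polynomial R := ev F (Polynomial.C s + Polynomial.X : Polynomial R) q with hH
  have hHev : H.eval τ = ev F b v' := by
    have e1 := ev_map (RingHom.id R) (Polynomial.evalRingHom τ) (fun r => by simp) F
      (Polynomial.C s + Polynomial.X : Polynomial R) q
    have e2 : Polynomial.evalRingHom τ (Polynomial.C s + Polynomial.X : Polynomial R) = b := by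
      rw [← hsτ]
      simp
    rw [e2] at e1
    exact e1
  have hHc : ((H : Polynomial R) : PowerSeries R) =
      ev F (C s + X : PowerSeries R) (fun i => ((q i : Polynomial R) : PowerSeries R)) := by
    have e1 := ev_map (RingHom.id R) (Polynomial.coeToPowerSeries.ringHom (R := R))
      (fun r => by
        rw [Polynomial.coeToPowerSeries.ringHom_apply, Polynomial.algebraMap_eq,
          Polynomial.coe_C, RingHom.id_apply, PowerSeries.C_eq_algebraMap]) F
      (Polynomial.C s + Polynomial.X : Polynomial R) q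
    simp only [Polynomial.coeToPowerSeries.ringHom_apply] at e1
    rw [hH, e1]
    congr 1
    push_cast
    rfl
  have hdiff : (X : PowerSeries R) ^ (n + 1) ∣ ((H : Polynomial R) : PowerSeries R) -
      ev F (C s + X : PowerSeries R) (sr ℓ β s ω) := by
    rw [hHc, ← Ideal.mem_span_singleton]
    apply local_congr
    intro i
    rw [Ideal.mem_span_singleton]
    exact local_trunc _ _
  rw [PowerSeries.X_pow_dvd_iff] at hdiff
  have hcoef : ∀ k ≤ n, H.coeff k = coeff k (ev F (C s + X : PowerSeries R) (sr ℓ β s ω)) := by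
    intro k hk
    have := hdiff k (by omega)
    rw [map_sub, Polynomial.coeff_coe] at this
    exact sub_eq_zero.mp this
  rw [PowerSeries.X_pow_dvd_iff] at hF
  obtain ⟨G, hG⟩ : (Polynomial.X : Polynomial R) ^ n ∣ H := by
    rw [Polynomial.X_pow_dvd_iff]
    intro d hd
    rw [hcoef d hd.le]
    exact hF d hd
  have hG0 : G.coeff 0 ∉ M := by
    have e1 : H.coeff n = G.coeff 0 := by
      rw [hG]
      have := Polynomial.coeff_X_pow_mul G n 0
      rwa [Nat.zero_add] at this
    rw [← e1, hcoef n le_rfl]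
    exact hu
  obtain ⟨e, he⟩ : τ ∣ G.eval τ - G.coeff 0 := by
    have e1 : (Polynomial.X : Polynomial R) ^ 1 ∣ G - Polynomial.C (G.coeff 0) := by
      rw [Polynomial.X_pow_dvd_iff]
      intro d hd
      have hd0 : d = 0 := by omega
      subst hd0
      rw [Polynomial.coeff_sub, Polynomial.coeff_C_zero, sub_self]
    have e2 := local_eval _ _ τ e1
    rwa [Polynomial.eval_sub, Polynomial.eval_C, pow_one] at e2
  have hval : ev F b v' = τ ^ n * (G.coeff 0 + τ * e) := by
    rw [← hHev, hG, Polynomial.eval_mul, Polynomial.eval_pow, Polynomial.eval_X, ← he]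
    ring
  -- 4.
  intro h0
  rw [h0, zero_sub] at hJev
  have hJev' : ev F b v' ∈ J := by
    have := J.neg_mem hJev
    rwa [neg_neg] at this
  obtain ⟨D, hD, c, hDc⟩ := hJev'
  rw [hval] at hDc
  have h5 : τ ^ n * (D * (G.coeff 0 + τ * e)) = τ ^ n * (τ * c) := by
    rw [pow_succ] at hDc
    linear_combination hDc
  have h6 := mul_left_cancel₀ (pow_ne_zero n hτ0) h5
  have h7 : D * G.coeff 0 = τ * (c - D * e) := by linear_combination h6
  have h8 : D * G.coeff 0 ∈ M := by
    rw [h7]
    exact M.mul_mem_right _ hs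
  rcases hM.mem_or_mem h8 with g | g
  · exact hD g
  · exact hG0 g

end Pool.Agent.Work.MP_ae9a8c_lc
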