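import Mathlib

/-!
Model theory: the language, the structure and NIP exactly as in the frozen statement `S15215`, and
definability with parameters.
-/

set_option autoImplicit false

namespace Pool.Agent.Work.MP_ae9a8c_lc

/-- The language of the frozen statement. -/
abbrev Lg : FirstOrder.Language :=
  FirstOrder.Language.mk (fun _ => Empty) (fun n => Fin n × Fin n × Fin n × Fin 3)

/-- The structure of the frozen statement. -/
@[reducible] def st {K : Type} [Field K] (O : ValuationSubring K) :
    Lg.Structure K :=
  { funMap := fun f _ => Empty.elim f,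
    RelMap := fun r x =>
      if r.2.2.2 = 0 then x r.1 + x r.2.1 = x r.2.2.1
      else if r.2.2.2 = 1 then x r.1 * x r.2.1 = x r.2.2.1
      else x r.1 ∈ O }

/-- No formula has the independence property: verbatim the hypothesis of `S15215`. -/
def NIP (K : Type) [Field K] (O : ValuationSubring K) : Prop :=
  ∀ (m k : ℕ)
    (φ : (FirstOrder.Language.mk (fun _ => Empty)
            (fun n => Fin n × Fin n × Fin n × Fin 3)).Formula (Fin m ⊕ Fin k)),
    ∃ N : ℕ, ¬ ∃ a : Fin N → Fin m → K, ∀ S : Set (Fin N), ∃ b : Fin k → K,
      ∀ i : Fin N,
        (@FirstOrder.Language.Formula.Realize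
            (FirstOrder.Language.mk (fun _ => Empty)
              (fun n => Fin n × Fin n × Fin n × Fin 3))
            K
            { funMap := fun f _ => Empty.elim f,
              RelMap := fun r x =>
                if r.2.2.2 = 0 then x r.1 + x r.2.1 = x r.2.2.1
                else if r.2.2.2 = 1 then x r.1 * x r.2.1 = x r.2.2.1
                else x r.1 ∈ O }
            (Fin m ⊕ Fin k) φ (Sum.elim (a i) b) ↔ i ∈ S)

/-- Definable with parameters. -/
def Dfn {K : Type} [Field K] (O : ValuationSubring K) {α : Type} (s : Set (α → K)) : Prop :=
  @Set.Definable K Set.univ Lg (st O) α s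

end Pool.Agent.Work.MP_ae9a8c_lc
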