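import Pool.Agent.Work.MP_ae9a8c_lc.Patterns
import Pool.Agent.Work.MP_ae9a8c_lc.FieldL
import Pool.Agent.Work.MP_ae9a8c_lc.TwoMax
import Pool.Agent.Work.MP_ae9a8c_lc.CtxR
import Pool.Agent.Work.MP_ae9a8c_lc.JacPoly
import Pool.Agent.Work.MP_ae9a8c_lc.NipDfn
import Pool.Agent.Work.MP_ae9a8c_lc.DfnPsi

/-!
Main (assembly, helper79).
-/

set_option autoImplicit false

namespace Pool.Agent.Work.MP_ae9a8c_lc

open IsLocalRing

theorem henselian_of_virtProP (K : Type) [Field K] (O : ValuationSubring K)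
    (hO : CharZero (IsLocalRing.ResidueField O)) (hN : NIP K O) (p : ℕ) (hp : p.Prime)
    (hK : VirtProP K p) : HenselianLocalRing O := by
  classical
  by_contra hnot
  have hchO : CharZero O := (IsLocalRing.residue O).charZero
  have hchK : CharZero K := charZero_of_injective_algebraMap (R := O) (A := K)
    (IsFractionRing.injective O K)
  obtain ⟨f, a₀, hf, h0, h1, h2⟩ : ∃ (f : Polynomial O) (a₀ : O), f.Monic ∧
      f.eval a₀ ∈ maximalIdeal O ∧ IsUnit (f.derivative.eval a₀) ∧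
      ∀ a : O, f.IsRoot a → a - a₀ ∉ maximalIdeal O := by
    by_contra hcon
    apply hnot
    refine ⟨?_⟩
    intro f hf a₀ h0 h1
    by_contra hno
    apply hcon
    refine ⟨f, a₀, hf, h0, h1, ?_⟩
    intro a ha hmem
    exact hno ⟨a, ha, hmem⟩
  obtain ⟨ℓ, hℓ, hne⟩ : ∃ ℓ : ℕ, ℓ.Prime ∧ ℓ ≠ p := by
    by_cases h2 : p = 2
    · exact ⟨3, Nat.prime_three, by omega⟩
    · exact ⟨2, Nat.prime_two, fun h => h2 h.symm⟩
  obtain ⟨L, iF, iA, hfin, hgal, ⟨ζ, hζ⟩, hspl, hroot⟩ :=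
    exists_L K hp hK hℓ (f.map (algebraMap O K)) (hf.map _)
  obtain ⟨ζ', hζ', hctx⟩ := ctx_R O hO hp hℓ hne ζ hζ hroot
  obtain ⟨M₁, M₂, hM₁, hM₂, hMne⟩ := two_max O f hf a₀ h0 h1 h2 hspl
  let e : Module.Basis (Fin (Module.finrank K L)) K L := Module.finBasis K L
  obtain ⟨N, hNN⟩ := nip_dfn O hN _ (dfn_psi O e ℓ)
  apply hNN
  choose c hc using fun i : Fin N =>
    exists_root hctx (((i : ℕ) : integralClosure O L) + 1)
  have hℓ0 : ℓ ≠ 0 := hctx.lp.ne_zero
  have hcu : ∀ i, IsUnit (c i) := by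
    intro i
    have h1 : IsUnit (c i ^ ℓ) := by
      rw [hc i]
      have := hctx.nat ((i : ℕ) + 1) (Nat.succ_ne_zero _)
      push_cast at this
      exact this
    exact (isUnit_pow_iff hℓ0).1 h1
  refine ⟨fun i => e.equivFun (c i : L), fun S => ?_⟩
  obtain ⟨x, z, g1, g2, g3, g4⟩ := patterns hctx M₁ M₂ hMne c hc S
  refine ⟨e.equivFun (x : L), fun i => ?_⟩
  have hmem : (Sum.elim (e.equivFun (c i : L)) (e.equivFun (x : L)) ∈
      {v : Fin (Module.finrank K L) ⊕ Fin (Module.finrank K L) → K | ∃ z : L,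
      z ^ ℓ = (∑ j, v (Sum.inr j) • e j) + (∑ j, v (Sum.inl j) • e j) ^ ℓ ∧
      ∃ t : Fin (Module.finrank K L) → K,
        (∀ j, ∃ h : t j ∈ O, (⟨t j, h⟩ : O) ∈ IsLocalRing.maximalIdeal O) ∧
        (z - ∑ j, v (Sum.inl j) • e j) ^ (Module.finrank K L) +
          ∑ j, algebraMap K L (t j) * (z - ∑ j, v (Sum.inl j) • e j) ^ (j : ℕ) = 0}) ↔
      ∃ z : L, z ^ ℓ = (x : L) + (c i : L) ^ ℓ ∧
        ∃ hz : z - (c i : L) ∈ integralClosure O L, ∀ M : Ideal (integralClosure O L),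
          M.IsMaximal → (⟨z - (c i : L), hz⟩ : integralClosure O L) ∈ M := by
    rw [Set.mem_ofPred_eq]
    simp only [Sum.elim_inr, Sum.elim_inl, e.sum_equivFun]
    refine exists_congr fun z => and_congr_right fun _ => ?_
    exact jac_poly O (z - (c i : L))
  rw [hmem]
  have hzx : ((z i : integralClosure O L) : L) ^ ℓ = (x : L) + (c i : L) ^ ℓ := by
    have h1 : z i ^ ℓ = x + c i ^ ℓ := by rw [g1 i, hc i]
    have h2 := congrArg (Subtype.val) h1
    push_cast at h2
    exact h2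
  constructor
  · rintro ⟨y, hy1, hy2, hy3⟩
    by_contra hiS
    -- `y` is integral
    have hyR : y ∈ integralClosure O L := by
      have := (integralClosure O L).add_mem hy2 (c i).2
      rwa [sub_add_cancel] at this
    set y' : integralClosure O L := ⟨y, hyR⟩ with hy'
    have hyc : ∀ M : Ideal (integralClosure O L), M.IsMaximal → y' - c i ∈ M := by
      intro M hM
      exact hy3 M hM
    have hpow : y' ^ ℓ = z i ^ ℓ := by
      apply Subtype.ext
      push_cast
      rw [hy1, hzx]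
    have hyz : y' - z i ∈ M₁ := by
      have : y' - z i = (y' - c i) - (z i - c i) := by ring
      rw [this]
      exact M₁.sub_mem (hyc M₁ hM₁) (g2 i)
    have hyM : y' ∉ M₁ := by
      intro hmem
      apply hM₁.ne_top
      refine Ideal.eq_top_of_isUnit_mem _ ?_ (hcu i)
      have : c i = y' - (y' - c i) := by ring
      rw [this]
      exact M₁.sub_mem hmem (hyc M₁ hM₁)
    have heq : y' = z i := eq_of_pow_eq hctx M₁ hyM hpow hyz
    have hA := hyc M₂ hM₂
    have hB := g4 i hiS M₂ hM₂ hMne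
    rw [← heq] at hB
    apply hM₂.ne_top
    refine Ideal.eq_top_of_isUnit_mem _ ?_ ((unit_one_sub hctx).mul (hcu i))
    have : (1 - ζ') * c i = (y' - ζ' * c i) - (y' - c i) := by ring
    rw [this]
    exact M₂.sub_mem hB hA
  · intro hiS
    refine ⟨(z i : L), hzx, (z i - c i).2, ?_⟩
    intro M hM
    exact g3 i hiS M hM

end Pool.Agent.Work.MP_ae9a8c_lc
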