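import Pool.Agent.Work.MP_ae9a8c_lc.Defs

/-!
MODULE NormP.  The norm of `F` is a polynomial in `z` of degree `≤ 2 n ℓ^m`.

PROOF.  Work in `A = MvPolynomial (Option (Fin m)) R` (`none` is the variable `z`, `some i` is `W_i`).
Let `P = ∏_g ev F (X none) (tw ζ g (X ∘ some))`.  Its total degree is `≤ (2n) * ℓ^m`
(`MvPolynomial.totalDegree_finset_prod`, each factor has total degree `≤ 2n` as `b + |a| ≤ 2n`;
`Fintype.card (Ex m ℓ) = ℓ^m`).
For every `i` the substitution `W_i ↦ ζ W_i` permutes the factors (`g i ↦ g i + 1` modulo `ℓ`; `Fin ℓ`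
with `NeZero ℓ`, `ζ^ℓ = 1`), so it fixes `P`; it multiplies the coefficient of the monomial `e` by
`ζ^(e i)`, hence `coeff e P ≠ 0` implies `ζ^(e i) = 1` (domain), so `ℓ ∣ e i`
(`IsPrimitiveRoot.dvd_of_pow_eq_one`).
Define `N = Σ_(e ∈ P.support) C (coeff e P) * X^(e none) * ∏_i (X^ℓ - C (β i))^(e (some i) / ℓ)`.
Degree of the term `e`: `≤ e none + Σ_i ℓ * (e (some i)/ℓ) ≤ Σ e ≤ totalDegree P`.
If `W i ^ ℓ = z^ℓ - β i` in `S` then `aeval z` of the term `e` is
`coeff e P * z^(e none) * ∏ (W i ^ ℓ)^(e (some i)/ℓ) = coeff e P * z^(e none) * ∏ W i^(e (some i))`, so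
`aeval z N = aeval (Option.elim z W) P = ∏_g ev F z (tw ζ g W)`.
-/

set_option autoImplicit false

namespace Pool.Agent.Work.MP_ae9a8c_lc

private theorem normP_ev_map {R S T : Type} [CommRing R] [CommRing S] [Algebra R S] [CommRing T]
    [Algebra R T] {m ℓ n : ℕ} (φ : S →ₐ[R] T) (F : Idx m ℓ n → R) (z : S) (W : Fin m → S) :
    φ (ev F z W) = ev F (φ z) (fun i => φ (W i)) := by
  unfold ev mon
  rw [map_sum]
  refine Finset.sum_congr rfl fun u _ => ?_
  rw [map_mul, AlgHom.commutes, map_mul, map_pow, map_prod]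
  simp only [map_pow]

private theorem normP_coeff {R σ : Type} [CommRing R] [Fintype σ] (c : σ → R)
    (P : MvPolynomial σ R) (e : σ →₀ ℕ) :
    MvPolynomial.coeff e (MvPolynomial.aeval
      (fun o => MvPolynomial.C (c o) * MvPolynomial.X o : σ → MvPolynomial σ R) P) =
      (∏ o, c o ^ e o) * MvPolynomial.coeff e P := by
  classical
  induction P using MvPolynomial.induction_on' with
  | monomial u a =>
    have h1 : MvPolynomial.aeval
        (fun o => MvPolynomial.C (c o) * MvPolynomial.X o : σ → MvPolynomial σ R)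
        (MvPolynomial.monomial u a) = MvPolynomial.monomial u ((∏ o, c o ^ u o) * a) := by
      rw [MvPolynomial.aeval_monomial, Finsupp.prod_fintype _ _ (fun i => by simp)]
      simp only [mul_pow, Finset.prod_mul_distrib, ← MvPolynomial.C_pow]
      rw [← map_prod, MvPolynomial.monomial_eq (s := u), MvPolynomial.algebraMap_eq,
        Finsupp.prod_fintype _ _ (fun i => by simp), MvPolynomial.C_mul]
      ring
    rw [h1, MvPolynomial.coeff_monomial, MvPolynomial.coeff_monomial]
    split_ifs with h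
    · rw [h]
    · rw [mul_zero]
  | add p q hp hq => rw [map_add, MvPolynomial.coeff_add, hp, hq, MvPolynomial.coeff_add, mul_add]

private theorem normP_degree {R : Type} [CommRing R] [IsDomain R] {ℓ m n : ℕ} (ζ : R)
    (F : Idx m ℓ n → R) (g : Ex m ℓ) :
    (ev F (MvPolynomial.X none : MvPolynomial (Option (Fin m)) R)
      (tw ζ g (fun i => MvPolynomial.X (some i)))).totalDegree ≤ 2 * n := by
  unfold ev
  refine MvPolynomial.totalDegree_finsetSum_le fun u _ => ?_
  refine (MvPolynomial.totalDegree_mul _ _).trans ?_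
  rw [MvPolynomial.algebraMap_eq, MvPolynomial.totalDegree_C, zero_add]
  unfold mon tw
  refine (MvPolynomial.totalDegree_mul _ _).trans ?_
  have h1 : ((MvPolynomial.X none : MvPolynomial (Option (Fin m)) R) ^
      (u.1.1 : ℕ)).totalDegree ≤ (u.1.1 : ℕ) := by
    refine (MvPolynomial.totalDegree_pow _ _).trans ?_
    rw [MvPolynomial.totalDegree_X, mul_one]
  have h2 : (∏ i, ((algebraMap R (MvPolynomial (Option (Fin m)) R) (ζ ^ (g i : ℕ))) *
      MvPolynomial.X (some i)) ^ (u.1.2 i : ℕ)).totalDegree ≤ dg u.1.2 := by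
    refine (MvPolynomial.totalDegree_finsetProd _ _).trans ?_
    unfold dg
    refine Finset.sum_le_sum fun i _ => ?_
    refine (MvPolynomial.totalDegree_pow _ _).trans ?_
    have h3 : ((algebraMap R (MvPolynomial (Option (Fin m)) R) (ζ ^ (g i : ℕ))) *
      MvPolynomial.X (some i)).totalDegree ≤ 1 := by
      refine (MvPolynomial.totalDegree_mul _ _).trans ?_
      rw [MvPolynomial.algebraMap_eq, MvPolynomial.totalDegree_C, MvPolynomial.totalDegree_X]
    calc _ ≤ (u.1.2 i : ℕ) * 1 := Nat.mul_le_mul_left _ h3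
      _ = _ := mul_one _
  exact (add_le_add h1 h2).trans u.2

private theorem normP_zpow {R : Type} [CommRing R] {ℓ : ℕ} [NeZero ℓ] {ζ : R}
    (hζ : ζ ^ ℓ = 1) (a b : Fin ℓ) : ζ ^ ((a + b : Fin ℓ) : ℕ) = ζ ^ (a : ℕ) * ζ ^ (b : ℕ) := by
  rw [Fin.val_add, ← pow_eq_pow_mod _ hζ, pow_add]

private theorem normP_zone {R : Type} [CommRing R] {ℓ : ℕ} [NeZero ℓ] {ζ : R}
    (hζ : ζ ^ ℓ = 1) : ζ ^ ((1 : Fin ℓ) : ℕ) = ζ := by
  rw [Fin.val_one', ← pow_eq_pow_mod _ hζ, pow_one]

/-- the factors are permuted -/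
private theorem normP_inv {R : Type} [CommRing R] [IsDomain R] {ℓ m n : ℕ} {ζ : R} (hℓ : 0 < ℓ)
    (hζ : ζ ^ ℓ = 1) (F : Idx m ℓ n → R) (i : Fin m) :
    MvPolynomial.aeval (fun o => MvPolynomial.C (if o = some i then ζ else 1) *
        MvPolynomial.X o : Option (Fin m) → MvPolynomial (Option (Fin m)) R)
      (∏ g : Ex m ℓ, ev F (MvPolynomial.X none : MvPolynomial (Option (Fin m)) R)
        (tw ζ g (fun i => MvPolynomial.X (some i)))) =
      ∏ g : Ex m ℓ, ev F (MvPolynomial.X none : MvPolynomial (Option (Fin m)) R)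
        (tw ζ g (fun i => MvPolynomial.X (some i))) := by
  classical
  have : NeZero ℓ := ⟨hℓ.ne'⟩
  rw [map_prod]
  refine Fintype.prod_equiv (Equiv.addRight (Pi.single i 1 : Ex m ℓ)) _ _ fun g => ?_
  rw [normP_ev_map]
  congr 1
  · rw [MvPolynomial.aeval_X, if_neg (by simp), MvPolynomial.C_1, one_mul]
  · funext j
    show MvPolynomial.aeval _ (algebraMap R _ (ζ ^ (g j : ℕ)) * MvPolynomial.X (some j)) =
      algebraMap R _ (ζ ^ ((g j + (Pi.single i 1 : Ex m ℓ) j : Fin ℓ) : ℕ)) *
        MvPolynomial.X (some j)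
    rw [map_mul, AlgHom.commutes, MvPolynomial.aeval_X, normP_zpow hζ]
    by_cases h : j = i
    · subst h
      rw [if_pos rfl, Pi.single_eq_same, normP_zone hζ, MvPolynomial.algebraMap_eq,
        MvPolynomial.C_mul, mul_assoc]
    · rw [if_neg (by simpa using h), Pi.single_eq_of_ne h, Fin.val_zero, pow_zero, mul_one,
        MvPolynomial.C_1, one_mul]

theorem exists_norm {R : Type} [CommRing R] [IsDomain R] {ℓ m n : ℕ} {ζ : R} (hℓ : 0 < ℓ)
    (hζ : IsPrimitiveRoot ζ ℓ) (β : Fin m → R) (F : Idx m ℓ n → R) :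
    ∃ N : Polynomial R, N.natDegree ≤ 2 * n * ℓ ^ m ∧
      ∀ (S : Type) [CommRing S] [Algebra R S] (z : S) (W : Fin m → S),
        (∀ i, W i ^ ℓ = z ^ ℓ - algebraMap R S (β i)) →
        Polynomial.aeval z N = ∏ g : Ex m ℓ, ev F z (tw ζ g W) := by
  classical
  set P : MvPolynomial (Option (Fin m)) R :=
    ∏ g : Ex m ℓ, ev F (MvPolynomial.X none : MvPolynomial (Option (Fin m)) R)
        (tw ζ g (fun i => MvPolynomial.X (some i))) with hP
  have hdeg : P.totalDegree ≤ 2 * n * ℓ ^ m := by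
    refine (MvPolynomial.totalDegree_finsetProd _ _).trans ?_
    refine (Finset.sum_le_card_nsmul _ _ (2 * n) fun g _ => normP_degree ζ F g).trans ?_
    rw [Finset.card_univ, Fintype.card_fun, Fintype.card_fin, Fintype.card_fin, smul_eq_mul,
      mul_comm]
  have hdvd : ∀ e ∈ P.support, ∀ i : Fin m, ℓ ∣ e (some i) := by
    intro e he i
    have h1 := normP_coeff (fun o : Option (Fin m) => if o = some i then ζ else 1) P e
    rw [normP_inv hℓ hζ.pow_eq_one F i, ← hP] at h1
    have h2 : (∏ o : Option (Fin m), (if o = some i then ζ else 1) ^ e o) = ζ ^ e (some i) := by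
      rw [Finset.prod_eq_single (some i)]
      · rw [if_pos rfl]
      · intro o _ ho
        rw [if_neg ho, one_pow]
      · intro h
        exact absurd (Finset.mem_univ _) h
    rw [h2] at h1
    rw [MvPolynomial.mem_support_iff] at he
    refine hζ.dvd_of_pow_eq_one _ ?_
    refine mul_right_cancel₀ he ?_
    rw [one_mul]
    exact h1.symm
  refine ⟨∑ e ∈ P.support, Polynomial.C (P.coeff e) * (Polynomial.X ^ (e none) *
    ∏ i : Fin m, (Polynomial.X ^ ℓ - Polynomial.C (β i)) ^ (e (some i) / ℓ)), ?_, ?_⟩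
  · refine Polynomial.natDegree_sum_le_of_forall_le _ _ fun e he => ?_
    refine (Polynomial.natDegree_C_mul_le _ _).trans ?_
    refine Polynomial.natDegree_mul_le.trans ?_
    rw [Polynomial.natDegree_X_pow]
    have h1 : (∏ i : Fin m, (Polynomial.X ^ ℓ - Polynomial.C (β i)) ^
        (e (some i) / ℓ)).natDegree ≤ ∑ i : Fin m, e (some i) := by
      refine (Polynomial.natDegree_prod_le _ _).trans ?_
      refine Finset.sum_le_sum fun i _ => ?_
      refine Polynomial.natDegree_pow_le.trans ?_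
      rw [Polynomial.natDegree_X_pow_sub_C]
      exact Nat.div_mul_le_self _ _
    refine (add_le_add le_rfl h1).trans (le_trans ?_ hdeg)
    refine le_trans (le_of_eq ?_) (MvPolynomial.le_totalDegree he)
    rw [Finsupp.sum_fintype _ _ (fun i => rfl), Fintype.sum_option]
  · intro S _ _ z W hW
    have h1 : ∏ g : Ex m ℓ, ev F z (tw ζ g W) =
        MvPolynomial.aeval (fun o : Option (Fin m) => o.elim z W) P := by
      rw [hP, map_prod]
      refine Finset.prod_congr rfl fun g _ => ?_
      rw [normP_ev_map]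
      congr 1
      · rw [MvPolynomial.aeval_X]
        rfl
      · funext i
        unfold tw
        rw [map_mul, AlgHom.commutes, MvPolynomial.aeval_X]
        rfl
    rw [h1, MvPolynomial.aeval_def, MvPolynomial.eval₂_eq', map_sum]
    refine Finset.sum_congr rfl fun e he => ?_
    rw [map_mul, Polynomial.aeval_C, map_mul, map_pow, Polynomial.aeval_X, map_prod,
      Fintype.prod_option]
    congr 2
    refine Finset.prod_congr rfl fun i _ => ?_
    rw [map_pow, map_sub, map_pow, Polynomial.aeval_X, Polynomial.aeval_C, ← hW i, ← pow_mul,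
      Nat.mul_div_cancel' (hdvd e he i)]
    rfl

end Pool.Agent.Work.MP_ae9a8c_lc
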