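import Pool.Agent.Work.MP_ae9a8c_lc.Step

/-!
Patterns (assembly, helper79).  By induction on the set of flipped indices.
-/

set_option autoImplicit false

namespace Pool.Agent.Work.MP_ae9a8c_lc

theorem patterns {R : Type} [CommRing R] [IsDomain R] {p ℓ : ℕ} {ζ : R} (h : Ctx R p ℓ ζ)
    (M₁ M₂ : Ideal R) [M₁.IsMaximal] [M₂.IsMaximal] (hne : M₂ ≠ M₁) {N : ℕ} (c : Fin N → R)
    (hc : ∀ i, c i ^ ℓ = ((i : ℕ) : R) + 1) (S : Set (Fin N)) :
    ∃ (x : R) (z : Fin N → R), (∀ i, z i ^ ℓ = x + (((i : ℕ) : R) + 1)) ∧
      (∀ i, z i - c i ∈ M₁) ∧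
      (∀ i, i ∈ S → ∀ M : Ideal R, M.IsMaximal → z i - c i ∈ M) ∧
      (∀ i, i ∉ S → ∀ M : Ideal R, M.IsMaximal → M ≠ M₁ → z i - ζ * c i ∈ M) := by
  classical
  have hM₁ : M₁.IsMaximal := inferInstance
  have hℓ0 : ℓ ≠ 0 := h.lp.ne_zero
  have hζ1 : ζ ^ ℓ = 1 := h.prim.pow_eq_one
  have hζu : IsUnit ζ := IsUnit.of_pow_eq_one hζ1 h.lp.ne_zero
  have hcu : ∀ i, IsUnit (c i) := by
    intro i
    have h1 : IsUnit (c i ^ ℓ) := by
      rw [hc i]
      have := h.nat ((i : ℕ) + 1) (Nat.succ_ne_zero _)
      push_cast at this
      exact this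
    exact (isUnit_pow_iff hℓ0).1 h1
  -- the flipped set is a finset `T`
  suffices H : ∀ T : Finset (Fin N), ∃ (x : R) (z : Fin N → R),
      (∀ i, z i ^ ℓ = x + (((i : ℕ) : R) + 1)) ∧ (∀ i, z i - c i ∈ M₁) ∧
      (∀ i, i ∉ T → ∀ M : Ideal R, M.IsMaximal → z i - c i ∈ M) ∧
      (∀ i, i ∈ T → ∀ M : Ideal R, M.IsMaximal → M ≠ M₁ → z i - ζ * c i ∈ M) by
    obtain ⟨x, z, h1, h2, h3, h4⟩ := H (Finset.univ.filter (fun i => i ∉ S))
    refine ⟨x, z, h1, h2, ?_, ?_⟩
    · intro i hi
      apply h3
      simp [hi]
    · intro i hi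
      apply h4
      simp [hi]
  intro T
  induction T using Finset.induction_on with
  | empty =>
    refine ⟨0, c, ?_, ?_, ?_, ?_⟩
    · intro i
      rw [hc i, zero_add]
    · intro i
      rw [sub_self]
      exact M₁.zero_mem
    · intro i _ M _
      rw [sub_self]
      exact M.zero_mem
    · intro i hi
      simp at hi
  | insert j T hj ih =>
    obtain ⟨x, z, h1, h2, h3, h4⟩ := ih
    -- all `z i` are units
    have hzu : ∀ i, IsUnit (z i) := by
      intro i
      apply unit_of
      intro M hM hz
      by_cases hiT : i ∈ T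
      · by_cases hMe : M = M₁
        · subst hMe
          apply hM.ne_top
          refine Ideal.eq_top_of_isUnit_mem _ ?_ (hcu i)
          have : c i = z i - (z i - c i) := by ring
          rw [this]
          exact M.sub_mem hz (h2 i)
        · apply hM.ne_top
          refine Ideal.eq_top_of_isUnit_mem _ ?_ (hζu.mul (hcu i))
          have : ζ * c i = z i - (z i - ζ * c i) := by ring
          rw [this]
          exact M.sub_mem hz (h4 i hiT M hM hMe)
      · apply hM.ne_top
        refine Ideal.eq_top_of_isUnit_mem _ ?_ (hcu i)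
        have : c i = z i - (z i - c i) := by ring
        rw [this]
        exact M.sub_mem hz (h3 i hiT M hM)
    have hint : ∀ a b : ℕ, a ≠ b → IsUnit ((a : R) - (b : R)) := by
      intro a b hab
      rcases lt_or_gt_of_ne hab with hlt | hlt
      · obtain ⟨k, rfl⟩ := Nat.exists_eq_add_of_lt hlt
        have hk := (h.nat (k + 1) (Nat.succ_ne_zero _)).neg
        have : ((a : ℕ) : R) - ((a + k + 1 : ℕ) : R) = -(((k + 1 : ℕ)) : R) := by
          push_cast
          ring
        rw [this]
        exact hk
      · obtain ⟨k, rfl⟩ := Nat.exists_eq_add_of_lt hlt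
        have hk := h.nat (k + 1) (Nat.succ_ne_zero _)
        have : ((b + k + 1 : ℕ) : R) - ((b : ℕ) : R) = (((k + 1 : ℕ)) : R) := by
          push_cast
          ring
        rw [this]
        exact hk
    cases N with
    | zero => exact j.elim0
    | succ N' =>
      -- the step with coordinate `z j`
      obtain ⟨c', w', g1, g2, g3, g4⟩ := step h M₁ M₂ hne
        (fun i : Fin N' => ((j : ℕ) : R) - (((j.succAbove i : Fin (N' + 1)) : ℕ) : R))
        (fun i => hint _ _ (by
          intro he
          exact (Fin.succAbove_ne j i) (Fin.ext he.symm)))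
        (fun i i' hii => by
          have : (((j : ℕ) : R) - (((j.succAbove i : Fin (N' + 1)) : ℕ) : R)) -
              (((j : ℕ) : R) - (((j.succAbove i' : Fin (N' + 1)) : ℕ) : R)) =
              (((j.succAbove i' : Fin (N' + 1)) : ℕ) : R) -
                (((j.succAbove i : Fin (N' + 1)) : ℕ) : R) := by ring
          rw [this]
          apply hint
          intro he
          apply hii
          exact (Fin.succAbove_right_injective (Fin.ext he)).symm)
        (z j) (hzu j) (fun i => z (j.succAbove i)) (fun i => hzu _)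
        (fun i => by
          rw [h1, h1]
          ring)
      refine ⟨c' ^ ℓ - (((j : ℕ) : R) + 1), j.insertNth c' w', ?_, ?_, ?_, ?_⟩
      · intro i
        rcases Fin.eq_self_or_eq_succAbove j i with rfl | ⟨i', rfl⟩
        · rw [Fin.insertNth_apply_same]
          ring
        · rw [Fin.insertNth_apply_succAbove, g1 i']
          ring
      · intro i
        rcases Fin.eq_self_or_eq_succAbove j i with rfl | ⟨i', rfl⟩
        · rw [Fin.insertNth_apply_same]
          have : c' - c i = (c' - z i) + (z i - c i) := by ring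
          rw [this]
          exact M₁.add_mem g2 (h2 i)
        · rw [Fin.insertNth_apply_succAbove]
          have : w' i' - c (j.succAbove i') = (w' i' - z (j.succAbove i')) +
            (z (j.succAbove i') - c (j.succAbove i')) := by ring
          rw [this]
          exact M₁.add_mem (g4 M₁ hM₁ i') (h2 _)
      · intro i hi M hM
        rcases Fin.eq_self_or_eq_succAbove j i with rfl | ⟨i', rfl⟩
        · exact absurd (Finset.mem_insert_self _ _) hi
        · rw [Fin.insertNth_apply_succAbove]
          have : w' i' - c (j.succAbove i') = (w' i' - z (j.succAbove i')) +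
            (z (j.succAbove i') - c (j.succAbove i')) := by ring
          rw [this]
          exact M.add_mem (g4 M hM i') (h3 _ (fun hm => hi (Finset.mem_insert_of_mem hm)) M hM)
      · intro i hi M hM hMe
        rcases Fin.eq_self_or_eq_succAbove j i with rfl | ⟨i', rfl⟩
        · rw [Fin.insertNth_apply_same]
          have : c' - ζ * c i = (c' - ζ * z i) + ζ * (z i - c i) := by ring
          rw [this]
          exact M.add_mem (g3 M hM hMe) (M.mul_mem_left _ (h3 i hj M hM))
        · rw [Fin.insertNth_apply_succAbove]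
          have : w' i' - ζ * c (j.succAbove i') = (w' i' - z (j.succAbove i')) +
            (z (j.succAbove i') - ζ * c (j.succAbove i')) := by ring
          rw [this]
          refine M.add_mem (g4 M hM i') (h4 _ ?_ M hM hMe)
          rcases Finset.mem_insert.1 hi with hi | hi
          · exact absurd hi (Fin.succAbove_ne j i')
          · exact hi

end Pool.Agent.Work.MP_ae9a8c_lc
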