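import Pool.Agent.Work.MP_ae9a8c_lc.Defs

/-!
MODULE Res.  Consequences of `Ctx` for the residue fields.

* `res_charZero`: in `R ⧸ M` every positive integer is a unit, so the characteristic is `0`.
* `res_prim`: `ζ` stays a primitive `ℓ`-th root of unity modulo `M`: as `ℓ` is prime it is enough that
  `ζ ≢ 1`.  If `ζ ≡ 1` modulo `M` then `0 = 1 + ζ + ... + ζ^(ℓ-1) ≡ ℓ` (the sum is `0` in the domain `R`,
  `IsPrimitiveRoot.geom_sum_eq_zero`), but `ℓ` is a unit.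
* `unit_one_sub`: `1 - ζ` is in no maximal ideal by `res_prim`.
* `exists_ne`: a choice of `n` prime to `p` and large.
-/

set_option autoImplicit false

namespace Pool.Agent.Work.MP_ae9a8c_lc

/-- A unit is an element in no maximal ideal. -/
theorem unit_of {R : Type} [CommRing R] {x : R} (h : ∀ M : Ideal R, M.IsMaximal → x ∉ M) :
    IsUnit x := by
  by_contra hx
  obtain ⟨M, hM, hxM⟩ := exists_max_ideal_of_mem_nonunits hx
  exact h M hM hxM

theorem res_charZero {R : Type} [CommRing R] [IsDomain R] {p ℓ : ℕ} {ζ : R} (h : Ctx R p ℓ ζ)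
    (M : Ideal R) [M.IsMaximal] : CharZero (R ⧸ M) := by
  refine charZero_of_inj_zero fun n hn => ?_
  by_contra hn0
  have h1 : IsUnit ((Ideal.Quotient.mk M) (n : R)) := (h.nat n hn0).map (Ideal.Quotient.mk M)
  rw [map_natCast, hn] at h1
  exact not_isUnit_zero h1

private theorem Res_ne_one {R : Type} [CommRing R] [IsDomain R] {p ℓ : ℕ} {ζ : R}
    (h : Ctx R p ℓ ζ) (M : Ideal R) [M.IsMaximal] : Ideal.Quotient.mk M ζ ≠ 1 := by
  intro h1
  have h2 := h.prim.geom_sum_eq_zero h.lp.one_lt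
  have h3 := congrArg (Ideal.Quotient.mk M) h2
  rw [map_sum, map_zero] at h3
  simp only [map_pow, h1, one_pow, Finset.sum_const, Finset.card_range, nsmul_eq_mul,
    mul_one] at h3
  haveI := res_charZero h M
  exact h.lp.ne_zero (Nat.cast_eq_zero.1 h3)

theorem res_prim {R : Type} [CommRing R] [IsDomain R] {p ℓ : ℕ} {ζ : R} (h : Ctx R p ℓ ζ)
    (M : Ideal R) [M.IsMaximal] : IsPrimitiveRoot (Ideal.Quotient.mk M ζ) ℓ := by
  haveI : Fact ℓ.Prime := ⟨h.lp⟩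
  rw [IsPrimitiveRoot.iff_orderOf]
  refine orderOf_eq_prime ?_ (Res_ne_one h M)
  rw [← map_pow, h.prim.pow_eq_one, map_one]

theorem unit_one_sub {R : Type} [CommRing R] [IsDomain R] {p ℓ : ℕ} {ζ : R} (h : Ctx R p ℓ ζ) :
    IsUnit (1 - ζ) := by
  refine unit_of fun M hM hmem => ?_
  refine Res_ne_one h M ?_
  rw [← map_one (Ideal.Quotient.mk M)]
  exact (Ideal.Quotient.eq.2 hmem).symm

private theorem Res_factor {R : Type} [CommRing R] [IsDomain R] {p ℓ : ℕ} {ζ : R}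
    (h : Ctx R p ℓ ζ) (P : Ideal R) [P.IsPrime] {x y : R} (hxy : x ^ ℓ - y ^ ℓ ∈ P) :
    ∃ k : Fin ℓ, x - ζ ^ (k : ℕ) * y ∈ P := by
  classical
  haveI : NeZero ℓ := ⟨h.lp.ne_zero⟩
  rw [h.prim.pow_sub_pow_eq_prod_sub_mul x y h.lp.pos, Ideal.IsPrime.prod_mem_iff] at hxy
  obtain ⟨μ, hμ, hm⟩ := hxy
  rw [Polynomial.mem_nthRootsFinset h.lp.pos] at hμ
  obtain ⟨i, hi, rfl⟩ := h.prim.eq_pow_of_pow_eq_one hμ
  exact ⟨⟨i, hi⟩, hm⟩

/-- Two `ℓ`-th roots of the same element, congruent modulo `M`, not in `M`, are equal. -/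
theorem eq_of_pow_eq {R : Type} [CommRing R] [IsDomain R] {p ℓ : ℕ} {ζ : R} (h : Ctx R p ℓ ζ)
    (M : Ideal R) [M.IsMaximal] {x y : R} (hx : x ∉ M) (hxy : x ^ ℓ = y ^ ℓ) (hc : x - y ∈ M) :
    x = y := by
  obtain ⟨k, hk⟩ := Res_factor h (⊥ : Ideal R) (x := x) (y := y)
    (by rw [hxy, sub_self]; exact Ideal.zero_mem _)
  rw [Ideal.mem_bot, sub_eq_zero] at hk
  have hy : y ∉ M := by
    intro hy
    have := M.add_mem hc hy
    rw [sub_add_cancel] at this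
    exact hx this
  have h1 : (ζ ^ (k : ℕ) - 1) * y ∈ M := by
    have : (ζ ^ (k : ℕ) - 1) * y = x - y := by rw [sub_mul, one_mul, ← hk]
    rw [this]
    exact hc
  rcases (Ideal.IsMaximal.isPrime inferInstance : M.IsPrime).mem_or_mem h1 with h2 | h2
  · have h3 : (Ideal.Quotient.mk M ζ) ^ (k : ℕ) = 1 := by
      rw [← map_pow, ← map_one (Ideal.Quotient.mk M)]
      exact Ideal.Quotient.eq.2 h2
    have h4 := (res_prim h M).dvd_of_pow_eq_one _ h3
    have h5 : (k : ℕ) = 0 := Nat.eq_zero_of_dvd_of_lt h4 k.2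
    rw [hk, h5, pow_zero, one_mul]
  · exact absurd h2 hy

/-- `ℓ`-th roots modulo `M` differ by a power of `ζ`. -/
theorem exists_pow {R : Type} [CommRing R] [IsDomain R] {p ℓ : ℕ} {ζ : R} (h : Ctx R p ℓ ζ)
    (M : Ideal R) [M.IsMaximal] {x y : R} (hxy : x ^ ℓ - y ^ ℓ ∈ M) :
    ∃ k : Fin ℓ, x - ζ ^ (k : ℕ) * y ∈ M := by
  haveI : M.IsPrime := Ideal.IsMaximal.isPrime inferInstance
  exact Res_factor h M hxy

/-- `ℓ`-th roots exist. -/
theorem exists_root {R : Type} [CommRing R] [IsDomain R] {p ℓ : ℕ} {ζ : R} (h : Ctx R p ℓ ζ)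
    (x : R) : ∃ y : R, y ^ ℓ = x := by
  obtain ⟨b, hb⟩ := h.root (Polynomial.X ^ ℓ - Polynomial.C x)
    (Polynomial.monic_X_pow_sub_C x h.lp.ne_zero) (by
      rw [Polynomial.natDegree_X_pow_sub_C]
      intro hd
      exact h.ne ((Nat.prime_dvd_prime_iff_eq h.pp h.lp).1 hd).symm)
  refine ⟨b, ?_⟩
  rw [Polynomial.IsRoot.def, Polynomial.eval_sub, Polynomial.eval_pow, Polynomial.eval_X,
    Polynomial.eval_C, sub_eq_zero] at hb
  exact hb

/-- `ℓ`-th roots congruent to a given root modulo `M`. -/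
theorem exists_root_cong {R : Type} [CommRing R] [IsDomain R] {p ℓ : ℕ} {ζ : R}
    (h : Ctx R p ℓ ζ) (M : Ideal R) [M.IsMaximal] {x u : R} (hx : x - u ^ ℓ ∈ M) :
    ∃ y : R, y ^ ℓ = x ∧ y - u ∈ M := by
  obtain ⟨y0, hy0⟩ := exists_root h x
  have h1 : u ^ ℓ - y0 ^ ℓ ∈ M := by
    rw [hy0, ← neg_sub]
    exact M.neg_mem hx
  obtain ⟨k, hk⟩ := exists_pow h M h1
  refine ⟨ζ ^ (k : ℕ) * y0, ?_, ?_⟩
  · rw [mul_pow, hy0, ← pow_mul, mul_comm (k : ℕ), pow_mul, h.prim.pow_eq_one, one_pow, one_mul]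
  · rw [← neg_sub]
    exact M.neg_mem hk

end Pool.Agent.Work.MP_ae9a8c_lc
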