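import Pool.Agent.Work.MP_ae9a8c_lc.Defs

/-!
MODULE Ser.  Power series roots.  Everything is over a commutative ring in which `ℓ` is a unit.

* `exists_ser`: if `ω` is a unit and `ω ^ ℓ = s ^ ℓ - b` then there is a power series `w` with
  `w ^ ℓ = base ℓ s b` and constant coefficient `ω`.  Proof: build approximations `w_n` with
  `w_n ^ ℓ ≡ base (mod X^(n+1))`, `w_(n+1) = w_n + C a * X^(n+1)` where
  `a = (ℓ ω^(ℓ-1))⁻¹ * coeff (n+1) (base - w_n ^ ℓ)` and put `w = mk (fun n => coeff n w_n)`.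
  (Or Hensel for the `X`-adically complete ring of power series.)
* `root_unique`: if `u ^ ℓ = v ^ ℓ`, equal constant coefficients, a unit, then `u = v`:
  `u ^ ℓ - v ^ ℓ = (u - v) * Σ u^i v^(ℓ-1-i)` (`Commute.mul_geom_sum₂` or
  `mul_geom_sum₂`) and the second factor has constant coefficient `ℓ * ω^(ℓ-1)`, a unit, hence is a
  unit (`PowerSeries.isUnit_iff_constantCoeff`).
* `ser_spec`: from `exists_ser` and the definition of `ser`.
* `ser_map`, `ser_tw`: from `root_unique`.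
-/

set_option autoImplicit false

namespace Pool.Agent.Work.MP_ae9a8c_lc

open PowerSeries

theorem root_unique {R : Type} [CommRing R] {ℓ : ℕ} (hℓ : IsUnit (ℓ : R)) {u v : PowerSeries R}
    (hu : IsUnit (constantCoeff u)) (hc : constantCoeff u = constantCoeff v)
    (h : u ^ ℓ = v ^ ℓ) : u = v := by
  have h1 := Commute.geom_sum₂_mul (Commute.all u v) ℓ
  rw [h, sub_self] at h1
  have h2 : IsUnit (∑ i ∈ Finset.range ℓ, u ^ i * v ^ (ℓ - 1 - i)) := by
    rw [PowerSeries.isUnit_iff_constantCoeff, map_sum]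
    have h3 : ∑ i ∈ Finset.range ℓ, constantCoeff (u ^ i * v ^ (ℓ - 1 - i)) =
        (ℓ : R) * (constantCoeff u) ^ (ℓ - 1) := by
      rw [← geom_sum₂_self (constantCoeff u) ℓ]
      refine Finset.sum_congr rfl fun i _ => ?_
      rw [map_mul, map_pow, map_pow, ← hc]
    rw [h3]
    exact hℓ.mul (hu.pow _)
  have h4 := (IsUnit.mul_right_eq_zero h2).mp h1
  exact sub_eq_zero.mp h4

private theorem exists_ser {R : Type} [CommRing R] {ℓ : ℕ} (hℓ : IsUnit (ℓ : R)) {s b ω : R}
    (hω : IsUnit ω) (h : ω ^ ℓ = s ^ ℓ - b) :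
    ∃ w : PowerSeries R, w ^ ℓ = base ℓ s b ∧ constantCoeff w = ω := by
  rcases Nat.eq_zero_or_pos ℓ with rfl | hpos
  · have : Subsingleton R := by
      rw [Nat.cast_zero, isUnit_zero_iff] at hℓ
      exact subsingleton_of_zero_eq_one hℓ
    exact ⟨C ω, Subsingleton.elim _ _, Subsingleton.elim _ _⟩
  have hH : HenselianRing (PowerSeries R) (Ideal.span {(X : PowerSeries R)}) := inferInstance
  obtain ⟨w, hw1, hw2⟩ := hH.is_henselian (Polynomial.X ^ ℓ - Polynomial.C (base ℓ s b))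
    (Polynomial.monic_X_pow_sub_C _ hpos.ne') (C ω) (by
      rw [Ideal.mem_span_singleton, PowerSeries.X_dvd_iff]
      simp only [Polynomial.eval_sub, Polynomial.eval_pow, Polynomial.eval_X, Polynomial.eval_C,
        base]
      rw [map_sub, map_pow, map_sub, map_pow, map_add, constantCoeff_C, constantCoeff_C,
        constantCoeff_C, constantCoeff_X, add_zero, h, sub_self]) (by
      apply IsUnit.map
      have e1 : (Polynomial.X ^ ℓ - Polynomial.C (base ℓ s b)).derivative.eval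
          (C ω : PowerSeries R) = (ℓ : PowerSeries R) * (C ω) ^ (ℓ - 1) := by
        simp [Polynomial.derivative_X_pow]
      rw [e1]
      have e2 : IsUnit ((ℓ : PowerSeries R)) := by
        have := hℓ.map (C : R →+* PowerSeries R)
        rwa [map_natCast] at this
      exact e2.mul ((hω.map (C : R →+* PowerSeries R)).pow _))
  refine ⟨w, ?_, ?_⟩
  · have h1 : (Polynomial.X ^ ℓ - Polynomial.C (base ℓ s b)).eval w = 0 := hw1
    simp only [Polynomial.eval_sub, Polynomial.eval_pow, Polynomial.eval_X,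
      Polynomial.eval_C] at h1
    exact sub_eq_zero.mp h1
  · rw [Ideal.mem_span_singleton, PowerSeries.X_dvd_iff, map_sub, constantCoeff_C] at hw2
    exact sub_eq_zero.mp hw2

theorem ser_spec {R : Type} [CommRing R] {ℓ : ℕ} (hℓ : IsUnit (ℓ : R)) {s b ω : R}
    (hω : IsUnit ω) (h : ω ^ ℓ = s ^ ℓ - b) :
    (ser ℓ s b ω) ^ ℓ = base ℓ s b ∧ constantCoeff (ser ℓ s b ω) = ω := by
  have hex := exists_ser hℓ hω h
  unfold ser
  rw [dif_pos hex]
  exact hex.choose_spec

theorem ser_map {R S : Type} [CommRing R] [CommRing S] (f : R →+* S) {ℓ : ℕ}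
    (hℓ : IsUnit (ℓ : R)) {s b ω : R} (hω : IsUnit ω) (h : ω ^ ℓ = s ^ ℓ - b) :
    PowerSeries.map f (ser ℓ s b ω) = ser ℓ (f s) (f b) (f ω) := by
  obtain ⟨h1, h2⟩ := ser_spec hℓ hω h
  have hℓ' : IsUnit (ℓ : S) := by
    have := hℓ.map f
    rwa [map_natCast] at this
  have h' : (f ω) ^ ℓ = (f s) ^ ℓ - f b := by
    rw [← map_pow, h, map_sub, map_pow]
  obtain ⟨h3, h4⟩ := ser_spec hℓ' (hω.map f) h'
  have h5 : constantCoeff (PowerSeries.map f (ser ℓ s b ω)) = f ω := by
    rw [← coeff_zero_eq_constantCoeff_apply, coeff_map, coeff_zero_eq_constantCoeff_apply, h2]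
  apply root_unique hℓ'
  · rw [h5]
    exact hω.map f
  · rw [h5, h4]
  · rw [h3, ← map_pow, h1]
    unfold base
    simp

theorem ser_tw {R : Type} [CommRing R] {ℓ : ℕ} (hℓ : IsUnit (ℓ : R)) {s b ω : R}
    (hω : IsUnit ω) (h : ω ^ ℓ = s ^ ℓ - b) {ξ : R} (hξ : ξ ^ ℓ = 1) :
    ser ℓ s b (ξ * ω) = C ξ * ser ℓ s b ω := by
  have hξu : IsUnit ξ := by
    rcases Nat.eq_zero_or_pos ℓ with rfl | hpos
    · have : Subsingleton R := by
        rw [Nat.cast_zero, isUnit_zero_iff] at hℓ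
        exact subsingleton_of_zero_eq_one hℓ
      exact isUnit_of_subsingleton ξ
    · exact IsUnit.of_pow_eq_one hξ hpos.ne'
  obtain ⟨h1, h2⟩ := ser_spec hℓ hω h
  obtain ⟨h3, h4⟩ := ser_spec hℓ (hξu.mul hω) (s := s) (b := b) (by rw [mul_pow, hξ, one_mul, h])
  apply root_unique hℓ
  · rw [h4]
    exact hξu.mul hω
  · rw [h4, map_mul, constantCoeff_C, h2]
  · rw [h3, mul_pow, h1, ← map_pow, hξ, map_one, one_mul]

end Pool.Agent.Work.MP_ae9a8c_lc
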