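import Pool.Agent.Work.MP_ae9a8c_lc.Lift
import Pool.Agent.Work.MP_ae9a8c_lc.Alpha
import Pool.Agent.Work.MP_ae9a8c_lc.Local
import Pool.Agent.Work.MP_ae9a8c_lc.NormP
import Pool.Agent.Work.MP_ae9a8c_lc.DvdSer
import Pool.Agent.Work.MP_ae9a8c_lc.DivG

/-!
Step (assembly, helper79).
-/

set_option autoImplicit false

namespace Pool.Agent.Work.MP_ae9a8c_lc

open PowerSeries

/-- Evaluation of polynomials at `s + X` is injective. -/
theorem aeval_inj {R : Type} [CommRing R] [Nontrivial R] (s : R) (q : Polynomial R)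
    (hq : Polynomial.aeval (C s + X : PowerSeries R) q = 0) : q = 0 := by
  by_contra hne
  have h1 := dvd_of_series q s (q.natDegree + 1) (by rw [hq]; exact dvd_zero _)
  have hm : ((Polynomial.X - Polynomial.C s) ^ (q.natDegree + 1)).Monic :=
    (Polynomial.monic_X_sub_C s).pow _
  refine Polynomial.Monic.not_dvd_of_natDegree_lt hm hne ?_ h1
  rw [(Polynomial.monic_X_sub_C s).natDegree_pow, Polynomial.natDegree_X_sub_C]
  omega

/-- A product over all sheets. -/
theorem prod_dvd {A : Type} [CommRing A] {m ℓ : ℕ} (hℓ : 0 < ℓ) (x : A) (n : ℕ)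
    (f : Ex m ℓ → A) (hf : ∀ g, nz g → x ^ n ∣ f g) :
    x ^ (n * (ℓ ^ m - 1)) ∣ ∏ g, f g := by
  classical
  let g0 : Ex m ℓ := fun _ => ⟨0, hℓ⟩
  rw [← Finset.mul_prod_erase Finset.univ f (Finset.mem_univ g0)]
  refine Dvd.dvd.mul_left ?_ _
  have hc : (Finset.univ.erase g0).card = ℓ ^ m - 1 := by
    rw [Finset.card_erase_of_mem (Finset.mem_univ g0), Finset.card_univ]
    simp
  rw [pow_mul, ← hc, ← Finset.prod_const]
  refine Finset.prod_dvd_prod_of_dvd _ _ ?_
  intro g hg
  apply hf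
  by_contra hn
  apply (Finset.mem_erase.1 hg).1
  funext i
  by_contra hi
  apply hn
  refine ⟨i, ?_⟩
  intro h0
  apply hi
  exact Fin.ext h0

theorem tw_zero {R S : Type} [CommRing R] [CommRing S] [Algebra R S] {m ℓ : ℕ} (ζ : R)
    (g : Ex m ℓ) (hg : ¬ nz g) (W : Fin m → S) : tw ζ g W = W := by
  funext i
  have : (g i : ℕ) = 0 := by
    by_contra hi
    exact hg ⟨i, hi⟩
  simp [tw, this]

/-- Congruent coefficients give congruent values. -/
theorem coeff_ev_mod {R : Type} [CommRing R] (M : Ideal R) {m ℓ n : ℕ} (F F' : Idx m ℓ n → R)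
    (hF : ∀ u, F u - F' u ∈ M) (z : PowerSeries R) (W : Fin m → PowerSeries R) (k : ℕ) :
    coeff k (ev F z W) - coeff k (ev F' z W) ∈ M := by
  unfold ev
  rw [← map_sub, ← Finset.sum_sub_distrib, map_sum]
  refine Ideal.sum_mem _ ?_
  intro u _
  rw [← sub_mul, ← map_sub, PowerSeries.algebraMap_apply, Algebra.algebraMap_self, RingHom.id_apply,
    PowerSeries.coeff_C_mul]
  exact M.mul_mem_right _ (hF u)

theorem step {R : Type} [CommRing R] [IsDomain R] {p ℓ : ℕ} {ζ : R} (h : Ctx R p ℓ ζ)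
    (M₁ M₂ : Ideal R) [M₁.IsMaximal] [M₂.IsMaximal] (hne : M₂ ≠ M₁) {m : ℕ} (β : Fin m → R)
    (hβ : ∀ i, IsUnit (β i)) (hd : ∀ i j, i ≠ j → IsUnit (β i - β j)) (c : R) (hc : IsUnit c)
    (w : Fin m → R) (hwu : ∀ i, IsUnit (w i)) (hw : ∀ i, w i ^ ℓ = c ^ ℓ - β i) :
    ∃ (c' : R) (w' : Fin m → R), (∀ i, w' i ^ ℓ = c' ^ ℓ - β i) ∧ c' - c ∈ M₁ ∧
      (∀ M : Ideal R, M.IsMaximal → M ≠ M₁ → c' - ζ * c ∈ M) ∧
      ∀ M : Ideal R, M.IsMaximal → ∀ i, w' i - w i ∈ M := by
  classical
  obtain ⟨α, ω, hα₁, hα, hω, hωu, hωw⟩ := exists_alpha h M₁ β hβ c w hwu hw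
  obtain ⟨n, F, hpn, f1, f2, f3, hFT⟩ :=
    lift h M₁ β hβ hd c α hc w ω hwu hωu hw hω hα₁ hα hωw
  have hℓ0 : 0 < ℓ := h.lp.pos
  have hℓu : IsUnit (ℓ : R) := h.nat ℓ h.lp.ne_zero
  have hζ1 : ζ ^ ℓ = 1 := h.prim.pow_eq_one
  have hζu : IsUnit ζ := IsUnit.of_pow_eq_one hζ1 h.lp.ne_zero
  have h1ζ : IsUnit (1 - ζ) := unit_one_sub h
  have hn0 : n ≠ 0 := by
    rintro rfl
    exact hpn (dvd_zero p)
  have hsc : ∀ x : R, (ζ * x) ^ ℓ = x ^ ℓ := by
    intro x
    rw [mul_pow, hζ1, one_mul]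
  obtain ⟨N, hN, hNe⟩ := exists_norm (n := n) hℓ0 h.prim β F
  -- N at power series points
  have hW : ∀ (s : R) (v : Fin m → R), (∀ i, IsUnit (v i)) → (∀ i, v i ^ ℓ = s ^ ℓ - β i) →
      Polynomial.aeval (C s + X : PowerSeries R) N =
        ∏ g : Ex m ℓ, ev F (C s + X : PowerSeries R) (tw ζ g (sr ℓ β s v)) := by
    intro s v hv1 hv2
    refine hNe (PowerSeries R) (C s + X) (sr ℓ β s v) ?_
    intro i
    exact (ser_spec hℓu (hv1 i) (hv2 i)).1
  have hwζ : ∀ i, w i ^ ℓ = (ζ * c) ^ ℓ - β i := fun i => by rw [hsc]; exact hw i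
  have hωζ : ∀ i, ω i ^ ℓ = (ζ * α) ^ ℓ - β i := fun i => by rw [hsc]; exact hω i
  -- non-membership facts
  have hcM : ∀ M : Ideal R, M.IsMaximal → c ∉ M := fun M hM hcm =>
    hM.ne_top (Ideal.eq_top_of_isUnit_mem _ hcm hc)
  have hζcM : ∀ M : Ideal R, M.IsMaximal → ζ * c ∉ M := fun M hM hcm =>
    hM.ne_top (Ideal.eq_top_of_isUnit_mem _ hcm (hζu.mul hc))
  have h1M : ∀ M : Ideal R, M.IsMaximal → (1 - ζ) * c ∉ M := fun M hM hcm =>
    hM.ne_top (Ideal.eq_top_of_isUnit_mem _ hcm (h1ζ.mul hc))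
  have hM₁ : M₁.IsMaximal := inferInstance
  have hM₂ : M₂.IsMaximal := inferInstance
  have h12 : ζ * c ≠ α := by
    intro he
    apply h1M M₁ hM₁
    have : (1 - ζ) * c = -(α - c) := by rw [← he]; ring
    rw [this]
    exact M₁.neg_mem hα₁
  have h13 : ζ * c ≠ ζ * α := by
    intro he
    have hca : c = α := by
      have := hζu.mul_left_cancel he
      exact this
    apply hcM M₂ hM₂
    rw [hca]
    exact hα M₂ hM₂ hne
  have h23 : α ≠ ζ * α := by
    intro he
    have h0 : (1 - ζ) * α = 0 := by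
      have : (1 - ζ) * α = α - ζ * α := by ring
      rw [this, ← he, sub_self]
    have hα0 : α = 0 := by
      rcases mul_eq_zero.1 h0 with h0 | h0
      · exact absurd h0 h1ζ.ne_zero
      · exact h0
    apply hcM M₁ hM₁
    have : c = -(α - c) := by rw [hα0]; ring
    rw [this]
    exact M₁.neg_mem hα₁
  have e1 : ζ * α - ζ * c ∈ M₁ := by
    rw [← mul_sub]
    exact M₁.mul_mem_left _ hα₁
  have e2 : ∀ M : Ideal R, M.IsMaximal → M ≠ M₁ → ζ * α - α ∈ M := by
    intro M hM hMne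
    exact M.sub_mem (M.mul_mem_left _ (hα M hM hMne)) (hα M hM hMne)
  -- divisibility
  have d1 : (Polynomial.X - Polynomial.C (ζ * c)) ^ (n * (ℓ ^ m - 1)) ∣ N := by
    apply dvd_of_series
    rw [hW (ζ * c) w hwu hwζ]
    exact prod_dvd hℓ0 X n _ f1
  have d2 : (Polynomial.X - Polynomial.C α) ^ (n * (ℓ ^ m - 1)) ∣ N := by
    apply dvd_of_series
    rw [hW α ω hωu hω]
    exact prod_dvd hℓ0 X n _ f2
  have d3 : (Polynomial.X - Polynomial.C (ζ * α)) ^ n ∣ N := by
    apply dvd_of_series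
    rw [hW (ζ * α) ω hωu hωζ]
    let g0 : Ex m ℓ := fun _ => ⟨0, hℓ0⟩
    have hg0 : ¬ nz g0 := by
      rintro ⟨i, hi⟩
      exact hi rfl
    refine dvd_trans ?_ (Finset.dvd_prod_of_mem _ (Finset.mem_univ g0))
    rw [tw_zero ζ g0 hg0]
    exact f3
  -- the polynomial T
  set T : Polynomial R := (Polynomial.X - Polynomial.C (ζ * c)) ^ n *
    (Polynomial.X - Polynomial.C α) ^ n with hTdef
  have hTdeg : T.natDegree ≤ 2 * n := by
    rw [hTdef]
    refine le_trans Polynomial.natDegree_mul_le ?_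
    rw [(Polynomial.monic_X_sub_C _).natDegree_pow, (Polynomial.monic_X_sub_C _).natDegree_pow,
      Polynomial.natDegree_X_sub_C, Polynomial.natDegree_X_sub_C]
    omega
  have hT : ∀ M : Ideal R, M.IsMaximal → N.map (Ideal.Quotient.mk M) =
      (((Polynomial.X - Polynomial.C (ζ * c)) * (Polynomial.X - Polynomial.C α)) ^
        (n * ℓ ^ m)).map (Ideal.Quotient.mk M) := by
    intro M hM
    haveI : Nontrivial (R ⧸ M) := Ideal.Quotient.nontrivial_iff.2 hM.ne_top
    set q := Ideal.Quotient.mk M with hq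
    have hTr : ((Polynomial.X - Polynomial.C (ζ * c)) * (Polynomial.X - Polynomial.C α)) ^
        (n * ℓ ^ m) = T ^ (ℓ ^ m) := by
      rw [hTdef, pow_mul, mul_pow]
    rw [hTr]
    have hsub : (N - T ^ (ℓ ^ m)).map q = 0 := by
      apply aeval_inj (q (ζ * c))
      -- transport the identity in R[[X]] modulo M
      have hmap : ∀ P : Polynomial R,
          Polynomial.aeval (C (q (ζ * c)) + X : PowerSeries (R ⧸ M)) (P.map q) =
            PowerSeries.map q (Polynomial.aeval (C (ζ * c) + X : PowerSeries R) P) := by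
        intro P
        rw [Polynomial.aeval_def, Polynomial.aeval_def, Polynomial.eval₂_map,
          Polynomial.hom_eval₂]
        congr 1
        · ext r
          simp [PowerSeries.algebraMap_apply]
        · simp
      rw [hmap, map_sub, hW (ζ * c) w hwu hwζ, map_sub, map_prod]
      have hev : ∀ g : Ex m ℓ, PowerSeries.map q
          (ev F (C (ζ * c) + X : PowerSeries R) (tw ζ g (sr ℓ β (ζ * c) w))) =
          PowerSeries.map q (Polynomial.aeval (C (ζ * c) + X : PowerSeries R) T) := by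
        intro g
        rw [← ev_cst (m := m) (ℓ := ℓ) (n := n) hℓ0 T hTdeg (C (ζ * c) + X : PowerSeries R)
          (tw ζ g (sr ℓ β (ζ * c) w))]
        ext k
        rw [PowerSeries.coeff_map, PowerSeries.coeff_map]
        rw [hq, Ideal.Quotient.eq]
        exact coeff_ev_mod M _ _ (hFT M hM) _ _ k
      rw [Finset.prod_congr rfl (fun g _ => hev g), Finset.prod_const, Finset.card_univ]
      have hcard : Fintype.card (Ex m ℓ) = ℓ ^ m := by simp
      rw [hcard, map_pow, map_pow, sub_self]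
    rw [Polynomial.map_sub, sub_eq_zero] at hsub
    exact hsub
  obtain ⟨G, hG1, hG2, hG3, hG4, hG5⟩ := divG M₁ (ζ * c) α (ζ * α) h12 h13 h23 e1 e2 n (ℓ ^ m)
    (Nat.one_le_pow _ _ hℓ0) N hN d1 d2 d3 hT
  -- a root of G
  obtain ⟨u, hu⟩ := hG2
  have hmon : (Polynomial.C ((u⁻¹ : Rˣ) : R) * G).Monic := by
    rw [Polynomial.Monic, Polynomial.leadingCoeff_mul, Polynomial.leadingCoeff_C,
      Polynomial.leadingCoeff, hG1, ← hu]
    exact Units.inv_mul u
  have hdeg : (Polynomial.C ((u⁻¹ : Rˣ) : R) * G).natDegree = n := by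
    rw [Polynomial.natDegree_C_mul (Units.ne_zero _), hG1]
  obtain ⟨b, hb⟩ := h.root _ hmon (by rw [hdeg]; exact hpn)
  have hGb : G.eval b = 0 := by
    have h1 : ((u⁻¹ : Rˣ) : R) * G.eval b = 0 := by
      have := hb
      rw [Polynomial.IsRoot, Polynomial.eval_mul, Polynomial.eval_C] at this
      exact this
    rcases mul_eq_zero.1 h1 with h1 | h1
    · exact absurd h1 (Units.ne_zero _)
    · exact h1
  have hbM : ∀ (M : Ideal R), M.IsMaximal → ∀ s : R,
      G.map (Ideal.Quotient.mk M) =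
        ((Polynomial.X - Polynomial.C s) ^ n).map (Ideal.Quotient.mk M) → b - s ∈ M := by
    intro M hM s hGs
    have h1 : (Ideal.Quotient.mk M) (G.eval b) = (Ideal.Quotient.mk M) ((b - s) ^ n) := by
      rw [← Polynomial.eval_map_apply, hGs, Polynomial.eval_map_apply]
      simp
    rw [hGb, map_zero] at h1
    have h2 : (b - s) ^ n ∈ M := Ideal.Quotient.eq_zero_iff_mem.1 h1.symm
    exact hM.isPrime.mem_of_pow_mem n h2
  have hbα : b - α ∈ M₁ := hbM M₁ hM₁ α hG4
  have hbc : b - c ∈ M₁ := by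
    have : b - c = (b - α) + (α - c) := by ring
    rw [this]
    exact M₁.add_mem hbα hα₁
  have hbζ : ∀ M : Ideal R, M.IsMaximal → M ≠ M₁ → b - ζ * c ∈ M := fun M hM hMne =>
    hbM M hM (ζ * c) (hG5 M hM hMne)
  -- a point over b on which F vanishes
  have hNb : Polynomial.aeval b N = 0 := by
    obtain ⟨Q, rfl⟩ := hG3
    rw [Polynomial.coe_aeval_eq_eval, Polynomial.eval_mul, hGb, zero_mul]
  choose v hv using fun i : Fin m => exists_root h (b ^ ℓ - β i)
  have hprod := hNe R b v (fun i => by rw [Algebra.algebraMap_self, RingHom.id_apply]; exact hv i)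
  rw [hNb] at hprod
  obtain ⟨g, -, hg⟩ := Finset.prod_eq_zero_iff.1 hprod.symm
  have htwpow : ∀ (g : Ex m ℓ) (x : Fin m → R) (i : Fin m), (tw ζ g x i) ^ ℓ = x i ^ ℓ := by
    intro g x i
    rw [tw, Algebra.algebraMap_self, RingHom.id_apply, mul_pow, ← pow_mul, mul_comm (g i : ℕ) ℓ, pow_mul, hζ1,
      one_pow, one_mul]
  have htwu : ∀ (g : Ex m ℓ) (x : Fin m → R) (i : Fin m), IsUnit (x i) → IsUnit (tw ζ g x i) := by
    intro g x i hx
    rw [tw, Algebra.algebraMap_self, RingHom.id_apply]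
    exact (hζu.pow _).mul hx
  have hv' : ∀ i, (tw ζ g v i) ^ ℓ = b ^ ℓ - β i := fun i => by rw [htwpow]; exact hv i
  refine ⟨b, tw ζ g v, hv', hbc, hbζ, ?_⟩
  intro M hM
  haveI : M.IsMaximal := hM
  -- coefficient of T
  have hTco : ∀ s s' : R, (T = (Polynomial.X - Polynomial.C s) ^ n *
      (Polynomial.X - Polynomial.C s') ^ n) → ∀ W : Fin m → PowerSeries R,
      coeff n (ev F (C s + X : PowerSeries R) W) - (s - s') ^ n ∈ M := by
    intro s s' hss W
    have h1 := coeff_ev_mod M _ _ (hFT M hM) (C s + X : PowerSeries R) W n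
    rw [ev_cst hℓ0 T hTdeg] at h1
    have h2 : coeff n (Polynomial.aeval (C s + X : PowerSeries R) T) = (s - s') ^ n := by
      rw [hss]
      have h3 : Polynomial.aeval (C s + X : PowerSeries R)
          ((Polynomial.X - Polynomial.C s) ^ n * (Polynomial.X - Polynomial.C s') ^ n) =
          X ^ n * (C (s - s') + X) ^ n := by
        simp only [map_mul, map_pow, map_sub, Polynomial.aeval_X, Polynomial.aeval_C,
          PowerSeries.algebraMap_apply, Algebra.algebraMap_self, RingHom.id_apply]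
        congr 2 <;> ring
      rw [h3]
      have h4 := PowerSeries.coeff_X_pow_mul ((C (s - s') + X : PowerSeries R) ^ n) n 0
      rw [zero_add] at h4
      rw [h4, PowerSeries.coeff_zero_eq_constantCoeff_apply]
      simp
    rw [h2] at h1
    exact h1
  have hpowb : b ^ ℓ - c ^ ℓ ∈ M := by
    by_cases hMne : M = M₁
    · subst hMne
      obtain ⟨t, ht⟩ := sub_dvd_pow_sub_pow b c ℓ
      rw [ht]
      exact M.mul_mem_right _ hbc
    · obtain ⟨t, ht⟩ := sub_dvd_pow_sub_pow b (ζ * c) ℓ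
      rw [← hsc c, ht]
      exact M.mul_mem_right _ (hbζ M hM hMne)
  have hk : ∀ i, ∃ k : Fin ℓ, tw ζ g v i - ζ ^ (k : ℕ) * w i ∈ M := by
    intro i
    refine exists_pow h M ?_
    rw [hv' i, hw i]
    have : b ^ ℓ - β i - (c ^ ℓ - β i) = b ^ ℓ - c ^ ℓ := by ring
    rw [this]
    exact hpowb
  choose k hk using hk
  by_cases hnz : nz k
  · exfalso
    by_cases hMne : M = M₁
    · subst hMne
      refine local_ne M hℓu β F α b (tw ζ k ω) (tw ζ g v) (fun i => htwu k ω i (hωu i))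
        (fun i => by rw [htwpow]; exact hω i) hv' ?_ hbα ?_ ?_ ?_ hg
      · intro i
        have : tw ζ g v i - tw ζ k ω i = (tw ζ g v i - ζ ^ (k i : ℕ) * w i) -
            ζ ^ (k i : ℕ) * (ω i - w i) := by
          simp only [tw, Algebra.algebraMap_self, RingHom.id_apply]
          ring
        rw [this]
        exact M.sub_mem (hk i) (M.mul_mem_left _ (hωw i))
      · intro hba
        apply hζcM M₂ hM₂
        have h1 := hbζ M₂ hM₂ hne
        rw [hba] at h1
        have : ζ * c = α - (α - ζ * c) := by ring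
        rw [this]
        exact M₂.sub_mem (hα M₂ hM₂ hne) h1
      · rw [← tw_sr hℓu h.prim β hωu hω]
        exact f2 k hnz
      · intro hmem
        have h1 := hTco α (ζ * c) (by rw [hTdef, mul_comm]) (sr ℓ β α (tw ζ k ω))
        have h2 : (α - ζ * c) ^ n ∈ M := by
          have := M.sub_mem hmem h1
          rwa [sub_sub_cancel] at this
        have h3 : α - ζ * c ∈ M := hM.isPrime.mem_of_pow_mem n h2
        apply h1M M hM
        have : (1 - ζ) * c = (α - ζ * c) - (α - c) := by ring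
        rw [this]
        exact M.sub_mem h3 hα₁
    · refine local_ne M hℓu β F (ζ * c) b (tw ζ k w) (tw ζ g v) (fun i => htwu k w i (hwu i))
        (fun i => by rw [htwpow]; exact hwζ i) hv' ?_ (hbζ M hM hMne) ?_ ?_ ?_ hg
      · intro i
        have : tw ζ k w i = ζ ^ (k i : ℕ) * w i := by
          simp only [tw, Algebra.algebraMap_self, RingHom.id_apply]
        rw [this]
        exact hk i
      · intro hbe
        apply h1M M₁ hM₁
        have : (1 - ζ) * c = -(b - c) := by rw [hbe]; ring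
        rw [this]
        exact M₁.neg_mem hbc
      · rw [← tw_sr hℓu h.prim β hwu hwζ]
        exact f1 k hnz
      · intro hmem
        have h1 := hTco (ζ * c) α hTdef (sr ℓ β (ζ * c) (tw ζ k w))
        have h2 : (ζ * c - α) ^ n ∈ M := by
          have := M.sub_mem hmem h1
          rwa [sub_sub_cancel] at this
        have h3 : ζ * c - α ∈ M := hM.isPrime.mem_of_pow_mem n h2
        apply hζcM M hM
        have : ζ * c = (ζ * c - α) + α := by ring
        rw [this]
        exact M.add_mem h3 (hα M hM hMne)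
  · intro i
    have h0 : (k i : ℕ) = 0 := by
      by_contra hi
      exact hnz ⟨i, hi⟩
    have := hk i
    rwa [h0, pow_zero, one_mul] at this

end Pool.Agent.Work.MP_ae9a8c_lc
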