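import Pool.Agent.Work.MP_ae9a8c_lc.Ser
import Pool.Agent.Work.MP_ae9a8c_lc.Dual
import Pool.Agent.Work.MP_ae9a8c_lc.Four
import Pool.Agent.Work.MP_ae9a8c_lc.Crt

/-!
MODULE Surj (assembly of Dual, Four, Crt).  Over a field `κ` of characteristic 0 containing a primitive
`ℓ`-th root of unity: for all large `n` the `n`-jets of `F = Σ F_(b,a) z^b W^a` (`b + |a| ≤ 2n`) at ALL
points over `s₀` and at all points over `s₁` except one (the sheet `g = 0`) can be prescribed.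

PROOF.  `w₀ = sr ℓ β s₀ ω₀`, `w₁ = sr ℓ β s₁ ω₁` (`ser_spec`: `w i ^ ℓ = base`, constant coefficient
`ω i ≠ 0`).  On the sheet `g` over `s`: `ev F (C s + X) (tw ζ g w) = Σ_a chi ζ g a * f_a(s + X) * w^a`
with `f_a = Σ_(b + |a| ≤ 2n) F_(b,a) z^b` (`algebraMap κ κ⟦X⟧ = C`).
Let `n₀ = max (n₀ of dual for w₁) (m * ℓ)`; so `dg a ≤ n`.
By `four` there are `u₀ a` with `Σ_a chi g a * u₀ a = y₀ g` for all `g`, and `u₁ a` with
`Σ_a chi g a * u₁ a = y₁ g` for all `g`.  Put `U₀ a = w₀^(-a) u₀ a`, `U₁ a = w₁^(-a) u₁ a`.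
Let `r a` be given by `crt` for `s₀ s₁ n (U₀ a) (U₁ a)`; let `θ` be given by `dual` for `w₁` and this
`r`; apply `crt` with `h = w₁^(-a) θ`, `d = dg a`: this gives `f_a` of degree `≤ 2n - dg a` with
`f_a(s₀ + X) ≡ w₀^(-a) u₀ a` and `f_a(s₁ + X) ≡ w₁^(-a) (u₁ a + (C (s₁ - s₀) + X)^n θ)`.
Put `F_(b,a) = coeff_b f_a`.  Then on the sheet `g` over `s₀` the value is
`≡ Σ_a chi g a u₀ a = y₀ g`, and over `s₁`
`≡ Σ_a chi g a (u₁ a + (..)^n θ) = y₁ g + (..)^n θ Σ_a chi g a = y₁ g` for nontrivial `g` (`sum_chi`).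
-/

set_option autoImplicit false

namespace Pool.Agent.Work.MP_ae9a8c_lc

open PowerSeries

private theorem surj_ev {R S : Type} [CommRing R] [CommRing S] [Algebra R S] {m ℓ n : ℕ}
    (f : Ex m ℓ → Polynomial R) (hf : ∀ a, (f a).natDegree + dg a ≤ 2 * n) (z : S) (W : Fin m → S) :
    ev (fun u : Idx m ℓ n => (f u.1.2).coeff (u.1.1 : ℕ)) z W =
      ∑ a : Ex m ℓ, Polynomial.aeval z (f a) * ∏ i, W i ^ (a i : ℕ) := by
  classical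
  have h1 : ev (fun u : Idx m ℓ n => (f u.1.2).coeff (u.1.1 : ℕ)) z W =
      ∑ u : Fin (2 * n + 1) × Ex m ℓ, algebraMap R S ((f u.2).coeff (u.1 : ℕ)) *
        mon z W (u.1 : ℕ) u.2 := by
    unfold ev
    refine Finset.sum_of_injOn (fun u : Idx m ℓ n => u.1) ?_ ?_ ?_ ?_
    · intro a _ b _ hab
      exact Subtype.ext hab
    · intro u _
      simp
    · intro u _ hu
      have h2 : ¬ ((u.1 : ℕ) + dg u.2 ≤ 2 * n) := by
        intro h3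
        exact hu ⟨⟨u, h3⟩, by simp, rfl⟩
      have h3 : (f u.2).coeff (u.1 : ℕ) = 0 := by
        apply Polynomial.coeff_eq_zero_of_natDegree_lt
        have := hf u.2
        omega
      rw [h3, map_zero, zero_mul]
    · intro u _
      rfl
  rw [h1, Fintype.sum_prod_type_right]
  refine Finset.sum_congr rfl fun a _ => ?_
  rw [Polynomial.aeval_eq_sum_range' (show (f a).natDegree < 2 * n + 1 by have := hf a; omega),
    ← Fin.sum_univ_eq_sum_range (fun i => (f a).coeff i • z ^ i) (2 * n + 1), Finset.sum_mul]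
  refine Finset.sum_congr rfl fun b _ => ?_
  unfold mon
  simp only [Algebra.smul_def]
  ring

private theorem surj_tw {κ : Type} [Field κ] {m ℓ : ℕ} (ζ : κ) (g a : Ex m ℓ)
    (w : Fin m → PowerSeries κ) :
    ∏ i, tw ζ g w i ^ (a i : ℕ) = C (chi ζ g a) * ∏ i, w i ^ (a i : ℕ) := by
  unfold tw chi
  rw [map_prod, ← Finset.prod_mul_distrib]
  refine Finset.prod_congr rfl fun i _ => ?_
  rw [mul_pow, ← PowerSeries.C_eq_algebraMap, map_pow, map_pow, map_pow]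

private theorem surj_inv {κ : Type} [Field κ] {m ℓ : ℕ} (a : Ex m ℓ)
    (w : Fin m → PowerSeries κ) (hu : ∀ i, constantCoeff (w i) ≠ 0) :
    (∏ i, w i ^ (a i : ℕ)) * (∏ i, ((w i)⁻¹) ^ (a i : ℕ)) = 1 := by
  rw [← Finset.prod_mul_distrib]
  refine Finset.prod_eq_one fun i _ => ?_
  rw [← mul_pow, PowerSeries.mul_inv_cancel _ (hu i), one_pow]

private theorem surj_dg_le {m ℓ : ℕ} (a : Ex m ℓ) : dg a ≤ m * ℓ := by
  unfold dg
  calc ∑ i, (a i : ℕ) ≤ ∑ i : Fin m, ℓ := Finset.sum_le_sum fun i _ => (a i).isLt.le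
    _ = m * ℓ := by simp

theorem surj {κ : Type} [Field κ] [CharZero κ] {ℓ m : ℕ} (hℓ : ℓ.Prime) {ζ : κ}
    (hζ : IsPrimitiveRoot ζ ℓ) (β : Fin m → κ) (hβ : ∀ i, β i ≠ 0) (hd : Function.Injective β)
    (s₀ s₁ : κ) (hs : s₀ ≠ s₁) (ω₀ ω₁ : Fin m → κ)
    (hω₀ : ∀ i, ω₀ i ≠ 0) (hω₁ : ∀ i, ω₁ i ≠ 0)
    (h₀ : ∀ i, ω₀ i ^ ℓ = s₀ ^ ℓ - β i) (h₁ : ∀ i, ω₁ i ^ ℓ = s₁ ^ ℓ - β i) :
    ∃ n₀ : ℕ, ∀ n : ℕ, n₀ ≤ n → ∀ y₀ y₁ : Ex m ℓ → PowerSeries κ, ∃ F : Idx m ℓ n → κ,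
      (∀ g, (X : PowerSeries κ) ^ n ∣
        ev F (C s₀ + X : PowerSeries κ) (tw ζ g (sr ℓ β s₀ ω₀)) - y₀ g) ∧
      (∀ g, nz g → (X : PowerSeries κ) ^ n ∣
        ev F (C s₁ + X : PowerSeries κ) (tw ζ g (sr ℓ β s₁ ω₁)) - y₁ g) := by
  classical
  have hℓu : IsUnit (ℓ : κ) := isUnit_iff_ne_zero.2 (Nat.cast_ne_zero.2 hℓ.ne_zero)
  set w₀ := sr ℓ β s₀ ω₀ with hw₀
  set w₁ := sr ℓ β s₁ ω₁ with hw₁
  have e0 : ∀ i, constantCoeff (w₀ i) ≠ 0 := by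
    intro i
    have := (ser_spec hℓu (isUnit_iff_ne_zero.2 (hω₀ i)) (h₀ i)).2
    show constantCoeff (ser ℓ s₀ (β i) (ω₀ i)) ≠ 0
    rw [this]
    exact hω₀ i
  have e1 : ∀ i, constantCoeff (w₁ i) ≠ 0 := by
    intro i
    have := (ser_spec hℓu (isUnit_iff_ne_zero.2 (hω₁ i)) (h₁ i)).2
    show constantCoeff (ser ℓ s₁ (β i) (ω₁ i)) ≠ 0
    rw [this]
    exact hω₁ i
  have e2 : ∀ i, w₁ i ^ ℓ = base ℓ s₁ (β i) := fun i =>
    (ser_spec hℓu (isUnit_iff_ne_zero.2 (hω₁ i)) (h₁ i)).1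
  obtain ⟨n₀, hn₀⟩ := dual hℓ s₁ β hβ hd w₁ e2 e1
  refine ⟨max n₀ (m * ℓ), fun n hn y₀ y₁ => ?_⟩
  have hn1 : n₀ ≤ n := (le_max_left _ _).trans hn
  have hn2 : m * ℓ ≤ n := (le_max_right _ _).trans hn
  obtain ⟨u₀, hu₀⟩ := four hℓ.pos hζ y₀
  obtain ⟨u₁, hu₁⟩ := four hℓ.pos hζ y₁
  have hcrt := fun a : Ex m ℓ => crt s₀ s₁ hs n ((∏ i, ((w₀ i)⁻¹) ^ (a i : ℕ)) * u₀ a)
    ((∏ i, ((w₁ i)⁻¹) ^ (a i : ℕ)) * u₁ a)
  choose r hr using hcrt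
  obtain ⟨θ, hθ⟩ := hn₀ n hn1 r
  have hf := fun a : Ex m ℓ => hr a ((∏ i, ((w₁ i)⁻¹) ^ (a i : ℕ)) * θ) (dg a)
    ((surj_dg_le a).trans hn2) (fun j hj => hθ a j hj)
  choose f hfd hf0 hf1 using hf
  have hfd' : ∀ a, (f a).natDegree + dg a ≤ 2 * n := by
    intro a
    have h2 := hfd a
    have h3 := (surj_dg_le a).trans hn2
    omega
  refine ⟨fun u => (f u.1.2).coeff (u.1.1 : ℕ), fun g => ?_, fun g hg => ?_⟩
  · rw [surj_ev f hfd', ← hu₀ g, ← Finset.sum_sub_distrib]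
    refine Finset.dvd_sum fun a _ => ?_
    rw [surj_tw]
    have h2 : Polynomial.aeval (C s₀ + X : PowerSeries κ) (f a) *
        (C (chi ζ g a) * ∏ i, w₀ i ^ (a i : ℕ)) - C (chi ζ g a) * u₀ a =
        C (chi ζ g a) * (∏ i, w₀ i ^ (a i : ℕ)) *
          (Polynomial.aeval (C s₀ + X : PowerSeries κ) (f a) -
            (∏ i, ((w₀ i)⁻¹) ^ (a i : ℕ)) * u₀ a) := by
      have h3 := surj_inv a w₀ e0
      calc _ = Polynomial.aeval (C s₀ + X : PowerSeries κ) (f a) *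
            (C (chi ζ g a) * ∏ i, w₀ i ^ (a i : ℕ)) - C (chi ζ g a) *
            ((∏ i, w₀ i ^ (a i : ℕ)) * (∏ i, ((w₀ i)⁻¹) ^ (a i : ℕ))) * u₀ a := by
            rw [h3, mul_one]
        _ = _ := by ring
    rw [h2]
    exact Dvd.dvd.mul_left (hf0 a) _
  · have h5 : y₁ g = ∑ a : Ex m ℓ, C (chi ζ g a) * (u₁ a + (C (s₁ - s₀) + X) ^ n * θ) := by
      have h6 : ∑ a : Ex m ℓ, C (chi ζ g a) * (u₁ a + (C (s₁ - s₀) + X) ^ n * θ) =
          ∑ a : Ex m ℓ, C (chi ζ g a) * u₁ a +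
            C (∑ a : Ex m ℓ, chi ζ g a) * ((C (s₁ - s₀) + X) ^ n * θ) := by
        rw [map_sum, Finset.sum_mul, ← Finset.sum_add_distrib]
        exact Finset.sum_congr rfl fun a _ => by ring
      rw [h6, sum_chi hζ g hg, map_zero, zero_mul, add_zero, hu₁]
    rw [surj_ev f hfd', h5, ← Finset.sum_sub_distrib]
    refine Finset.dvd_sum fun a _ => ?_
    rw [surj_tw]
    have h2 : Polynomial.aeval (C s₁ + X : PowerSeries κ) (f a) *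
        (C (chi ζ g a) * ∏ i, w₁ i ^ (a i : ℕ)) -
          C (chi ζ g a) * (u₁ a + (C (s₁ - s₀) + X) ^ n * θ) =
        C (chi ζ g a) * (∏ i, w₁ i ^ (a i : ℕ)) *
          (Polynomial.aeval (C s₁ + X : PowerSeries κ) (f a) -
            ((∏ i, ((w₁ i)⁻¹) ^ (a i : ℕ)) * u₁ a + (C (s₁ - s₀) + X) ^ n *
              ((∏ i, ((w₁ i)⁻¹) ^ (a i : ℕ)) * θ))) := by
      have h3 := surj_inv a w₁ e1
      calc _ = Polynomial.aeval (C s₁ + X : PowerSeries κ) (f a) *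
            (C (chi ζ g a) * ∏ i, w₁ i ^ (a i : ℕ)) - C (chi ζ g a) *
            ((∏ i, w₁ i ^ (a i : ℕ)) * (∏ i, ((w₁ i)⁻¹) ^ (a i : ℕ))) *
              (u₁ a + (C (s₁ - s₀) + X) ^ n * θ) := by
            rw [h3, mul_one]
        _ = _ := by ring
    rw [h2]
    exact Dvd.dvd.mul_left (hf1 a) _

end Pool.Agent.Work.MP_ae9a8c_lc
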