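import Pool.Agent.Work.MP_ae9a8c_lc.Base
import Pool.Agent.Work.MP_ae9a8c_lc.Surj
import Pool.Agent.Work.MP_ae9a8c_lc.Res

/-!
MODULE SurjM.  The three families of conditions are independent modulo every maximal ideal `M`.

PROOF.  `κ = R ⧸ M` is a field (`Ideal.Quotient.field M`, a local instance), of characteristic 0
(`res_charZero`), the image of `ζ` is primitive (`res_prim`), the images of `β i` are nonzero and distinct.
Choose lifts: every power series over `κ` is the image of one over `R`, every `κ`-valued `F` lifts to `R`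
(surjectivity of `Ideal.Quotient.mk`); use `red`.  Note `tw ζ 0 W = W` (`0` the trivial sheet) and
`(ζ * s)^ℓ = s^ℓ`.
* `M = M₁`: here `α ≡ c`, `ζ α ≡ ζ c`, `ω ≡ w`.  Apply `surj` over `κ` with `s₀ = ζ c`, `s₁ = c`,
  `ω₀ = w`, `ω₁ = w` (images), `y₀ g = y₁ g` for nontrivial `g`, `y₀ 0 = y₃`, and `y₁ g = y₂ g`.
  `s₀ ≠ s₁` as `(1 - ζ) c` is a unit.
* `M ≠ M₁`: here `α ≡ 0 ≡ ζ α`.  Apply `surj` with `s₀ = 0`, `s₁ = ζ c`, `ω₀ = ω`, `ω₁ = w`,
  `y₀ g = y₂ g` for nontrivial `g`, `y₀ 0 = y₃`, and `y₁ g = y₁ g`.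
The conclusion `coeff k (..) - coeff k (y) ∈ M` for `k < n` is `X^n ∣ (difference of the images)`
(`PowerSeries.X_pow_dvd_iff`, `Ideal.Quotient.eq_zero_iff_mem`).
-/

set_option autoImplicit false

namespace Pool.Agent.Work.MP_ae9a8c_lc

open PowerSeries

private theorem sm_cong {R : Type} [CommRing R] (M : Ideal R) {m ℓ n : ℕ} (hℓ : IsUnit (ℓ : R))
    (ζ : R) (β : Fin m → R) {s s' : R} {ω ω' : Fin m → R} (hω : ∀ i, IsUnit (ω i))
    (h : ∀ i, ω i ^ ℓ = s ^ ℓ - β i) (hω' : ∀ i, IsUnit (ω' i))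
    (h' : ∀ i, ω' i ^ ℓ = s' ^ ℓ - β i) (hs : s - s' ∈ M) (hωω : ∀ i, ω i - ω' i ∈ M)
    (F : Idx m ℓ n → R) (g : Ex m ℓ) :
    PowerSeries.map (Ideal.Quotient.mk M)
        (ev F (C s + X : PowerSeries R) (tw ζ g (sr ℓ β s ω))) =
    PowerSeries.map (Ideal.Quotient.mk M)
        (ev F (C s' + X : PowerSeries R) (tw ζ g (sr ℓ β s' ω'))) := by
  rw [red M hℓ ζ β hω h, red M hℓ ζ β hω' h']
  have e1 : Ideal.Quotient.mk M s = Ideal.Quotient.mk M s' := Ideal.Quotient.eq.2 hs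
  have e2 : (fun i => Ideal.Quotient.mk M (ω i)) = fun i => Ideal.Quotient.mk M (ω' i) :=
    funext fun i => Ideal.Quotient.eq.2 (hωω i)
  rw [e1, e2]

private theorem sm_field {R : Type} [CommRing R] [IsDomain R] {p ℓ : ℕ} {ζ : R}
    (h : Ctx R p ℓ ζ) (M : Ideal R) (hM : M.IsMaximal) {m : ℕ} (β : Fin m → R)
    (hβ : ∀ i, IsUnit (β i)) (hd : ∀ i j, i ≠ j → IsUnit (β i - β j)) (s₀ s₁ : R)
    (ω₀ ω₁ : Fin m → R) (hω₀ : ∀ i, IsUnit (ω₀ i)) (hω₁ : ∀ i, IsUnit (ω₁ i))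
    (h₀ : ∀ i, ω₀ i ^ ℓ = s₀ ^ ℓ - β i) (h₁ : ∀ i, ω₁ i ^ ℓ = s₁ ^ ℓ - β i)
    (hs : s₀ - s₁ ∉ M) :
    ∃ n₀ : ℕ, ∀ n : ℕ, n₀ ≤ n → ∀ y₀ y₁ : Ex m ℓ → PowerSeries R, ∃ F : Idx m ℓ n → R,
      (∀ g, ∀ k < n, coeff k (ev F (C s₀ + X : PowerSeries R) (tw ζ g (sr ℓ β s₀ ω₀))) -
        coeff k (y₀ g) ∈ M) ∧
      (∀ g, nz g → ∀ k < n, coeff k (ev F (C s₁ + X : PowerSeries R)
        (tw ζ g (sr ℓ β s₁ ω₁))) - coeff k (y₁ g) ∈ M) := by
  classical
  have hℓ : IsUnit (ℓ : R) := h.nat ℓ h.lp.ne_zero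
  let _ : Field (R ⧸ M) := Ideal.Quotient.field M
  have _ : CharZero (R ⧸ M) := res_charZero h M
  have hprim : IsPrimitiveRoot (Ideal.Quotient.mk M ζ) ℓ := res_prim h M
  have hu : ∀ x : R, IsUnit x → Ideal.Quotient.mk M x ≠ 0 := by
    intro x hx h0
    exact hM.ne_top (M.eq_top_of_isUnit_mem (Ideal.Quotient.eq_zero_iff_mem.1 h0) hx)
  have hm : ∀ {s : R} {ω : Fin m → R}, (∀ i, ω i ^ ℓ = s ^ ℓ - β i) → ∀ i,
      (Ideal.Quotient.mk M (ω i)) ^ ℓ = (Ideal.Quotient.mk M s) ^ ℓ - Ideal.Quotient.mk M (β i) := by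
    intro s ω hs i
    rw [← map_pow, ← map_pow, ← map_sub, hs i]
  obtain ⟨n₀, hn₀⟩ := surj (κ := R ⧸ M) h.lp hprim (fun i => Ideal.Quotient.mk M (β i))
    (fun i => hu _ (hβ i)) (by
      intro i j hij
      by_contra hne
      have h2 : Ideal.Quotient.mk M (β i) = Ideal.Quotient.mk M (β j) := hij
      apply hu _ (hd i j hne)
      rw [map_sub, h2, sub_self])
    (Ideal.Quotient.mk M s₀) (Ideal.Quotient.mk M s₁) (fun h2 => hs (Ideal.Quotient.eq.1 h2))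
    (fun i => Ideal.Quotient.mk M (ω₀ i)) (fun i => Ideal.Quotient.mk M (ω₁ i))
    (fun i => hu _ (hω₀ i)) (fun i => hu _ (hω₁ i)) (hm h₀) (hm h₁)
  refine ⟨n₀, fun n hn y₀ y₁ => ?_⟩
  obtain ⟨F, hF0, hF1⟩ := hn₀ n hn (fun g => PowerSeries.map (Ideal.Quotient.mk M) (y₀ g))
    (fun g => PowerSeries.map (Ideal.Quotient.mk M) (y₁ g))
  have hlift : ∀ u, ∃ x : R, Ideal.Quotient.mk M x = F u := fun u =>
    Ideal.Quotient.mk_surjective (F u)
  choose G hG using hlift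
  have hG' : (fun u => Ideal.Quotient.mk M (G u)) = F := funext hG
  have key : ∀ (a b : PowerSeries R) (n k : ℕ), k < n →
      (X : PowerSeries (R ⧸ M)) ^ n ∣ PowerSeries.map (Ideal.Quotient.mk M) a -
        PowerSeries.map (Ideal.Quotient.mk M) b → coeff k a - coeff k b ∈ M := by
    intro a b n k hk hdvd
    have h2 := (PowerSeries.X_pow_dvd_iff.1 hdvd) k hk
    rw [← map_sub, coeff_map, Ideal.Quotient.eq_zero_iff_mem, map_sub] at h2
    exact h2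
  refine ⟨G, fun g k hk => ?_, fun g hg k hk => ?_⟩
  · apply key _ _ n k hk
    rw [red M hℓ ζ β hω₀ h₀, hG']
    exact hF0 g
  · apply key _ _ n k hk
    rw [red M hℓ ζ β hω₁ h₁, hG']
    exact hF1 g hg

private theorem sm_coeff {R : Type} [CommRing R] (M : Ideal R) {a b : PowerSeries R}
    (h : PowerSeries.map (Ideal.Quotient.mk M) a = PowerSeries.map (Ideal.Quotient.mk M) b)
    (k : ℕ) : coeff k a - coeff k b ∈ M := by
  have h2 := congrArg (coeff k) h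
  rw [coeff_map, coeff_map] at h2
  exact Ideal.Quotient.eq.1 h2

theorem surjM {R : Type} [CommRing R] [IsDomain R] {p ℓ : ℕ} {ζ : R} (h : Ctx R p ℓ ζ)
    (M₁ : Ideal R) [M₁.IsMaximal] {m : ℕ} (β : Fin m → R) (hβ : ∀ i, IsUnit (β i))
    (hd : ∀ i j, i ≠ j → IsUnit (β i - β j)) (c α : R) (hc : IsUnit c) (w ω : Fin m → R)
    (hwu : ∀ i, IsUnit (w i)) (hωu : ∀ i, IsUnit (ω i))
    (hw : ∀ i, w i ^ ℓ = c ^ ℓ - β i) (hω : ∀ i, ω i ^ ℓ = α ^ ℓ - β i)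
    (hα₁ : α - c ∈ M₁) (hα : ∀ M : Ideal R, M.IsMaximal → M ≠ M₁ → α ∈ M)
    (hωw : ∀ i, ω i - w i ∈ M₁) (M : Ideal R) (hM : M.IsMaximal) :
    ∃ n₀ : ℕ, ∀ n : ℕ, n₀ ≤ n → ∀ (y₁ y₂ : Ex m ℓ → PowerSeries R) (y₃ : PowerSeries R),
      ∃ F : Idx m ℓ n → R,
        (∀ g, nz g → ∀ k : ℕ, k < n →
          coeff k (ev F (C (ζ * c) + X : PowerSeries R) (tw ζ g (sr ℓ β (ζ * c) w))) -
            coeff k (y₁ g) ∈ M) ∧
        (∀ g, nz g → ∀ k : ℕ, k < n →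
          coeff k (ev F (C α + X : PowerSeries R) (tw ζ g (sr ℓ β α ω))) - coeff k (y₂ g) ∈ M) ∧
        (∀ k : ℕ, k < n →
          coeff k (ev F (C (ζ * α) + X : PowerSeries R) (sr ℓ β (ζ * α) ω)) - coeff k y₃ ∈ M) := by
  classical
  have hℓ : IsUnit (ℓ : R) := h.nat ℓ h.lp.ne_zero
  have hℓ0 : 0 < ℓ := h.lp.pos
  have hζ1 : ζ ^ ℓ = 1 := h.prim.pow_eq_one
  have hζu : IsUnit ζ := h.prim.isUnit hℓ0.ne'
  have hw' : ∀ i, w i ^ ℓ = (ζ * c) ^ ℓ - β i := by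
    intro i
    rw [mul_pow, hζ1, one_mul]
    exact hw i
  have hω' : ∀ i, ω i ^ ℓ = (ζ * α) ^ ℓ - β i := by
    intro i
    rw [mul_pow, hζ1, one_mul]
    exact hω i
  let g0 : Ex m ℓ := fun _ => ⟨0, hℓ0⟩
  have hg0 : ¬ nz g0 := by
    rintro ⟨i, hi⟩
    exact hi rfl
  have htw0 : ∀ W : Fin m → PowerSeries R, tw ζ g0 W = W := by
    intro W
    funext i
    unfold tw
    simp [g0]
  have hnu : ∀ x : R, IsUnit x → x ∉ M := fun x hx hxM => hM.ne_top (M.eq_top_of_isUnit_mem hxM hx)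
  by_cases hMM : M = M₁
  · subst hMM
    have hs : ζ * c - α ∉ M := by
      intro h2
      have h3 : (1 - ζ) * c ∈ M := by
        have h4 := M.add_mem h2 hα₁
        have h5 : (1 - ζ) * c = -(ζ * c - α + (α - c)) := by ring
        rw [h5]
        exact M.neg_mem h4
      exact hnu _ ((unit_one_sub h).mul hc) h3
    obtain ⟨n₀, hn₀⟩ := sm_field h M hM β hβ hd (ζ * c) α w ω hwu hωu hw' hω hs
    refine ⟨n₀, fun n hn y₁ y₂ y₃ => ?_⟩
    obtain ⟨F, hF0, hF1⟩ := hn₀ n hn (fun g => if nz g then y₁ g else y₃) y₂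
    refine ⟨F, fun g hg k hk => ?_, hF1, fun k hk => ?_⟩
    · have h2 := hF0 g k hk
      simp only [if_pos hg] at h2
      exact h2
    · have h2 := hF0 g0 k hk
      simp only [if_neg hg0] at h2
      have h3 := sm_cong M hℓ ζ β (s := ζ * α) (s' := ζ * c) (ω := ω) (ω' := w) hωu hω' hwu hw'
        (by
          have : ζ * α - ζ * c = ζ * (α - c) := by ring
          rw [this]
          exact M.mul_mem_left _ hα₁) hωw F g0
      have h4 := sm_coeff M h3 k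
      rw [htw0, htw0] at h4
      rw [htw0] at h2
      have h5 := M.add_mem h4 h2
      rw [sub_add_sub_cancel] at h5
      exact h5
  · have hαM := hα M hM hMM
    have hs : α - ζ * c ∉ M := by
      intro h2
      have h3 : ζ * c ∈ M := by
        have h4 := M.sub_mem hαM h2
        rwa [sub_sub_cancel] at h4
      exact hnu _ (hζu.mul hc) h3
    obtain ⟨n₀, hn₀⟩ := sm_field h M hM β hβ hd α (ζ * c) ω w hωu hwu hω hw' hs
    refine ⟨n₀, fun n hn y₁ y₂ y₃ => ?_⟩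
    obtain ⟨F, hF0, hF1⟩ := hn₀ n hn (fun g => if nz g then y₂ g else y₃) y₁
    refine ⟨F, hF1, fun g hg k hk => ?_, fun k hk => ?_⟩
    · have h2 := hF0 g k hk
      simp only [if_pos hg] at h2
      exact h2
    · have h2 := hF0 g0 k hk
      simp only [if_neg hg0] at h2
      have h3 := sm_cong M hℓ ζ β (s := ζ * α) (s' := α) (ω := ω) (ω' := ω) hωu hω' hωu hω
        (M.sub_mem (M.mul_mem_left _ hαM) hαM)
        (fun i => by rw [sub_self]; exact M.zero_mem) F g0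
      have h4 := sm_coeff M h3 k
      rw [htw0, htw0] at h4
      rw [htw0] at h2
      have h5 := M.add_mem h4 h2
      rw [sub_add_sub_cancel] at h5
      exact h5

end Pool.Agent.Work.MP_ae9a8c_lc
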